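import Pool.Agent.Lib.MP_8bcb2e_ag.AC.Spec

/-!
# The inequality for one system

With `L = ratioField k (V m)` the space `V (s₁ m b)` is spread over `L` and multiplied by powers of `V m`; the
product lies in `V (2 s₁ m b)`, and the limit for large `b` gives the inequality.
-/

set_option autoImplicit false

namespace Pool.Agent.Lib.MP_8bcb2e_ag.AC

open Pool.Agent.Lib.MP_16285c_agN (Vd cnt)
open Filter Topology Module

private lemma Abs_pow {k K : Type} [Field k] [Field K] [Algebra k K] (V : ℕ → Submodule k K)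
    (hmul : ∀ a b, V a * V b ≤ V (a + b)) (m : ℕ) : ∀ j : ℕ, 1 ≤ j → V m ^ j ≤ V (j * m) := by
  intro j hj
  induction j, hj using Nat.le_induction with
  | base => rw [pow_one, one_mul]
  | succ j _ ih =>
    rw [pow_succ]
    refine (mul_le_mul' ih le_rfl).trans ((hmul _ _).trans ?_)
    rw [add_mul, one_mul]

private lemma Abs_lim (B : ℕ → ℕ) (m e : ℕ) (hm : 1 ≤ m) (c : ℝ)
    (h : Tendsto (fun l : ℕ => (B l : ℝ) / (l : ℝ) ^ e) atTop (𝓝 c)) :
    Tendsto (fun b : ℕ => (B (m * b) : ℝ) / (b : ℝ) ^ e) atTop (𝓝 ((m : ℝ) ^ e * c)) := by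
  have h1 : Tendsto (fun b : ℕ => m * b) atTop atTop :=
    Filter.tendsto_id.const_mul_atTop' (by omega)
  have h2 := (h.comp h1).const_mul ((m : ℝ) ^ e)
  have hm0 : (m : ℝ) ^ e ≠ 0 := by
    have : (m : ℝ) ≠ 0 := by
      have : m ≠ 0 := by omega
      exact_mod_cast this
    exact pow_ne_zero _ this
  refine h2.congr fun b => ?_
  simp only [Function.comp]
  rw [Nat.cast_mul, mul_pow]
  by_cases hb : ((b : ℝ) ^ e) = 0
  · rw [hb]
    simp
  · field_simp

/-- **Abs.** -/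
theorem tAbs (hFib : S_Fib) (hVol : S_Vol) (hPol : S_Pol) (hInd : S_Ind) (hGlue : S_Glue)
    (hLim : S_Lim) (hTd : S_Td) : S_Abs := by
  intro k K _ _ _ _ n s₁ s₂ V χ hn hS m hm hVm d hd
  have hfin : ∀ j, FiniteDimensional k (V j) := hS.fin
  obtain ⟨f, hfV, hf0⟩ := Submodule.exists_mem_ne_zero_of_ne_bot hVm
  have hfL : ∀ v ∈ V m, v / f ∈ ratioField k (V m : Set K) := fun v hv =>
    IntermediateField.subset_adjoin _ _ ⟨v, hv, f, hfV, rfl⟩
  obtain ⟨d', e, hde, hd', he, -⟩ := hTd.1 k K n hS.trd (ratioField k (V m : Set K))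
  have hdd : d' = d := by
    have h := hd'.symm.trans hd
    exact_mod_cast h
  subst hdd
  obtain ⟨D, hD1, hDlim⟩ := hFib k K n s₁ s₂ V χ hn hS (ratioField k (V m : Set K)) e he
  obtain ⟨hdeg, -⟩ := hVol k K n s₁ s₂ V χ hn hS
  have hs1 := hS.one₁
  have hBE : ∀ b : ℕ, 1 ≤ b →
      finrank (ratioField k (V m : Set K))
        ↥(Submodule.span (ratioField k (V m : Set K)) (V (s₁ * (m * b)) : Set K)) *
        finrank k ↥(V m ^ (s₁ * b)) ≤ finrank k (V (2 * s₁ * m * b)) := by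
    intro b hb
    have h1 := hGlue k K (ratioField k (V m : Set K)) (V (s₁ * (m * b))) (V m) f hf0 hfL (s₁ * b)
    refine h1.trans ?_
    have h2 : V (s₁ * (m * b)) * V m ^ (s₁ * b) ≤ V (2 * s₁ * m * b) := by
      have h3 := Abs_pow V hS.mul m (s₁ * b) (Nat.one_le_iff_ne_zero.mpr
        (Nat.mul_ne_zero (by omega) (by omega)))
      refine (mul_le_mul' le_rfl h3).trans ((hS.mul _ _).trans ?_)
      rw [show s₁ * (m * b) + s₁ * b * m = 2 * s₁ * m * b by ring]
    exact Submodule.finrank_mono h2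
  have hE : ∀ b : ℕ, 1 ≤ b →
      (finrank k (V m) - d') * cnt d' (s₁ * b - 1) ≤ finrank k ↥(V m ^ (s₁ * b)) := by
    intro b hb
    exact hInd k K (V m) hVm d' hd (s₁ * b) (Nat.one_le_iff_ne_zero.mpr
        (Nat.mul_ne_zero (by omega) (by omega)))
  have hBlim := Abs_lim (fun l => finrank (ratioField k (V m : Set K))
        ↥(Submodule.span (ratioField k (V m : Set K)) (V (s₁ * l) : Set K))) m e hm _ hDlim
  have hAlim : Tendsto (fun b : ℕ => ((finrank k (V (2 * s₁ * m * b)) : ℕ) : ℝ) / (b : ℝ) ^ n) atTop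
      (𝓝 ((((n.factorial * χ.coeff n : ℚ)) : ℝ) * (2 * (s₁ : ℝ) * m) ^ n / n.factorial)) := by
    have h1 : 1 ≤ 2 * s₁ * m := Nat.one_le_iff_ne_zero.mpr
      (Nat.mul_ne_zero (Nat.mul_ne_zero (by omega) (by omega)) (by omega))
    have h2 := hPol.2 χ n (2 * s₁ * m) h1 hdeg
    have h3 : (((n.factorial * χ.coeff n : ℚ)) : ℝ) * (2 * (s₁ : ℝ) * m) ^ n / n.factorial =
        (χ.coeff n : ℝ) * ((2 * s₁ * m : ℕ) : ℝ) ^ n := by
      have h4 : (n.factorial : ℝ) ≠ 0 := by exact_mod_cast n.factorial_ne_zero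
      push_cast
      field_simp
    rw [h3]
    obtain ⟨m₀, hm₀⟩ := hS.chi
    refine h2.congr' ?_
    filter_upwards [Filter.eventually_ge_atTop m₀] with b hb
    have h5 : m₀ ≤ 2 * s₁ * m * b := hb.trans (Nat.le_mul_of_pos_left b h1)
    rw [hm₀ _ h5]
    simp
  have hfinal := hLim n d' e s₁ m D (finrank k (V m))
    (((n.factorial * χ.coeff n : ℚ)) : ℝ)
    (fun b => finrank k (V (2 * s₁ * m * b)))
    (fun b => finrank (ratioField k (V m : Set K))
        ↥(Submodule.span (ratioField k (V m : Set K)) (V (s₁ * (m * b)) : Set K)))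
    (fun b => finrank k ↥(V m ^ (s₁ * b))) hde hs1 hm hD1 hBE hE hBlim hAlim
  exact_mod_cast hfinal

end Pool.Agent.Lib.MP_8bcb2e_ag.AC
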