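import Pool.Agent.Lib.MP_8bcb2e_ag.AC.Spec

/-!
# The systems `V s₁`, `V s₂` are generically finite (proof of `S_Big`)
-/

set_option autoImplicit false

namespace Pool.Agent.Lib.MP_8bcb2e_ag.AC

open Pool.Agent.Lib.MP_16285c_agN (Vd cnt)
open Filter Topology Module

private theorem Big_alg {k K : Type} [Field k] [Field K] [Algebra k K] {E F : IntermediateField k K}
    (h : E ≤ F) (hE : Algebra.IsAlgebraic E K) : Algebra.IsAlgebraic F K := by
  let _ : Algebra E F := (IntermediateField.inclusion h).toRingHom.toAlgebra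
  have : IsScalarTower E F K := IsScalarTower.of_algebraMap_eq (fun x => rfl)
  exact Algebra.IsAlgebraic.tower_top (K := E) F

private theorem Big_pow {k K : Type} [Field k] [Field K] [Algebra k K] {V : ℕ → Submodule k K}
    (hm : ∀ a b, V a * V b ≤ V (a + b)) (N : ℕ) : ∀ s : ℕ, 1 ≤ s → V N ^ s ≤ V (N * s) := by
  intro s hs
  induction s, hs using Nat.le_induction with
  | base => rw [pow_one, mul_one]
  | succ s hs ih =>
    rw [pow_succ, Nat.mul_succ]
    exact (mul_le_mul_left ih _).trans (hm _ _)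

private theorem Big_bot {k K : Type} [Field k] [Field K] [Algebra k K] {n : ℕ} (hn : 1 ≤ n)
    (ht : Algebra.trdeg k K = n) {W : Submodule k K}
    (hW : Algebra.IsAlgebraic (ratioField k (W : Set K)) K) : W ≠ ⊥ := by
  intro h0
  have h1 : ratioField k (W : Set K) ≤ ⊥ := by
    refine IntermediateField.adjoin_le_iff.2 ?_
    rintro c ⟨a, ha, b, hb, rfl⟩
    have ha' : a ∈ W := ha
    rw [h0, Submodule.mem_bot] at ha'
    rw [ha', zero_div]
    exact zero_mem _
  have h2 : Algebra.IsAlgebraic (⊥ : IntermediateField k K) K := Big_alg h1 hW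
  have h3 : Algebra.IsAlgebraic k K := Algebra.IsAlgebraic.trans k (⊥ : IntermediateField k K) K
  have h4 : Algebra.trdeg k K = 0 := trdeg_eq_zero_iff.2 h3
  rw [h4] at ht
  have h5 : (n : Cardinal) = ((0 : ℕ) : Cardinal) := by rw [← ht, Nat.cast_zero]
  have h6 : n = 0 := Nat.cast_injective h5
  omega

private theorem Big_one (hRat : S_Rat) {k K : Type} [Field k] [Field K] [Algebra k K] {N s : ℕ}
    {V : ℕ → Submodule k K} (hm : ∀ a b, V a * V b ≤ V (a + b)) (hN : 1 ≤ N) (hs : 1 ≤ s)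
    (hg : V (N * s) = V s ^ N) (h0 : V N ≠ ⊥)
    (hf : Algebra.IsAlgebraic (ratioField k (V N : Set K)) K) :
    V s ≠ ⊥ ∧ Algebra.IsAlgebraic (ratioField k (V s : Set K)) K := by
  have h1 : V N ^ s ≤ V s ^ N := hg ▸ Big_pow hm N s hs
  have h2 : V s ≠ ⊥ := by
    intro hb
    obtain ⟨v, hv, hv0⟩ := (Submodule.ne_bot_iff _).1 h0
    have h3 : v ^ s ∈ V s ^ N := h1 (Submodule.pow_mem_pow _ hv s)
    have h4 : (V s) ^ N = ⊥ := by
      rw [hb]
      exact Submodule.bot_pow (by omega)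
    rw [h4, Submodule.mem_bot] at h3
    exact hv0 (pow_eq_zero_iff (by omega) |>.1 h3)
  refine ⟨h2, Big_alg ?_ hf⟩
  rw [← hRat.1 k K (V N) h0 s hs, ← hRat.1 k K (V s) h2 N hN]
  exact hRat.2.2.1 k K _ _ h1

theorem tBig (hRat : S_Rat) : S_Big := by
  intro k K _ _ _ n s₁ s₂ V χ hn hS
  obtain ⟨N, hN, hf⟩ := hS.big
  have hf' : Algebra.IsAlgebraic (ratioField k (V N : Set K)) K := hf
  have h0 : V N ≠ ⊥ := Big_bot hn hS.trd hf'
  obtain ⟨a1, a2⟩ := Big_one hRat hS.mul hN hS.one₁ (hS.gen₁ N hN) h0 hf'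
  obtain ⟨b1, b2⟩ := Big_one hRat hS.mul hN hS.one₂ (hS.gen₂ N hN) h0 hf'
  exact ⟨a1, b1, a2, b2⟩

end Pool.Agent.Lib.MP_8bcb2e_ag.AC
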