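import Pool.Agent.Lib.MP_8bcb2e_ag.AC.Spec

/-!
# Clr: a polynomial with polynomial coefficients, with a simple zero at a separable element
-/

set_option autoImplicit false

namespace Pool.Agent.Lib.MP_8bcb2e_ag.AC

open Pool.Agent.Lib.MP_16285c_agN (Vd cnt)
open Filter Topology Module

private theorem Clr_frac {k K : Type} [Field k] [Field K] [Algebra k K] {d : ℕ} (a : Fin d → K)
    (x : K) (hx : x ∈ IntermediateField.adjoin k (Set.range a)) :
    ∃ p q : MvPolynomial (Fin d) k, MvPolynomial.eval₂Hom (algebraMap k K) a q ≠ 0 ∧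
      MvPolynomial.eval₂Hom (algebraMap k K) a p = MvPolynomial.eval₂Hom (algebraMap k K) a q * x := by
  obtain ⟨r, s, h⟩ := (IntermediateField.mem_adjoin_range_iff k a x).1 hx
  have e : ∀ p : MvPolynomial (Fin d) k,
      MvPolynomial.eval₂Hom (algebraMap k K) a p = MvPolynomial.aeval a p := fun p => rfl
  by_cases hs : MvPolynomial.aeval a s = 0
  · refine ⟨0, 1, by simp, ?_⟩
    rw [h, hs, div_zero, mul_zero, map_zero]
  · refine ⟨r, s, ?_, ?_⟩
    · rw [e]; exact hs
    · rw [e, e, h]; field_simp

private theorem Clr_denom {k K : Type} [Field k] [Field K] [Algebra k K] {d : ℕ} (a : Fin d → K)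
    (c : ℕ → K) (hc : ∀ j, c j ∈ IntermediateField.adjoin k (Set.range a)) (n : ℕ) :
    ∃ (q : MvPolynomial (Fin d) k) (p : ℕ → MvPolynomial (Fin d) k),
      MvPolynomial.eval₂Hom (algebraMap k K) a q ≠ 0 ∧
      ∀ j < n, MvPolynomial.eval₂Hom (algebraMap k K) a (p j) =
        MvPolynomial.eval₂Hom (algebraMap k K) a q * c j := by
  induction n with
  | zero => exact ⟨1, fun _ => 0, by simp, by simp⟩
  | succ n ih =>
    obtain ⟨q, p, h1, h2⟩ := ih
    obtain ⟨r, s, h3, h4⟩ := Clr_frac a (c n) (hc n)
    refine ⟨q * s, fun j => if j = n then q * r else p j * s, ?_, fun j hj => ?_⟩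
    · rw [map_mul]; exact mul_ne_zero h1 h3
    · by_cases hjn : j = n
      · subst hjn
        simp only [if_true]
        rw [map_mul, map_mul, h4]; ring
      · simp only [if_neg hjn]
        rw [map_mul, map_mul, h2 j (by omega)]; ring

theorem tClr : S_Clr := by
  intro k K _ _ _ d a z hz
  set E := IntermediateField.adjoin k (Set.range a) with hE
  set ψ := MvPolynomial.eval₂Hom (algebraMap k K) a with hψ
  set μ := minpoly E z with hμ
  have hsep : μ.Separable := hz
  obtain ⟨q, p, hq, hp⟩ := Clr_denom a (fun j => ((μ.coeff j : E) : K)) (fun j => (μ.coeff j).2)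
    (μ.natDegree + 1)
  refine ⟨∑ j ∈ Finset.range (μ.natDegree + 1), Polynomial.monomial j (p j), ?_⟩
  set G : Polynomial (MvPolynomial (Fin d) k) :=
    ∑ j ∈ Finset.range (μ.natDegree + 1), Polynomial.monomial j (p j) with hG
  have hmap : G.map ψ = Polynomial.C (ψ q) * μ.map (algebraMap E K) := by
    ext j
    rw [Polynomial.coeff_map, Polynomial.coeff_C_mul, Polynomial.coeff_map, hG,
      Polynomial.finsetSum_coeff]
    simp only [Polynomial.coeff_monomial]
    rw [Finset.sum_ite_eq']
    by_cases hj : j < μ.natDegree + 1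
    · rw [if_pos (Finset.mem_range.2 hj), hp j hj]
      rfl
    · rw [if_neg (fun h => hj (Finset.mem_range.1 h)), map_zero,
        Polynomial.coeff_eq_zero_of_natDegree_lt (by omega), map_zero, mul_zero]
  have hμz : Polynomial.aeval z μ = 0 := minpoly.aeval E z
  constructor
  · rw [Polynomial.eval₂_eq_eval_map, hmap, Polynomial.eval_mul, Polynomial.eval_C,
      Polynomial.eval_map_algebraMap, hμz, mul_zero]
  · rw [Polynomial.eval₂_eq_eval_map, ← Polynomial.derivative_map, hmap,
      Polynomial.derivative_C_mul, Polynomial.eval_mul, Polynomial.eval_C,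
      Polynomial.derivative_map, Polynomial.eval_map_algebraMap]
    exact mul_ne_zero hq (hsep.aeval_derivative_ne_zero hμz)

end Pool.Agent.Lib.MP_8bcb2e_ag.AC
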