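import Pool.Agent.Lib.MP_8bcb2e_ag.AC.Spec

/-!
# Counting monomials: `cnt s a` is a binomial coefficient, and its growth
-/

set_option autoImplicit false

namespace Pool.Agent.Lib.MP_8bcb2e_ag.AC

open Pool.Agent.Lib.MP_16285c_agN (Vd cnt)
open Filter Topology Module

private theorem Cnt_fin (s a : ℕ) : Finite {b : Fin s → ℕ // ∑ i, b i ≤ a} := by
  have h : ∀ (b : {b : Fin s → ℕ // ∑ i, b i ≤ a}) (i : Fin s), b.1 i < a + 1 := by
    intro b i
    have h1 : b.1 i ≤ ∑ j, b.1 j := Finset.single_le_sum (f := b.1) (fun _ _ => Nat.zero_le _)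
      (Finset.mem_univ i)
    have h2 := b.2
    omega
  refine Finite.of_injective
    (fun b : {b : Fin s → ℕ // ∑ i, b i ≤ a} => fun i : Fin s => (⟨b.1 i, h b i⟩ : Fin (a + 1)))
    fun b c hbc => ?_
  apply Subtype.ext
  funext i
  have := congrFun hbc i
  simpa using this

private def Cnt_equiv (s a : ℕ) : {b : Fin (s + 1) → ℕ // ∑ i, b i ≤ a} ≃
    (j : Fin (a + 1)) × {b : Fin s → ℕ // ∑ i, b i ≤ a - (j : ℕ)} where
  toFun b := ⟨⟨b.1 0, by
    have h := b.2
    rw [Fin.sum_univ_succ] at h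
    omega⟩, ⟨fun i => b.1 i.succ, by
    have h := b.2
    rw [Fin.sum_univ_succ] at h
    show ∑ i : Fin s, b.1 i.succ ≤ a - b.1 0
    omega⟩⟩
  invFun x := ⟨Fin.cons (x.1 : ℕ) x.2.1, by
    rw [Fin.sum_univ_succ]
    have h := x.2.2
    have h1 := x.1.2
    simp only [Fin.cons_zero, Fin.cons_succ]
    omega⟩
  left_inv b := by
    apply Subtype.ext
    funext i
    refine Fin.cases ?_ (fun j => ?_) i
    · rfl
    · rfl
  right_inv x := by
    refine Sigma.subtype_ext ?_ ?_
    · apply Fin.ext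
      rfl
    · rfl

private theorem Cnt_succ (s a : ℕ) : cnt (s + 1) a = ∑ j ∈ Finset.range (a + 1), cnt s j := by
  have h1 : cnt (s + 1) a = ∑ j : Fin (a + 1), cnt s (a - (j : ℕ)) := by
    have : ∀ j : Fin (a + 1), Finite {b : Fin s → ℕ // ∑ i, b i ≤ a - (j : ℕ)} :=
      fun j => Cnt_fin s _
    unfold cnt
    rw [Nat.card_congr (Cnt_equiv s a), Nat.card_sigma]
  rw [h1, Fin.sum_univ_eq_sum_range (fun j => cnt s (a - j)) (a + 1)]
  have h2 := Finset.sum_range_reflect (fun j => cnt s j) (a + 1)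
  rw [← h2]
  refine Finset.sum_congr rfl fun j _ => ?_
  congr 1

private theorem Cnt_choose (s a : ℕ) : cnt s a = (a + s).choose s := by
  induction s generalizing a with
  | zero =>
    have h1 : cnt 0 a = 1 := by
      unfold cnt
      let _ : Unique {b : Fin 0 → ℕ // ∑ i, b i ≤ a} :=
        { default := ⟨fun i => i.elim0, by simp⟩
          uniq := fun b => Subtype.ext (funext fun i => i.elim0) }
      exact Nat.card_unique
    rw [h1, Nat.choose_zero_right]
  | succ s ih =>
    rw [Cnt_succ, Finset.sum_congr rfl fun j _ => ih j, Nat.sum_range_add_choose]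
    rfl

private theorem Cnt_gen (s r : ℕ) (d : ℝ) (u : ℕ → ℕ)
    (hu : ∀ᶠ l : ℕ in atTop, (u l : ℝ) = r * l + d) :
    Tendsto (fun l : ℕ => (cnt s (u l) : ℝ) / (l : ℝ) ^ s) atTop
      (𝓝 ((r : ℝ) ^ s / s.factorial)) := by
  have hval : ∀ a : ℕ, (cnt s a : ℝ) =
      (∏ i ∈ Finset.range s, ((a : ℝ) + 1 + i)) / s.factorial := by
    intro a
    have hs : (s.factorial : ℝ) ≠ 0 := by exact_mod_cast s.factorial_ne_zero
    rw [Cnt_choose, eq_div_iff hs]
    have h := Nat.ascFactorial_eq_factorial_mul_choose a s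
    rw [Nat.ascFactorial_eq_prod_range] at h
    have h2 : ((∏ i ∈ Finset.range s, (a + 1 + i) : ℕ) : ℝ) =
        ((s.factorial * (a + s).choose s : ℕ) : ℝ) := by rw [h]
    push_cast at h2
    rw [h2]
    ring
  have hfac : ∀ i ∈ Finset.range s,
      Tendsto (fun l : ℕ => ((u l : ℝ) + 1 + i) / l) atTop (𝓝 (r : ℝ)) := by
    intro i _
    have h1 : Tendsto (fun l : ℕ => (r : ℝ) + (d + 1 + i) / (l : ℝ)) atTop (𝓝 ((r : ℝ) + 0)) :=
      tendsto_const_nhds.add (tendsto_const_div_atTop_nhds_zero_nat _)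
    rw [add_zero] at h1
    refine h1.congr' ?_
    filter_upwards [hu, eventually_ge_atTop 1] with l hl hl1
    have hl0 : (l : ℝ) ≠ 0 := by
      have : l ≠ 0 := by omega
      exact_mod_cast this
    rw [hl]
    field_simp
    ring
  have hprod := (tendsto_finsetProd (Finset.range s) hfac).div_const (s.factorial : ℝ)
  rw [Finset.prod_const, Finset.card_range] at hprod
  refine hprod.congr fun l => ?_
  rw [Finset.prod_div_distrib, Finset.prod_const, Finset.card_range, hval, div_right_comm]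

/-- (Cnt) -/
theorem tCnt : S_Cnt := by
  refine ⟨Cnt_choose, fun s r c hr => ⟨?_, ?_⟩⟩
  · refine Cnt_gen s r (c : ℝ) _ (Eventually.of_forall fun l => ?_)
    push_cast
    ring
  · refine Cnt_gen s r (-(c : ℝ)) _ ?_
    filter_upwards [eventually_ge_atTop c] with l hl
    have h : c ≤ r * l := hl.trans (Nat.le_mul_of_pos_left l hr)
    rw [Nat.cast_sub h]
    push_cast
    ring

end Pool.Agent.Lib.MP_8bcb2e_ag.AC
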