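import Pool.Agent.Lib.MP_8bcb2e_ag.AC.Spec

/-!
# The `n`-th difference of a polynomial of degree at most `n` (task Diff)
-/

set_option autoImplicit false

namespace Pool.Agent.Lib.MP_8bcb2e_ag.AC

open Pool.Agent.Lib.MP_16285c_agN (Vd cnt)
open Filter Topology Module

private theorem Diff_sum (q : Polynomial ℚ) (n t : ℕ) (hq : q.natDegree ≤ n) :
    ∑ k ∈ Finset.range (n + 1), (((-1 : ℤ) ^ (n - k) * (n.choose k : ℤ) : ℤ) : ℚ) *
      q.eval ((t * (k + 1) : ℕ) : ℚ) = (n.factorial * q.coeff n) * (t : ℚ) ^ n := by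
  set P : Polynomial ℚ := q.comp (Polynomial.C (t : ℚ) * Polynomial.X) with hP
  have hPc : P.coeff n = q.coeff n * (t : ℚ) ^ n := by
    rw [hP, Polynomial.comp_C_mul_X_coeff]
  have hPd : P.natDegree ≤ n := by
    refine (Polynomial.natDegree_comp_le).trans ?_
    calc q.natDegree * (Polynomial.C (t : ℚ) * Polynomial.X).natDegree
        ≤ q.natDegree * 1 := Nat.mul_le_mul_left _
          ((Polynomial.natDegree_C_mul_le _ _).trans Polynomial.natDegree_X_le)
      _ ≤ n := by simpa using hq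
  have hE : ∀ k : ℕ, P.eval ((1 : ℚ) + k • (1 : ℚ)) = q.eval ((t * (k + 1) : ℕ) : ℚ) := by
    intro k
    rw [hP, Polynomial.eval_comp]
    congr 1
    rw [Polynomial.eval_mul, Polynomial.eval_C, Polynomial.eval_X, nsmul_eq_mul]
    push_cast
    ring
  have hS : (fwdDiff (1 : ℚ))^[n] P.eval 1 = (n.factorial * q.coeff n) * (t : ℚ) ^ n := by
    rcases lt_or_eq_of_le hPd with h | h
    · rw [Polynomial.fwdDiff_iter_eq_zero_of_degree_lt h]
      have h0 : P.coeff n = 0 := Polynomial.coeff_eq_zero_of_natDegree_lt h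
      rw [hPc] at h0
      rw [mul_assoc, h0]
      simp
    · have h1 := Polynomial.fwdDiff_iter_degree_eq_factorial P
      have h2 : P.leadingCoeff = q.coeff n * (t : ℚ) ^ n := by
        rw [Polynomial.leadingCoeff, h, hPc]
      rw [h, h2] at h1
      rw [h1]
      simp only [Pi.smul_apply, smul_eq_mul]
      simp
      ring
  rw [← hS, fwdDiff_iter_eq_sum_shift]
  refine Finset.sum_congr rfl fun k _ => ?_
  rw [hE k, zsmul_eq_mul]

theorem tDiff : S_Diff := by
  intro q n t hq
  by_contra hcon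
  push Not at hcon
  set V : ℚ := (n.factorial * q.coeff n) * (t : ℚ) ^ n with hV
  have hsum := Diff_sum q n t hq
  have h1 : V ≤ ∑ k ∈ Finset.range (n + 1), (n.choose k : ℚ) *
      |q.eval ((t * (k + 1) : ℕ) : ℚ)| := by
    calc V ≤ |V| := le_abs_self _
      _ = |∑ k ∈ Finset.range (n + 1), (((-1 : ℤ) ^ (n - k) * (n.choose k : ℤ) : ℤ) : ℚ) *
            q.eval ((t * (k + 1) : ℕ) : ℚ)| := by rw [hsum]
      _ ≤ ∑ k ∈ Finset.range (n + 1), |(((-1 : ℤ) ^ (n - k) * (n.choose k : ℤ) : ℤ) : ℚ) *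
            q.eval ((t * (k + 1) : ℕ) : ℚ)| := Finset.abs_sum_le_sum_abs _ _
      _ = _ := by
        refine Finset.sum_congr rfl fun k _ => ?_
        rw [abs_mul]
        congr 1
        push_cast
        rw [abs_mul, abs_pow, abs_neg, abs_one, one_pow, one_mul, Nat.abs_cast]
  have h2 : (2 : ℚ) ^ n * V < (2 : ℚ) ^ n * V := by
    calc (2 : ℚ) ^ n * V ≤ (2 : ℚ) ^ n * ∑ k ∈ Finset.range (n + 1), (n.choose k : ℚ) *
          |q.eval ((t * (k + 1) : ℕ) : ℚ)| := by gcongr
      _ = ∑ k ∈ Finset.range (n + 1), (n.choose k : ℚ) *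
          ((2 : ℚ) ^ n * |q.eval ((t * (k + 1) : ℕ) : ℚ)|) := by
        rw [Finset.mul_sum]
        refine Finset.sum_congr rfl fun k _ => ?_
        ring
      _ < ∑ k ∈ Finset.range (n + 1), (n.choose k : ℚ) * V := by
        refine Finset.sum_lt_sum_of_nonempty ⟨0, by simp⟩ fun k hk => ?_
        have hk' : k ≤ n := by
          have := Finset.mem_range.1 hk
          omega
        have hc : (0 : ℚ) < (n.choose k : ℚ) := by
          exact_mod_cast Nat.choose_pos hk'
        exact mul_lt_mul_of_pos_left (hcon k hk') hc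
      _ = (2 : ℚ) ^ n * V := by
        rw [← Finset.sum_mul]
        congr 1
        have := Nat.sum_range_choose n
        exact_mod_cast this
  exact lt_irrefl _ h2

end Pool.Agent.Lib.MP_8bcb2e_ag.AC
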