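import Pool.Agent.Lib.MP_8bcb2e_ag.AC.Spec
import Pool.Agent.Lib.MP_16285c_agN.Degr.Vd

/-!
# The projection from a smooth point: dimensions of the powers

Proof of `S_Dim`.
-/

set_option autoImplicit false

namespace Pool.Agent.Lib.MP_8bcb2e_ag.AC

open Pool.Agent.Lib.MP_16285c_agN (Vd cnt)
open Filter Topology Module

/-- The powers of a subspace that contains `1` increase. -/
private theorem Dim_mono {k A : Type} [Field k] [CommRing A] [Algebra k A] {W : Submodule k A}
    (h1 : (1 : A) ∈ W) {i j : ℕ} (h : i ≤ j) : W ^ i ≤ W ^ j := by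
  induction j, h using Nat.le_induction with
  | base => exact le_rfl
  | succ j _ ih =>
    refine ih.trans fun x hx => ?_
    rw [pow_succ, ← mul_one x]
    exact Submodule.mul_mem_mul hx h1

/-- Monomials of degree at most `m` in elements of `W` are in `W ^ m`. -/
private theorem Dim_mon {k A : Type} [Field k] [CommRing A] [Algebra k A] {W : Submodule k A}
    (h1 : (1 : A) ∈ W) {d : ℕ} (u : Fin d → A) (hu : ∀ i, u i ∈ W) (b : Fin d → ℕ) {m : ℕ}
    (hb : ∑ i, b i ≤ m) : ∏ i, u i ^ b i ∈ W ^ m := by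
  classical
  have h : ∀ s : Finset (Fin d), ∏ i ∈ s, u i ^ b i ∈ W ^ (∑ i ∈ s, b i) := by
    intro s
    induction s using Finset.induction_on with
    | empty =>
      simp only [Finset.prod_empty, Finset.sum_empty, pow_zero]
      exact Submodule.mem_one.2 ⟨1, map_one _⟩
    | insert i s hi ih =>
      rw [Finset.prod_insert hi, Finset.sum_insert hi, pow_add]
      exact Submodule.mul_mem_mul (Submodule.pow_mem_pow W (hu i) (b i)) ih
  exact Dim_mono h1 hb (h Finset.univ)

/-- Rank and nullity. -/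
private theorem Dim_rank {k A B : Type} [Field k] [AddCommGroup A] [Module k A] [AddCommGroup B]
    [Module k B] (f : A →ₗ[k] B) (P Q : Submodule k A) [FiniteDimensional k Q] (hPQ : P ≤ Q)
    (hP : P ≤ LinearMap.ker f) : finrank k P + finrank k (Q.map f) ≤ finrank k Q := by
  have h := LinearMap.finrank_range_add_finrank_ker (f.domRestrict Q)
  have hr : LinearMap.range (f.domRestrict Q) = Q.map f := by
    rw [LinearMap.range_domRestrict]
  have hk : finrank k P ≤ finrank k (LinearMap.ker (f.domRestrict Q)) := by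
    rw [← (Submodule.comapSubtypeEquivOfLe hPQ).finrank_eq]
    refine Submodule.finrank_mono fun x hx => ?_
    rw [LinearMap.mem_ker, LinearMap.domRestrict_apply]
    exact LinearMap.mem_ker.1 (hP hx)
  rw [hr] at h
  omega

/-- The powers of the functions vanishing at the point go to the powers of the ideal. -/
private theorem Dim_ideal {k A B : Type} [Field k] [CommRing A] [Algebra k A] [CommRing B] [Algebra k B]
    (P : Submodule k A) (ψ : A →ₐ[k] B) (I : Ideal B) (hP : ∀ r ∈ P, ψ r ∈ I) :
    ∀ j : ℕ, ∀ x ∈ P ^ j, ψ x ∈ I ^ j := by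
  intro j
  induction j with
  | zero => intro x _; simp
  | succ j ih =>
    intro x hx
    rw [pow_succ] at hx
    refine Submodule.mul_induction_on hx ?_ ?_
    · intro m hm n hn
      rw [map_mul, pow_succ]
      exact Ideal.mul_mem_mul (ih m hm) (hP n hn)
    · intro x y hx hy
      rw [map_add]
      exact Ideal.add_mem _ hx hy

/-- The claim for subspaces of an algebra. -/
private theorem Dim_core {k A : Type} [Field k] [CommRing A] [Algebra k A] (W : Submodule k A)
    [FiniteDimensional k W] (d : ℕ) (a : Fin d → A) (h1 : (1 : A) ∈ W) (ha : ∀ i, a i ∈ W)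
    (χ : A →ₐ[k] k) (l : ℕ) (hl : 1 ≤ l)
    (ψ : A →ₐ[k] (MvPolynomial (Fin d) k ⧸ (MvPolynomial.idealOfVars (Fin d) k) ^ l))
    (hψ : ∀ i, ψ (a i) = algebraMap k _ (χ (a i)) + Ideal.Quotient.mk _ (MvPolynomial.X i))
    (hχ : ∀ r, χ r = 0 → ψ r ∈ (MvPolynomial.idealOfVars (Fin d) k).map
      (Ideal.Quotient.mk ((MvPolynomial.idealOfVars (Fin d) k) ^ l))) :
    finrank k ↥((W ⊓ LinearMap.ker χ.toLinearMap) ^ l) + cnt d (l - 1) ≤ finrank k ↥(W ^ l) := by
  classical
  have hfg : (W ^ l).FG := (Module.Finite.iff_fg.1 inferInstance : W.FG).pow l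
  have : FiniteDimensional k ↥(W ^ l) := Module.Finite.iff_fg.2 hfg
  have hPQ : (W ⊓ LinearMap.ker χ.toLinearMap) ^ l ≤ W ^ l := pow_le_pow_left' inf_le_left l
  have hker : (W ⊓ LinearMap.ker χ.toLinearMap) ^ l ≤ LinearMap.ker ψ.toLinearMap := by
    intro x hx
    have h2 := Dim_ideal (W ⊓ LinearMap.ker χ.toLinearMap) ψ _ (fun r hr => hχ r hr.2) l x hx
    rw [← Ideal.map_pow, Ideal.map_quotient_self] at h2
    exact h2
  have hfin := Dim_rank ψ.toLinearMap _ _ hPQ hker
  refine le_trans (Nat.add_le_add_left ?_ _) hfin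
  -- the polynomials of degree `≤ l - 1`
  let q : MvPolynomial (Fin d) k →ₗ[k]
      (MvPolynomial (Fin d) k ⧸ (MvPolynomial.idealOfVars (Fin d) k) ^ l) :=
    (Ideal.Quotient.mkₐ k ((MvPolynomial.idealOfVars (Fin d) k) ^ l)).toLinearMap
  have hT : (MvPolynomial.restrictTotalDegree (Fin d) k (l - 1)).map q ≤
      (W ^ l).map ψ.toLinearMap := by
    rw [Submodule.map_le_iff_le_comap]
    intro p hp
    rw [MvPolynomial.mem_restrictTotalDegree] at hp
    rw [Submodule.mem_comap, p.as_sum, map_sum]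
    refine Submodule.sum_mem _ fun b hb => ?_
    have hbd : ∑ i, b i ≤ l := by
      have h3 := MvPolynomial.le_totalDegree hb
      rw [Finsupp.sum_fintype _ _ (fun _ => rfl)] at h3
      omega
    refine ⟨MvPolynomial.coeff b p • ∏ i, (a i - algebraMap k A (χ (a i))) ^ b i,
      Submodule.smul_mem _ _ (Dim_mon h1 _ (fun i => ?_) b hbd), ?_⟩
    · refine Submodule.sub_mem _ (ha i) ?_
      rw [Algebra.algebraMap_eq_smul_one]
      exact Submodule.smul_mem _ _ h1
    · have h4 : ∀ i, ψ (a i - algebraMap k A (χ (a i))) = Ideal.Quotient.mk _ (MvPolynomial.X i) := by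
        intro i
        rw [map_sub, hψ i, AlgHom.commutes]
        ring
      rw [AlgHom.toLinearMap_apply, map_smul, map_prod]
      simp only [map_pow, h4]
      rw [MvPolynomial.monomial_eq, Finsupp.prod_fintype _ _ (fun _ => pow_zero _)]
      change _ = (Ideal.Quotient.mkₐ k ((MvPolynomial.idealOfVars (Fin d) k) ^ l)) _
      rw [← MvPolynomial.smul_eq_C_mul, map_smul, map_prod]
      simp only [map_pow]
      rfl
  have hinj : Set.InjOn q (MvPolynomial.restrictTotalDegree (Fin d) k (l - 1) : Set (MvPolynomial (Fin d) k)) := by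
    intro p hp p' hp' hpp
    have h5 : p - p' ∈ (MvPolynomial.idealOfVars (Fin d) k) ^ l := by
      rw [← Ideal.Quotient.eq]
      exact hpp
    have h6 : p - p' ∈ MvPolynomial.restrictTotalDegree (Fin d) k (l - 1) := Submodule.sub_mem _ hp hp'
    rw [MvPolynomial.mem_restrictTotalDegree] at h6
    rw [MvPolynomial.mem_pow_idealOfVars_iff] at h5
    rw [← sub_eq_zero]
    by_contra hne
    obtain ⟨b, hb⟩ := MvPolynomial.support_nonempty.2 hne
    have h7 := h5 b hb
    have h8 := MvPolynomial.le_totalDegree hb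
    rw [Finsupp.degree_eq_sum] at h7
    rw [Finsupp.sum_fintype _ _ (fun _ => rfl)] at h8
    omega
  have : FiniteDimensional k ↥((W ^ l).map ψ.toLinearMap) := inferInstance
  have h9 : finrank k ↥((MvPolynomial.restrictTotalDegree (Fin d) k (l - 1)).map q) = cnt d (l - 1) := by
    rw [← Pool.Agent.Lib.MP_16285c_agN.DegrVdM.finrank_rtd k d (l - 1)]
    have e : ↥(MvPolynomial.restrictTotalDegree (Fin d) k (l - 1)) ≃ₗ[k]
        ↥((MvPolynomial.restrictTotalDegree (Fin d) k (l - 1)).map q) :=
      LinearEquiv.ofBijective (q.submoduleMap _) ⟨fun x y hxy => Subtype.ext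
        (hinj x.2 y.2 (congrArg Subtype.val hxy)), q.submoduleMap_surjective _⟩
    exact e.finrank_eq.symm
  rw [← h9]
  exact Submodule.finrank_mono hT

/-- (Dim) Projection from a smooth point. -/
theorem tDim : S_Dim := by
  intro k K _ _ _ R V _ d a hL h1 haV hVR χ l hl
  classical
  have hinj : Function.Injective R.val.toLinearMap := Subtype.val_injective
  set W : Submodule k R := V.comap R.val.toLinearMap with hW
  have hWV : W.map R.val.toLinearMap = V := by
    refine Submodule.map_comap_eq_of_le ?_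
    intro z hz
    exact ⟨⟨z, hVR z hz⟩, rfl⟩
  have : FiniteDimensional k ↥(W.map R.val.toLinearMap) := by rw [hWV]; infer_instance
  have : FiniteDimensional k W :=
    Module.Finite.equiv (Submodule.equivMapOfInjective R.val.toLinearMap hinj W).symm
  have hvan : vanish R χ V = (W ⊓ LinearMap.ker χ.toLinearMap).map R.val.toLinearMap := by
    rw [Submodule.map_inf _ hinj, hWV]
    rfl
  have hfr : ∀ P : Submodule k R, finrank k ↥((P.map R.val.toLinearMap) ^ l) = finrank k ↥(P ^ l) := by
    intro P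
    rw [← Submodule.map_pow]
    exact (Submodule.equivMapOfInjective R.val.toLinearMap hinj (P ^ l)).finrank_eq.symm
  rw [hvan, hfr]
  have hV : finrank k ↥(V ^ l) = finrank k ↥(W ^ l) := by
    rw [← hfr W, hWV]
  rw [hV]
  let J : Ideal (MvPolynomial (Fin d) k) := MvPolynomial.idealOfVars (Fin d) k
  let I : Ideal (MvPolynomial (Fin d) k ⧸ J ^ l) := J.map (Ideal.Quotient.mk (J ^ l))
  have hI : IsNilpotent I := ⟨l, by
    rw [← Ideal.map_pow, Ideal.map_quotient_self]
    rfl⟩
  obtain ⟨ψ, hψ1, hψ2⟩ := hL (MvPolynomial (Fin d) k ⧸ J ^ l) I hI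
    (fun i => algebraMap k _ (χ (a i)) + Ideal.Quotient.mk _ (MvPolynomial.X i))
    ((Algebra.ofId k ((MvPolynomial (Fin d) k ⧸ J ^ l) ⧸ I)).comp χ) (by
      intro i
      rw [map_add]
      have h2 : (Ideal.Quotient.mk I) (Ideal.Quotient.mk (J ^ l) (MvPolynomial.X i)) = 0 := by
        rw [Ideal.Quotient.eq_zero_iff_mem]
        exact Ideal.mem_map_of_mem _ (Ideal.subset_span ⟨i, rfl⟩)
      rw [h2, add_zero]
      rfl)
  refine Dim_core W d a h1 haV χ l hl ψ hψ1 ?_
  intro r hr
  have h3 := hψ2 r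
  rw [AlgHom.comp_apply, hr, map_zero, Ideal.Quotient.eq_zero_iff_mem] at h3
  exact h3

end Pool.Agent.Lib.MP_8bcb2e_ag.AC
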