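import Pool.Agent.Lib.MP_8bcb2e_ag.AC.Spec

/-!
# Growth of the spans over an intermediate field (proof of `S_Fib`)
-/

set_option autoImplicit false

namespace Pool.Agent.Lib.MP_8bcb2e_ag.AC

open Pool.Agent.Lib.MP_16285c_agN (Vd cnt)
open Filter Topology Module

private theorem Fib_pow {k K : Type} [Field k] [Field K] [Algebra k K] (L : IntermediateField k K)
    (U : Submodule k K) (l : ℕ) :
    Submodule.span L ((U ^ l : Submodule k K) : Set K) = Submodule.span L (U : Set K) ^ l := by
  induction l with
  | zero =>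
    rw [pow_zero, pow_zero, Submodule.one_eq_span, Submodule.span_span_of_tower,
      Submodule.one_eq_span]
  | succ l ih =>
    rw [pow_succ, pow_succ, ← ih, Submodule.span_mul_span, Submodule.mul_eq_span_mul_set,
      Submodule.span_span_of_tower]

private theorem Fib_fin {k K : Type} [Field k] [Field K] [Algebra k K] (L : IntermediateField k K)
    (U : Submodule k K) (h : FiniteDimensional k U) :
    FiniteDimensional L (Submodule.span L (U : Set K)) := by
  obtain ⟨S, hS⟩ := (Submodule.fg_iff_finiteDimensional U).2 h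
  rw [← hS, Submodule.span_span_of_tower]
  exact FiniteDimensional.span_finset L S

private theorem Fib_bot {k K : Type} [Field k] [Field K] [Algebra k K] (L : IntermediateField k K)
    (U : Submodule k K) (h : U ≠ ⊥) : Submodule.span L (U : Set K) ≠ ⊥ := by
  obtain ⟨v, hv, hv0⟩ := (Submodule.ne_bot_iff _).1 h
  exact (Submodule.ne_bot_iff _).2 ⟨v, Submodule.subset_span hv, hv0⟩

private theorem Fib_alg {k K : Type} [Field k] [Field K] [Algebra k K] (L : IntermediateField k K)
    (E : IntermediateField k K) (F : IntermediateField L K) (h : ∀ x ∈ E, x ∈ F)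
    (hE : Algebra.IsAlgebraic E K) : Algebra.IsAlgebraic F K := by
  let f : E →+* F :=
    { toFun := fun x => ⟨x, h x x.2⟩
      map_one' := rfl
      map_mul' := fun _ _ => rfl
      map_zero' := rfl
      map_add' := fun _ _ => rfl }
  let _ : Algebra E F := f.toAlgebra
  have : IsScalarTower E F K := IsScalarTower.of_algebraMap_eq (fun x => rfl)
  exact Algebra.IsAlgebraic.tower_top (K := E) F

private theorem Fib_ratio {k K : Type} [Field k] [Field K] [Algebra k K]
    (L : IntermediateField k K) (U : Submodule k K)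
    (hE : Algebra.IsAlgebraic (ratioField k (U : Set K)) K) :
    Algebra.IsAlgebraic (ratioField L (Submodule.span L (U : Set K) : Set K)) K := by
  refine Fib_alg L (ratioField k (U : Set K)) _ ?_ hE
  intro x hx
  have h1 : ratioField k (U : Set K) ≤
      (ratioField L (Submodule.span L (U : Set K) : Set K)).restrictScalars k := by
    refine IntermediateField.adjoin_le_iff.2 ?_
    rintro c ⟨a, ha, b, hb, rfl⟩
    exact IntermediateField.subset_adjoin L _
      ⟨a, Submodule.subset_span ha, b, Submodule.subset_span hb, rfl⟩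
  exact h1 hx

theorem tFib (hInt : S_Int) (hTd : S_Td) (hBig : S_Big) : S_Fib := by
  intro k K _ _ _ _ n s₁ s₂ V χ hn hS L e he
  obtain ⟨hV1, hV2, ha1, ha2⟩ := hBig k K n s₁ s₂ V χ hn hS
  have hf1 := Fib_fin L (V s₁) (hS.fin _)
  have hf2 := Fib_fin L (V s₂) (hS.fin _)
  have hinf : Infinite L := Infinite.of_injective (algebraMap k L) (algebraMap k L).injective
  have hpow : Submodule.span L (V s₁ : Set K) ^ s₂ = Submodule.span L (V s₂ : Set K) ^ s₁ := by
    rw [← Fib_pow, ← Fib_pow, ← hS.gen₁ s₂ hS.one₂, ← hS.gen₂ s₁ hS.one₁, mul_comm]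
  obtain ⟨D, hD, hlim⟩ := hInt L K (Submodule.span L (V s₁ : Set K))
    (Submodule.span L (V s₂ : Set K)) (Fib_bot L _ hV1) (Fib_bot L _ hV2) s₁ s₂ hS.one₁ hS.one₂
    hS.cop hpow e (hTd.2 L K e he _ (Fib_ratio L _ ha1))
  refine ⟨D, hD, hlim.congr' ?_⟩
  filter_upwards [eventually_ge_atTop 1] with l hl
  rw [← Fib_pow, ← hS.gen₁ l hl, mul_comm l s₁]

end Pool.Agent.Lib.MP_8bcb2e_ag.AC
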