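import Pool.Agent.Lib.MP_8bcb2e_ag.AC.Spec
import Pool.Agent.Lib.MP_8bcb2e_ag.SchemeMain

/-!
# The final theorem from the abstract theorems
-/

set_option autoImplicit false

universe u

namespace Pool.Agent.Lib.MP_8bcb2e_ag.AC

open KaehlerDifferential AlgebraicGeometry CategoryTheory Module

/-- The vector space `H⁰(X, mK_X)` of the `m`-canonical forms (the set `sections` is a subspace; the product
of elements of these spaces is the product of forms). -/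
noncomputable def H0 (k : Type u) {K : Type u} [Field k] [Field K] [Algebra k K] {n : ℕ}
    (Ψ : Ω[K⁄k] [⋀^Fin n]→ₗ[K] K) (𝒪 : Set (Subring K)) (m : ℕ) : Submodule k K :=
  Submodule.span k (sections k Ψ 𝒪 m)

section

variable {k K : Type u} [Field k] [Field K] [Algebra k K] {n : ℕ}
  {Ψ : Ω[K⁄k] [⋀^Fin n]→ₗ[K] K} {𝒪 : Set (Subring K)}

theorem coe_H0 (h𝒪 : IsSmoothModel k n 𝒪) (m : ℕ) : (H0 k Ψ 𝒪 m : Set K) = sections k Ψ 𝒪 m := by
  apply Set.Subset.antisymm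
  · intro F hF
    have hF' : F ∈ Submodule.span k (sections k Ψ 𝒪 m) := hF
    induction hF' using Submodule.span_induction with
    | mem x hx => exact hx
    | zero => exact sections_zero h𝒪 m
    | add x y hx hy h1 h2 => exact sections_add h𝒪 (h1 hx) (h2 hy)
    | smul a x hx h1 => rw [Algebra.smul_def]; exact sections_smul h𝒪 a (h1 hx)
  · exact Submodule.subset_span

theorem H0_mul (h𝒪 : IsSmoothModel k n 𝒪) (a b : ℕ) :
    H0 k Ψ 𝒪 a * H0 k Ψ 𝒪 b ≤ H0 k Ψ 𝒪 (a + b) := by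
  rw [Submodule.mul_le]
  intro F hF G hG
  have h1 : F ∈ sections k Ψ 𝒪 a := by rw [← coe_H0 h𝒪]; exact hF
  have h2 : G ∈ sections k Ψ 𝒪 b := by rw [← coe_H0 h𝒪]; exact hG
  exact Submodule.subset_span (sections_mul h𝒪 h1 h2)

theorem trdeg_eq (hC : SepExists.{u}) [PerfectField k] [Algebra.EssFiniteType k K]
    (h𝒪 : IsSmoothModel k n 𝒪) : Algebra.trdeg k K = n := by
  obtain ⟨x, hx⟩ := exists_diffBasis h𝒪
  obtain ⟨s, hs⟩ := exists_isTranscendenceBasis k K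
  rw [← card_transcendenceBasis hC hx hs]
  exact hs.cardinalMk_eq_trdeg.symm

theorem H0_fin (hC : SepExists.{u}) (hD1 : DerivBound.{u}) (hD2 : IntegralOfHeightOne.{u})
    (hD3 : InftyChart.{u}) (hD4 : TwoCharts.{u})
    [PerfectField k] [Algebra.EssFiniteType k K] (hn : 1 ≤ n) (hΨ : Ψ ≠ 0)
    (h𝒪 : IsSmoothModel k n 𝒪) (m : ℕ) : FiniteDimensional k (H0 k Ψ 𝒪 m) := by
  obtain ⟨W, hW, h⟩ := finDim hC hD1 hD2 hD3 hD4 hn Ψ hΨ h𝒪 m
  exact Submodule.finiteDimensional_of_le (Submodule.span_le.2 h)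

end

/-- **Main theorem** for smooth proper schemes, from the abstract theorems. -/
theorem main_AC (hOne : S_One) (hTwo : S_Two)
    (hPB : PBasis.{0}) (hTM : TraceMonomial.{0}) (hTop : TopMem.{0})
    (hC : SepExists.{0}) (hD1 : DerivBound.{0}) (hD2 : IntegralOfHeightOne.{0})
    (hD3 : InftyChart.{0}) (hD4 : TwoCharts.{0}) (hE : IntegralSections.{0}) (hF : WSection.{0})
    (hG : Spread.{0}) (hI : TraceExists.{0}) (hJ1 : SchemeCoord.{0}) (hJ2 : SchemeComplete.{0})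
    (hJ3 : SchemeFin.{0}) {k : Type} [Field k] [IsAlgClosed k] (p : ℕ) [Fact p.Prime] [CharP k p]
    {X : Scheme.{0}} [IsIntegral X] {n : ℕ} (hn : 1 ≤ n)
    (f : X ⟶ Spec (.of k)) [IsProper f] [SmoothOfRelativeDimension n f] :
    letI := functionFieldAlgebra f
    ∀ Ψ : Ω[X.functionField⁄k] [⋀^Fin n]→ₗ[X.functionField] X.functionField, Ψ ≠ 0 →
      ∃ T : X.functionField → X.functionField, IsFrobTrace k Ψ p T ∧
        (∀ T', IsFrobTrace k Ψ p T' → T' = T) ∧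
        ∀ (s₁ s₂ : ℕ) (χ : Polynomial ℚ), 1 ≤ s₁ → 1 ≤ s₂ → Nat.Coprime s₁ s₂ →
          (∀ l, 1 ≤ l → H0 k Ψ (localRings X) (l * s₁) = H0 k Ψ (localRings X) s₁ ^ l) →
          (∀ l, 1 ≤ l → H0 k Ψ (localRings X) (l * s₂) = H0 k Ψ (localRings X) s₂ ^ l) →
          (∃ N, 1 ≤ N ∧ GenericallyFinite k (sections k Ψ (localRings X) N)) →
          (∃ m₀ : ℕ, ∀ m : ℕ, m₀ ≤ m →
            χ.eval (m : ℚ) = finrank k (H0 k Ψ (localRings X) m)) →
          (∀ m : ℕ, 1 ≤ m →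
            n + 2 ^ n * (n.factorial * χ.coeff n) * (m : ℚ) ^ (n - 1) <
              (finrank k (H0 k Ψ (localRings X) m) : ℚ) →
            GenericallyFinite k (sections k Ψ (localRings X) m) ∧
              ∀ j : ℕ, n + 2 ≤ j → Birational k (S0 k Ψ p T (localRings X) (1 + j * m))) ∧
          ∀ C m₁ : ℕ, 1 ≤ C → 1 ≤ m₁ →
            (∀ m : ℕ, m₁ ≤ m →
              |χ.eval (m : ℚ)| ≤ C * finrank k (H0 k Ψ (localRings X) m)) →
            GenericallyFinite k (sections k Ψ (localRings X)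
              (4 ^ n * (n + 1) ^ n * (n + 1).factorial * C * m₁)) ∧
              ∀ j : ℕ, n + 2 ≤ j → Birational k (S0 k Ψ p T (localRings X)
                (1 + j * (4 ^ n * (n + 1) ^ n * (n + 1).factorial * C * m₁))) := by
  have hs : Smooth f := SmoothOfRelativeDimension.smooth n f
  letI := functionFieldAlgebra f
  have hess := (hJ3 k X f).1
  have h𝒪 := isSmoothModel_of_scheme hJ1 hJ2 hJ3 X n f
  intro Ψ hΨ
  obtain ⟨T, hT, huniq, hmain⟩ := main_scheme hPB hTM hTop hC hD1 hD2 hD3 hD4 hE hF hG hI hJ1 hJ2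
    hJ3 p hn f Ψ hΨ
  refine ⟨T, hT, huniq, ?_⟩
  intro s₁ s₂ χ h1 h2 hcop hg1 hg2 hbig hchi
  have hset : Setup n s₁ s₂ (H0 k Ψ (localRings X)) χ :=
    { trd := trdeg_eq hC h𝒪
      fin := H0_fin hC hD1 hD2 hD3 hD4 hn hΨ h𝒪
      mul := H0_mul h𝒪
      one₁ := h1
      one₂ := h2
      cop := hcop
      gen₁ := hg1
      gen₂ := hg2
      big := by
        obtain ⟨N, hN, hN'⟩ := hbig
        exact ⟨N, hN, by rw [coe_H0 h𝒪]; exact hN'⟩
      chi := hchi }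
  refine ⟨fun m hm hlt => ?_, fun C m₁ hC1 hm1 hle => ?_⟩
  · have hgf := hOne k X.functionField n s₁ s₂ _ χ hn hset m hm hlt
    rw [coe_H0 h𝒪] at hgf
    exact ⟨hgf, fun j hj => hmain m hgf j hj⟩
  · have hgf := hTwo k X.functionField n s₁ s₂ _ χ hn hset C m₁ hC1 hm1 hle
    rw [coe_H0 h𝒪] at hgf
    exact ⟨hgf, fun j hj => hmain _ hgf j hj⟩

end Pool.Agent.Lib.MP_8bcb2e_ag.AC
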