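import Pool.Agent.Lib.MP_8bcb2e_ag.AC.Spec

/-! # Project AC: the one-sided version

If `χ(m) ≤ C P_m` and `v m ^ n ≤ D χ(m)` for all `m ≥ m₁`, then `V M` is generically finite for
`M = max m₁ (C D (n + 2 ^ n) + 1)`: `P_M ≥ v M ^ n / (C D) > n + 2 ^ n v M ^ (n-1)`. -/

set_option autoImplicit false

namespace Pool.Agent.Lib.MP_8bcb2e_ag.AC

open Pool.Agent.Lib.MP_16285c_agN (Vd cnt)
open Filter Topology Module

/-- The one-sided version of `S_Two`. -/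
def S_OneS : Prop := ∀ (k K : Type) [Field k] [IsAlgClosed k] [Field K] [Algebra k K] (n s₁ s₂ : ℕ)
  (V : ℕ → Submodule k K) (χ : Polynomial ℚ), 1 ≤ n → Setup n s₁ s₂ V χ →
  ∀ C D m₁ : ℕ, 1 ≤ C → 1 ≤ D →
    (∀ m : ℕ, m₁ ≤ m → χ.eval (m : ℚ) ≤ C * finrank k (V m)) →
    (∀ m : ℕ, m₁ ≤ m → (n.factorial * χ.coeff n) * (m : ℚ) ^ n ≤ D * χ.eval (m : ℚ)) →
    GenericallyFinite k (V (max m₁ (C * D * (n + 2 ^ n) + 1)) : Set K)

theorem tOneS (hOne : S_One) (hVol : S_Vol) : S_OneS := by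
  intro k K _ _ _ _ n s₁ s₂ V χ hn hS C D m₁ hC hD h1 h2
  obtain ⟨-, w, hw, hv⟩ := hVol k K n s₁ s₂ V χ hn hS
  obtain ⟨M, hM⟩ : ∃ M : ℕ, M = max m₁ (C * D * (n + 2 ^ n) + 1) := ⟨_, rfl⟩
  rw [← hM]
  have hM1 : m₁ ≤ M := by rw [hM]; exact le_max_left _ _
  have hM2 : C * D * (n + 2 ^ n) + 1 ≤ M := by rw [hM]; exact le_max_right _ _
  refine hOne k K n s₁ s₂ V χ hn hS M (by omega) ?_
  have e1 := h1 M hM1
  have e2 := h2 M hM1
  rw [hv] at e2 ⊢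
  obtain ⟨P, hP⟩ : ∃ P : ℚ, P = (finrank k (V M) : ℚ) := ⟨_, rfl⟩
  rw [← hP] at e1 ⊢
  obtain ⟨t, ht⟩ : ∃ t : ℚ, t = (M : ℚ) ^ (n - 1) := ⟨_, rfl⟩
  have hw1 : (1 : ℚ) ≤ w := by exact_mod_cast hw
  have hC1 : (1 : ℚ) ≤ C := by exact_mod_cast hC
  have hD1 : (1 : ℚ) ≤ D := by exact_mod_cast hD
  have hMq : (C : ℚ) * D * (n + 2 ^ n) + 1 ≤ M := by exact_mod_cast hM2
  have hMpos : (1 : ℚ) ≤ M := by
    have : (0 : ℚ) ≤ (C : ℚ) * D * (n + 2 ^ n) := by positivity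
    linarith
  have ht1 : 1 ≤ t := by rw [ht]; exact one_le_pow₀ hMpos
  have hpow : (M : ℚ) ^ n = M * t := by
    rw [ht, ← pow_succ']
    congr 1
    omega
  rw [hpow] at e2
  rw [← ht]
  have e3 : (w : ℚ) * (M * t) ≤ (C * D) * P := by
    have : (D : ℚ) * χ.eval (M : ℚ) ≤ D * (C * P) := mul_le_mul_of_nonneg_left e1 (by linarith)
    linarith
  have hwt : (1 : ℚ) ≤ w * t := by nlinarith
  have e4 : (C : ℚ) * D * (n + 2 ^ n * w * t) ≤ (C * D * (n + 2 ^ n)) * (w * t) := by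
    have hn0 : (0 : ℚ) ≤ n := Nat.cast_nonneg n
    have : (n : ℚ) ≤ n * (w * t) := by nlinarith
    have hCD : (0 : ℚ) ≤ (C : ℚ) * D := by positivity
    calc (C : ℚ) * D * (n + 2 ^ n * w * t) ≤ C * D * (n * (w * t) + 2 ^ n * w * t) :=
          mul_le_mul_of_nonneg_left (by linarith) hCD
      _ = (C * D * (n + 2 ^ n)) * (w * t) := by ring
  have e5 : (C * D * (n + 2 ^ n)) * (w * t) < (w : ℚ) * (M * t) := by
    have : ((C : ℚ) * D * (n + 2 ^ n) + 1) * (w * t) ≤ M * (w * t) :=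
      mul_le_mul_of_nonneg_right hMq (by linarith)
    linarith
  have e6 : (C : ℚ) * D * (n + 2 ^ n * w * t) < (C * D) * P := by linarith
  have hCDpos : (0 : ℚ) < (C : ℚ) * D := by positivity
  exact lt_of_mul_lt_mul_left e6 hCDpos.le

end Pool.Agent.Lib.MP_8bcb2e_ag.AC
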