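import Mathlib

/-!
# Limits of values of a polynomial along a geometric progression
-/

set_option autoImplicit false

namespace Pool.Agent.Lib.MP_8bcb2e_ag.AC

open Filter Topology

/-- the value of a polynomial of degree at most `n` at `l e ∼ ρ p ^ e`, divided by `p ^ (n e)` -/
theorem tendsto_poly (χ : Polynomial ℚ) (n p : ℕ) (hp : 2 ≤ p) (hdeg : χ.natDegree ≤ n)
    (l : ℕ → ℕ) (ρ : ℝ) (h : Tendsto (fun e => (l e : ℝ) / (p : ℝ) ^ e) atTop (𝓝 ρ)) :
    Tendsto (fun e => ((χ.eval ((l e : ℕ) : ℚ) : ℚ) : ℝ) / ((p : ℝ) ^ e) ^ n) atTop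
      (𝓝 ((χ.coeff n : ℝ) * ρ ^ n)) := by
  have hp0 : (0 : ℝ) < p := by positivity
  have hinv : Tendsto (fun e : ℕ => ((p : ℝ) ^ e)⁻¹) atTop (𝓝 0) := by
    have h1 : Tendsto (fun e : ℕ => ((p : ℝ)⁻¹) ^ e) atTop (𝓝 0) := by
      apply tendsto_pow_atTop_nhds_zero_of_lt_one (by positivity)
      apply inv_lt_one_of_one_lt₀
      have : (2 : ℝ) ≤ p := by exact_mod_cast hp
      linarith
    simpa [inv_pow] using h1
  have hterm : ∀ i ∈ Finset.range (n + 1),
      Tendsto (fun e => (χ.coeff i : ℝ) * ((l e : ℝ) / (p : ℝ) ^ e) ^ i *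
        (((p : ℝ) ^ e)⁻¹) ^ (n - i)) atTop (𝓝 ((χ.coeff i : ℝ) * ρ ^ i * 0 ^ (n - i))) :=
    fun i _ => ((h.pow i).const_mul _).mul (hinv.pow (n - i))
  have hsum := tendsto_finsetSum _ hterm
  have hval : ∑ i ∈ Finset.range (n + 1), (χ.coeff i : ℝ) * ρ ^ i * 0 ^ (n - i) =
      (χ.coeff n : ℝ) * ρ ^ n := by
    rw [Finset.sum_eq_single n]
    · simp
    · intro i hi hin
      have : n - i ≠ 0 := by
        have := Finset.mem_range.1 hi
        omega
      rw [zero_pow this, mul_zero]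
    · intro hn
      exact absurd (Finset.mem_range.2 (Nat.lt_succ_self n)) hn
  rw [hval] at hsum
  refine hsum.congr fun e => ?_
  have hpe : (p : ℝ) ^ e ≠ 0 := by positivity
  rw [Polynomial.eval_eq_sum_range' (Nat.lt_succ_of_le hdeg)]
  push_cast
  rw [Finset.sum_div]
  refine Finset.sum_congr rfl fun i hi => ?_
  have hi' : i ≤ n := Nat.lt_succ_iff.1 (Finset.mem_range.1 hi)
  obtain ⟨j, rfl⟩ := Nat.exists_eq_add_of_le hi'
  rw [Nat.add_sub_cancel_left, pow_add ((p : ℝ) ^ e), div_pow, inv_pow]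
  field_simp

/-- the sequence `l e` with `r (l e) + a (1 + r D) = p ^ e d + c`, `a < r` -/
theorem tendsto_seq (p d c r D : ℕ) (hp : 2 ≤ p) (hd : 1 ≤ d) (hr : 1 ≤ r) (m₀ : ℕ) :
    ∃ l a : ℕ → ℕ, (∃ E, ∀ e, E ≤ e → m₀ ≤ l e ∧ r * l e + a e * (1 + r * D) = p ^ e * d + c) ∧
      Tendsto (fun e => (l e : ℝ) / (p : ℝ) ^ e) atTop (𝓝 ((d : ℝ) / r)) := by
  refine ⟨fun e => (p ^ e * d + c) / r - (p ^ e * d + c) % r * D,
    fun e => (p ^ e * d + c) % r, ⟨r * (m₀ + r * D), fun e he => ?_⟩, ?_⟩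
  · have hlt : (p ^ e * d + c) % r < r := Nat.mod_lt _ hr
    have hle : (p ^ e * d + c) % r * D ≤ r * D := Nat.mul_le_mul_right _ hlt.le
    have hpe : e < p ^ e := Nat.lt_pow_self (by omega)
    have hM : r * (m₀ + r * D) ≤ p ^ e * d + c := by
      have : p ^ e * 1 ≤ p ^ e * d := Nat.mul_le_mul_left _ hd
      omega
    have ht : m₀ + r * D ≤ (p ^ e * d + c) / r := by
      rw [Nat.le_div_iff_mul_le hr, mul_comm]
      exact hM
    have hdm := Nat.div_add_mod (p ^ e * d + c) r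
    change m₀ ≤ (p ^ e * d + c) / r - (p ^ e * d + c) % r * D ∧
      r * ((p ^ e * d + c) / r - (p ^ e * d + c) % r * D) + (p ^ e * d + c) % r * (1 + r * D) =
        p ^ e * d + c
    set t := (p ^ e * d + c) / r with ht'
    set a := (p ^ e * d + c) % r with ha'
    refine ⟨by omega, ?_⟩
    obtain ⟨s, hs⟩ := Nat.exists_eq_add_of_le (hle.trans (le_trans (Nat.le_add_left _ _) ht))
    rw [hs, Nat.add_sub_cancel_left]
    rw [hs] at hdm
    linarith [hdm, show r * (a * D + s) + a = r * s + a * (1 + r * D) by ring]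
  · -- the bound for the difference
    have hr0 : (0 : ℝ) < r := by positivity
    have hp0 : (0 : ℝ) < p := by positivity
    set B : ℝ := c + r + r * D + r with hB
    have hinv : Tendsto (fun e : ℕ => B * ((p : ℝ)⁻¹) ^ e) atTop (𝓝 0) := by
      have h1 : Tendsto (fun e : ℕ => ((p : ℝ)⁻¹) ^ e) atTop (𝓝 0) := by
        apply tendsto_pow_atTop_nhds_zero_of_lt_one (by positivity)
        apply inv_lt_one_of_one_lt₀
        have : (2 : ℝ) ≤ p := by exact_mod_cast hp
        linarith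
      simpa using h1.const_mul B
    rw [← tendsto_sub_nhds_zero_iff]
    refine squeeze_zero_norm' ?_ hinv
    filter_upwards [eventually_ge_atTop (r * (r * D))] with e he
    have hlt : (p ^ e * d + c) % r < r := Nat.mod_lt _ hr
    have hle : (p ^ e * d + c) % r * D ≤ r * D := Nat.mul_le_mul_right _ hlt.le
    have hpe : e < p ^ e := Nat.lt_pow_self (by omega)
    have hM : r * (r * D) ≤ p ^ e * d + c := by
      have : p ^ e * 1 ≤ p ^ e * d := Nat.mul_le_mul_left _ hd
      omega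
    have ht : r * D ≤ (p ^ e * d + c) / r := by
      rw [Nat.le_div_iff_mul_le hr, mul_comm]
      exact hM
    have hdm := Nat.div_add_mod (p ^ e * d + c) r
    set t := (p ^ e * d + c) / r with ht'
    set a := (p ^ e * d + c) % r with ha'
    have hsub : ((t - a * D : ℕ) : ℝ) = (t : ℝ) - a * D := by
      rw [Nat.cast_sub (hle.trans ht)]
      push_cast
      ring
    have hdm' : (r : ℝ) * t + a = (p : ℝ) ^ e * d + c := by exact_mod_cast hdm
    have hpe0 : (0 : ℝ) < (p : ℝ) ^ e := by positivity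
    rw [hsub, Real.norm_eq_abs]
    have h2 : ((t : ℝ) - a * D) / (p : ℝ) ^ e - (d : ℝ) / r =
        ((c : ℝ) - a - r * (a * D)) / r * ((p : ℝ)⁻¹) ^ e := by
      have h3 : (t : ℝ) = ((p : ℝ) ^ e * d + c - a) / r := by
        rw [eq_div_iff hr0.ne']
        linarith
      rw [h3, inv_pow]
      field_simp
      ring
    rw [h2, abs_mul, abs_of_nonneg (show (0 : ℝ) ≤ ((p : ℝ)⁻¹) ^ e by positivity)]
    refine mul_le_mul_of_nonneg_right ?_ (by positivity)
    have hr1 : (1 : ℝ) ≤ r := by exact_mod_cast hr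
    have ha1 : (a : ℝ) ≤ r := by exact_mod_cast hlt.le
    have haD : (a : ℝ) * D ≤ r * D := mul_le_mul_of_nonneg_right ha1 (by positivity)
    have ha0 : (0 : ℝ) ≤ a := by positivity
    have haD0 : (0 : ℝ) ≤ (a : ℝ) * D := by positivity
    have hc0 : (0 : ℝ) ≤ c := by positivity
    rw [abs_div, abs_of_pos hr0, div_le_iff₀ hr0, abs_le]
    constructor
    · have e1 : r * ((a : ℝ) * D) ≤ r * (r * D) := mul_le_mul_of_nonneg_left haD hr0.le
      have e2 : (0 : ℝ) ≤ (c + r + r) * r := by positivity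
      have e3 : (a : ℝ) ≤ r * r := ha1.trans (by nlinarith)
      have e4 : (0 : ℝ) ≤ c * r := by positivity
      have e5 : (0 : ℝ) ≤ r * r := by positivity
      rw [hB]
      nlinarith
    · have e1 : (0 : ℝ) ≤ r * ((a : ℝ) * D) := by positivity
      have e2 : (c : ℝ) ≤ c * r := by nlinarith
      have e3 : (0 : ℝ) ≤ (r + r * D + r) * r := by positivity
      rw [hB]
      nlinarith

end Pool.Agent.Lib.MP_8bcb2e_ag.AC
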