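import Pool.Agent.Lib.MP_8bcb2e_ag.AC.PlB
import Pool.Agent.Lib.MP_8bcb2e_ag.AC.PlL
import Pool.Agent.Lib.MP_8bcb2e_ag.PBasis
import Pool.Agent.Lib.MP_8bcb2e_ag.TraceMonomial
import Pool.Agent.Lib.MP_8bcb2e_ag.TopMem
import Pool.Agent.Lib.MP_8bcb2e_ag.SepExists
import Pool.Agent.Lib.MP_8bcb2e_ag.DerivBound
import Pool.Agent.Lib.MP_8bcb2e_ag.IntegralOfHeightOne
import Pool.Agent.Lib.MP_8bcb2e_ag.InftyChart
import Pool.Agent.Lib.MP_8bcb2e_ag.TwoCharts
import Pool.Agent.Lib.MP_8bcb2e_ag.IntegralSections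
import Pool.Agent.Lib.MP_8bcb2e_ag.WSection
import Pool.Agent.Lib.MP_8bcb2e_ag.Spread

/-!
# Effective lower bound for plurigenera from generic finiteness

If `|NK_X|` is generically finite and `c = 1 + n (1 + (n + 2) N)`, then
`n! (coefficient of x ^ n of χ) (m - c) ^ n ≤ n! r ^ n h⁰(mK_X)` for all `m ≥ c`, where `χ` is the
polynomial with `χ(l) = h⁰(r l K_X)` for all large `l`.
-/

set_option autoImplicit false

namespace Pool.Agent.Lib.MP_8bcb2e_ag.AC

open KaehlerDifferential Module Filter Topology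

/-- (Pl) The effective lower bound for the plurigenera. -/
def S_Pl : Prop := ∀ (k K : Type) [Field k] [Field K] [Algebra k K] [PerfectField k] (p : ℕ)
  [Fact p.Prime] [CharP k p] [Algebra.EssFiniteType k K] (n : ℕ) (Ψ : Ω[K⁄k] [⋀^Fin n]→ₗ[K] K)
  (𝒪 : Set (Subring K)) (T : K → K), 1 ≤ n → Ψ ≠ 0 → IsSmoothModel k n 𝒪 → IsFrobTrace k Ψ p T →
  ∀ N r : ℕ, 1 ≤ r → GenericallyFinite k (sections k Ψ 𝒪 N) → ∀ χ : Polynomial ℚ, χ.natDegree ≤ n →
    (∃ m₀ : ℕ, ∀ m : ℕ, m₀ ≤ m → χ.eval (m : ℚ) = finrank k (H0 k Ψ 𝒪 (r * m))) →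
    ∀ m : ℕ, 1 + n * (1 + (n + 2) * N) ≤ m →
      (n.factorial * χ.coeff n) * ((m : ℚ) - (1 + n * (1 + (n + 2) * N) : ℕ)) ^ n ≤
        n.factorial * r ^ n * (finrank k (H0 k Ψ 𝒪 m) : ℚ)

/-- a nonzero section of `qK_X` gives `h⁰(mK_X) ≤ h⁰((m + q)K_X)` -/
theorem finrank_mono {k K : Type} [Field k] [Field K] [Algebra k K] {n : ℕ}
    {Ψ : Ω[K⁄k] [⋀^Fin n]→ₗ[K] K} {𝒪 : Set (Subring K)} (h𝒪 : IsSmoothModel k n 𝒪)
    (hfin : ∀ m, FiniteDimensional k (H0 k Ψ 𝒪 m)) {m q : ℕ} {w : K} (hw0 : w ≠ 0)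
    (hw : w ∈ sections k Ψ 𝒪 q) :
    finrank k (H0 k Ψ 𝒪 m) ≤ finrank k (H0 k Ψ 𝒪 (m + q)) := by
  have := hfin (m + q)
  have hmem : ∀ F : H0 k Ψ 𝒪 m, (F : K) * w ∈ H0 k Ψ 𝒪 (m + q) := fun F =>
    H0_mul h𝒪 m q (Submodule.mul_mem_mul F.2 (Submodule.subset_span hw))
  let φ : H0 k Ψ 𝒪 m →ₗ[k] H0 k Ψ 𝒪 (m + q) :=
    { toFun := fun F => ⟨(F : K) * w, hmem F⟩
      map_add' := fun F G => by
        apply Subtype.ext
        change ((F : K) + (G : K)) * w = (F : K) * w + (G : K) * w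
        ring
      map_smul' := fun a F => by
        apply Subtype.ext
        change (a • (F : K)) * w = a • ((F : K) * w)
        rw [smul_mul_assoc] }
  refine LinearMap.finrank_le_finrank_of_injective (f := φ) fun F G hFG => ?_
  have h1 : (F : K) * w = (G : K) * w := congrArg Subtype.val hFG
  exact Subtype.ext (mul_right_cancel₀ hw0 h1)

theorem tPl : S_Pl := by
  intro k K _ _ _ _ p _ _ _ n Ψ 𝒪 T hn hΨ h𝒪 hT N r hr hgf χ hdeg hchi m hm
  have hp : p.Prime := Fact.out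
  have hmain : ∀ j : ℕ, n + 2 ≤ j → Birational k (sections k Ψ 𝒪 (1 + j * N)) := fun j hj =>
    birational_mono (S0_subset pBasis_of traceMonomial_of topMem_of h𝒪 hT (j * N))
      (main_model pBasis_of traceMonomial_of topMem_of sepExists_of derivBound_of
        integralOfHeightOne_of inftyChart_of twoCharts_of integralSections_of wSection_of spread_of
        hn hΨ h𝒪 hT hgf hj)
  have hfin : ∀ m, FiniteDimensional k (H0 k Ψ 𝒪 m) :=
    H0_fin sepExists_of derivBound_of integralOfHeightOne_of inftyChart_of twoCharts_of hn hΨ h𝒪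
  obtain ⟨y₀, y, hy0, hy₀, hy, hx⟩ :=
    exists_coord_of_birational sepExists_of hn h𝒪 (hmain (n + 2) le_rfl)
  -- a nonzero section whose degree is `1` modulo `r`
  obtain ⟨w, -, hw0, hw, -, -⟩ := exists_coord_of_birational sepExists_of hn h𝒪
    (hmain (r * (n + 2)) (Nat.le_mul_of_pos_left _ hr))
  set b := 1 + (n + 2) * N with hb
  set c := 1 + n * b with hc
  obtain ⟨d, rfl⟩ := Nat.exists_eq_add_of_le hm
  -- the iterated step
  have hstep : ∀ e : ℕ, finrank k (H0 k Ψ 𝒪 (p ^ e * d + c)) ≤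
      (p ^ e) ^ n * finrank k (H0 k Ψ 𝒪 (c + d)) := by
    intro e
    induction e with
    | zero =>
      have h1 : p ^ 0 * d + c = c + d := by ring
      rw [h1]
      simp
    | succ e ih =>
      have h1 := finrank_step pBasis_of traceMonomial_of topMem_of h𝒪 hΨ hT hfin hy0 hy₀ hy hx
        (m := p ^ e * d + c) (Nat.le_add_left _ _)
      have h2 : p * (p ^ e * d + c - (1 + n * b)) + (1 + n * b) = p ^ (e + 1) * d + c := by
        rw [← hc, Nat.add_sub_cancel, pow_succ]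
        ring
      rw [h2] at h1
      refine h1.trans ?_
      have h3 : (p ^ (e + 1)) ^ n * finrank k (H0 k Ψ 𝒪 (c + d)) =
          p ^ n * ((p ^ e) ^ n * finrank k (H0 k Ψ 𝒪 (c + d))) := by
        rw [pow_succ, mul_pow]
        ring
      rw [h3]
      exact Nat.mul_le_mul_left _ ih
  rcases Nat.eq_zero_or_pos d with rfl | hd
  · have h1 : ((c + 0 : ℕ) : ℚ) - (c : ℕ) = 0 := by push_cast; ring
    rw [h1, zero_pow (by omega : n ≠ 0), mul_zero]
    positivity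
  · obtain ⟨m₀, hm₀⟩ := hchi
    obtain ⟨l, a, ⟨E, hE⟩, hlim⟩ := tendsto_seq p d c r ((n + 2) * N) hp.two_le hd hr m₀
    have hpoly := tendsto_poly χ n p hp.two_le hdeg l _ hlim
    have hp0 : (0 : ℝ) < p := by exact_mod_cast hp.pos
    have hle : ((χ.coeff n : ℚ) : ℝ) * ((d : ℝ) / r) ^ n ≤
        (finrank k (H0 k Ψ 𝒪 (c + d)) : ℝ) := by
      refine le_of_tendsto hpoly ?_
      filter_upwards [eventually_ge_atTop E] with e he
      obtain ⟨h1, h2⟩ := hE e he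
      have hwa : w ^ a e ∈ sections k Ψ 𝒪 (a e * (1 + r * ((n + 2) * N))) := by
        have := sections_pow h𝒪 hw (a e)
        rwa [mul_assoc] at this
      have h3 := finrank_mono h𝒪 hfin (m := r * l e) (pow_ne_zero (a e) hw0) hwa
      rw [h2] at h3
      have h4 := h3.trans (hstep e)
      rw [hm₀ (l e) h1, div_le_iff₀ (by positivity)]
      have h5 : ((finrank k (H0 k Ψ 𝒪 (r * l e)) : ℕ) : ℝ) ≤
          (((p ^ e) ^ n * finrank k (H0 k Ψ 𝒪 (c + d)) : ℕ) : ℝ) := by exact_mod_cast h4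
      push_cast at h5 ⊢
      linarith
    have hr0 : (0 : ℝ) < r := by exact_mod_cast hr
    have hle' : ((χ.coeff n : ℚ) : ℝ) * (d : ℝ) ^ n ≤
        (r : ℝ) ^ n * (finrank k (H0 k Ψ 𝒪 (c + d)) : ℝ) := by
      have h1 := mul_le_mul_of_nonneg_left hle (show (0 : ℝ) ≤ (r : ℝ) ^ n by positivity)
      have h2 : (r : ℝ) ^ n * (((χ.coeff n : ℚ) : ℝ) * ((d : ℝ) / r) ^ n) =
          ((χ.coeff n : ℚ) : ℝ) * (d : ℝ) ^ n := by
        rw [div_pow]
        field_simp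
      rwa [h2] at h1
    have hQ : χ.coeff n * (d : ℚ) ^ n ≤ (r : ℚ) ^ n * (finrank k (H0 k Ψ 𝒪 (c + d)) : ℚ) := by
      exact_mod_cast hle'
    have h1 : ((c + d : ℕ) : ℚ) - (c : ℕ) = d := by push_cast; ring
    rw [h1]
    have hf : (0 : ℚ) ≤ n.factorial := by positivity
    have h2 := mul_le_mul_of_nonneg_left hQ hf
    calc (n.factorial * χ.coeff n) * (d : ℚ) ^ n
        = n.factorial * (χ.coeff n * (d : ℚ) ^ n) := by ring
      _ ≤ n.factorial * ((r : ℚ) ^ n * (finrank k (H0 k Ψ 𝒪 (c + d)) : ℚ)) := h2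
      _ = n.factorial * r ^ n * (finrank k (H0 k Ψ 𝒪 (c + d)) : ℚ) := by ring

end Pool.Agent.Lib.MP_8bcb2e_ag.AC
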