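import Pool.Agent.Lib.MP_8bcb2e_ag.AC.Spec

/-!
MP_8bcb2e_ag, part AC, module Thr (helper58): the explicit multiple, with a hypothesis on `n + 1` values only.
-/

set_option autoImplicit false

namespace Pool.Agent.Lib.MP_8bcb2e_ag.AC

open Module

/-- (Thr) Only the values at `t, 2 t, …, (n + 1) t` are used. -/
def S_Thr : Prop := ∀ (k K : Type) [Field k] [IsAlgClosed k] [Field K] [Algebra k K] (n s₁ s₂ : ℕ)
  (V : ℕ → Submodule k K) (χ : Polynomial ℚ), 1 ≤ n → Setup n s₁ s₂ V χ →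
  ∀ t : ℕ, 1 ≤ t → (∀ i : ℕ, 1 ≤ i → i ≤ n + 1 →
    4 ^ n * (n + 1) ^ n * |χ.eval ((t * i : ℕ) : ℚ)| ≤ t * (finrank k (V (t * i)) : ℚ)) →
    GenericallyFinite k (V (t * (n + 1).factorial) : Set K)

private theorem Thr_mono {k K : Type} [Field k] [Field K] [Algebra k K] {E F : IntermediateField k K}
    (h : E ≤ F) (hE : Algebra.IsAlgebraic E K) : Algebra.IsAlgebraic F K := by
  letI : Algebra E F := (IntermediateField.inclusion h).toRingHom.toAlgebra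
  haveI : IsScalarTower E F K := IsScalarTower.of_algebraMap_eq' rfl
  exact Algebra.IsAlgebraic.tower_top (K := E) F

private theorem Thr_pow {k K : Type} [Field k] [Field K] [Algebra k K] {n s₁ s₂ : ℕ}
    {V : ℕ → Submodule k K} {χ : Polynomial ℚ} (h : Setup n s₁ s₂ V χ) (m N : ℕ) (hN : 1 ≤ N) :
    V m ^ N ≤ V (m * N) := by
  induction N, hN using Nat.le_induction with
  | base => rw [pow_one, mul_one]
  | succ N hN ih =>
    rw [pow_succ, Nat.mul_succ]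
    exact (mul_le_mul' ih le_rfl).trans (h.mul _ _)

private theorem Thr_num (n t i : ℕ) (P v : ℚ) (hn : 1 ≤ n) (ht : 1 ≤ t) (hi : i ≤ n) (hv : 1 ≤ v)
    (h1 : 4 ^ n * (n + 1) ^ n * (v * (t : ℚ) ^ n) ≤ 2 ^ n * (t * P))
    (h2 : P ≤ n + 2 ^ n * v * ((t * (i + 1) : ℕ) : ℚ) ^ (n - 1)) : False := by
  obtain ⟨a, rfl⟩ : ∃ a, n = a + 1 := ⟨n - 1, by omega⟩
  have htq : (1 : ℚ) ≤ t := by exact_mod_cast ht
  have ht0 : (0 : ℚ) < t := by linarith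
  rw [Nat.add_sub_cancel] at h2
  have h3 : ((t * (i + 1) : ℕ) : ℚ) ^ a ≤ (t * ((a + 1 : ℕ) + 1 : ℚ)) ^ a := by
    apply pow_le_pow_left₀ (by positivity)
    rw [Nat.cast_mul]
    apply mul_le_mul_of_nonneg_left _ ht0.le
    have : ((i + 1 : ℕ) : ℚ) ≤ ((a + 1 + 1 : ℕ) : ℚ) := by exact_mod_cast (by omega)
    simpa using this
  set X : ℚ := 4 ^ (a + 1) * (((a + 1 : ℕ) : ℚ) + 1) ^ a * (v * (t : ℚ) ^ a) with hX
  have h4 : 4 ^ (a + 1) * (((a + 1 : ℕ) : ℚ) + 1) ^ (a + 1) * (v * (t : ℚ) ^ (a + 1)) =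
      t * ((((a + 1 : ℕ) : ℚ) + 1) * X) := by
    rw [hX]; ring
  rw [h4] at h1
  have h5 : (((a + 1 : ℕ) : ℚ) + 1) * X ≤ 2 ^ (a + 1) * P := by
    have h6 : t * ((((a + 1 : ℕ) : ℚ) + 1) * X) ≤ t * (2 ^ (a + 1) * P) := by linarith
    exact le_of_mul_le_mul_left h6 ht0
  have h7 : 2 ^ (a + 1) * P ≤ 2 ^ (a + 1) * ((a + 1 : ℕ) : ℚ) + X := by
    have h8 : P ≤ ((a + 1 : ℕ) : ℚ) + 2 ^ (a + 1) * v * (t * ((a + 1 : ℕ) + 1 : ℚ)) ^ a := by
      refine h2.trans ?_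
      gcongr
    have h9 : (2 : ℚ) ^ (a + 1) * (2 ^ (a + 1) * v * (t * ((a + 1 : ℕ) + 1 : ℚ)) ^ a) = X := by
      rw [hX, mul_pow, show (4 : ℚ) = 2 * 2 by norm_num, mul_pow]
      ring
    calc 2 ^ (a + 1) * P ≤ 2 ^ (a + 1) * (((a + 1 : ℕ) : ℚ) +
          2 ^ (a + 1) * v * (t * ((a + 1 : ℕ) + 1 : ℚ)) ^ a) := by gcongr
      _ = 2 ^ (a + 1) * ((a + 1 : ℕ) : ℚ) + X := by rw [mul_add, h9]
  have h10 : (((a + 1 : ℕ) : ℚ)) * X ≤ ((a + 1 : ℕ) : ℚ) * 2 ^ (a + 1) := by nlinarith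
  have h11 : X ≤ 2 ^ (a + 1) := le_of_mul_le_mul_left h10 (by positivity)
  have h12 : (4 : ℚ) ^ (a + 1) ≤ X := by
    rw [hX]
    have h13 : (1 : ℚ) ≤ (((a + 1 : ℕ) : ℚ) + 1) ^ a := one_le_pow₀ (by
      have : (0 : ℚ) ≤ ((a + 1 : ℕ) : ℚ) := by positivity
      linarith)
    have h14 : (1 : ℚ) ≤ v * (t : ℚ) ^ a := by
      have := one_le_pow₀ htq (n := a)
      nlinarith
    calc (4 : ℚ) ^ (a + 1) = 4 ^ (a + 1) * 1 * 1 := by ring
      _ ≤ _ := by gcongr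
  have h15 : (2 : ℚ) ^ (a + 1) < 4 ^ (a + 1) := by gcongr <;> norm_num
  linarith

theorem tThr (hOne : S_One) (hVol : S_Vol) (hDiff : S_Diff) (hRat : S_Rat) : S_Thr := by
  intro k K _ _ _ _ n s₁ s₂ V χ hn hS t ht1 hχ
  obtain ⟨hdeg, D, hD, hv⟩ := hVol k K n s₁ s₂ V χ hn hS
  have hv1 : (1 : ℚ) ≤ (n.factorial : ℚ) * χ.coeff n := by
    rw [hv]
    exact_mod_cast hD
  obtain ⟨i, hi, hdi⟩ := hDiff χ n t hdeg
  have hm1 : 1 ≤ t * (i + 1) := Nat.mul_pos ht1 (by omega)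
  have h1 := hχ (i + 1) (by omega) (by omega)
  have h2 : 4 ^ n * (n + 1) ^ n * ((n.factorial : ℚ) * χ.coeff n * (t : ℚ) ^ n) ≤
      2 ^ n * (t * (finrank k (V (t * (i + 1))) : ℚ)) := by
    calc 4 ^ n * (n + 1) ^ n * ((n.factorial : ℚ) * χ.coeff n * (t : ℚ) ^ n)
        ≤ 4 ^ n * (n + 1) ^ n * (2 ^ n * |χ.eval ((t * (i + 1) : ℕ) : ℚ)|) := by gcongr
      _ = 2 ^ n * (4 ^ n * (n + 1) ^ n * |χ.eval ((t * (i + 1) : ℕ) : ℚ)|) := by ring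
      _ ≤ _ := by gcongr
  have h3 : n + 2 ^ n * ((n.factorial : ℚ) * χ.coeff n) * ((t * (i + 1) : ℕ) : ℚ) ^ (n - 1) <
      (finrank k (V (t * (i + 1))) : ℚ) := by
    by_contra hc
    rw [not_lt] at hc
    exact Thr_num n t i _ _ hn ht1 hi hv1 h2 hc
  have h4 : GenericallyFinite k (V (t * (i + 1)) : Set K) :=
    hOne k K n s₁ s₂ V χ hn hS _ hm1 h3
  have hne : V (t * (i + 1)) ≠ ⊥ := by
    intro h0
    rw [h0, finrank_bot] at h3
    have h5 : (0 : ℚ) ≤ n + 2 ^ n * ((n.factorial : ℚ) * χ.coeff n) *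
        ((t * (i + 1) : ℕ) : ℚ) ^ (n - 1) := by positivity
    rw [Nat.cast_zero] at h3
    linarith
  obtain ⟨e, he⟩ : (i + 1) ∣ (n + 1).factorial := Nat.dvd_factorial (by omega) (by omega)
  have he1 : 1 ≤ e := by
    rcases Nat.eq_zero_or_pos e with h0 | h0
    · rw [h0, mul_zero] at he
      exact absurd he (Nat.factorial_ne_zero _)
    · exact h0
  have hR : t * (n + 1).factorial = t * (i + 1) * e := by
    rw [he]
    ring
  rw [hR]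
  have h6 : ratioField k (V (t * (i + 1)) : Set K) ≤
      ratioField k (V (t * (i + 1) * e) : Set K) := by
    rw [← hRat.1 k K _ hne e he1]
    exact hRat.2.2.1 k K _ _ (Thr_pow hS _ e he1)
  exact Thr_mono h6 h4

end Pool.Agent.Lib.MP_8bcb2e_ag.AC
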