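import Pool.Agent.Lib.MP_8bcb2e_ag.AC.Fin
import Pool.Agent.Lib.MP_8bcb2e_ag.AC.Thr
import Pool.Agent.Lib.MP_8bcb2e_ag.AC.PlC
import Pool.Agent.Lib.MP_8bcb2e_ag.AC.OneS

/-!
# The final theorem for the multiples of `rK_X`, from the abstract theorems
-/

set_option autoImplicit false

universe u

namespace Pool.Agent.Lib.MP_8bcb2e_ag.AC

open KaehlerDifferential AlgebraicGeometry CategoryTheory Module

section

variable {k K : Type u} [Field k] [Field K] [Algebra k K] {n : ℕ}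
  {Ψ : Ω[K⁄k] [⋀^Fin n]→ₗ[K] K} {𝒪 : Set (Subring K)}

theorem ratioField_le_mul (h𝒪 : IsSmoothModel k n 𝒪) (N r : ℕ) (hr : 1 ≤ r) :
    ratioField k (sections k Ψ 𝒪 N) ≤ ratioField k (sections k Ψ 𝒪 (r * N)) := by
  obtain ⟨r, rfl⟩ : ∃ r', r = r' + 1 := ⟨r - 1, by omega⟩
  rw [ratioField, IntermediateField.adjoin_le_iff]
  rintro _ ⟨a, ha, b, hb, rfl⟩
  by_cases hb0 : b = 0
  · rw [hb0, div_zero]
    exact zero_mem _
  · have h1 : a / b = (a * b ^ r) / b ^ (r + 1) := by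
      rw [pow_succ]
      field_simp
    rw [h1]
    refine IntermediateField.subset_adjoin k _ ⟨_, ?_, _, sections_pow h𝒪 hb (r + 1), rfl⟩
    have h2 := sections_mul h𝒪 ha (sections_pow h𝒪 hb r)
    have h3 : (r + 1) * N = N + r * N := by ring
    rw [h3]
    exact h2

theorem genericallyFinite_mul (h𝒪 : IsSmoothModel k n 𝒪) (N r : ℕ) (hr : 1 ≤ r)
    (hN : GenericallyFinite k (sections k Ψ 𝒪 N)) :
    GenericallyFinite k (sections k Ψ 𝒪 (r * N)) := by
  have h := ratioField_le_mul (Ψ := Ψ) h𝒪 N r hr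
  letI : Algebra (ratioField k (sections k Ψ 𝒪 N)) (ratioField k (sections k Ψ 𝒪 (r * N))) :=
    (IntermediateField.inclusion h).toRingHom.toAlgebra
  haveI : IsScalarTower (ratioField k (sections k Ψ 𝒪 N))
    (ratioField k (sections k Ψ 𝒪 (r * N))) K := IsScalarTower.of_algebraMap_eq' rfl
  have hN' : Algebra.IsAlgebraic (ratioField k (sections k Ψ 𝒪 N)) K := hN
  exact Algebra.IsAlgebraic.tower_top (K := ratioField k (sections k Ψ 𝒪 N)) _

end

/-- **Main theorem** for smooth proper schemes, from the abstract theorems. -/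
theorem main_ACr (hOne : S_One) (hThr : S_Thr) (hVol : S_Vol) (hPl : S_Pl) (hOneS : S_OneS)
    (hPB : PBasis.{0}) (hTM : TraceMonomial.{0}) (hTop : TopMem.{0})
    (hC : SepExists.{0}) (hD1 : DerivBound.{0}) (hD2 : IntegralOfHeightOne.{0})
    (hD3 : InftyChart.{0}) (hD4 : TwoCharts.{0}) (hE : IntegralSections.{0}) (hF : WSection.{0})
    (hG : Spread.{0}) (hI : TraceExists.{0}) (hJ1 : SchemeCoord.{0}) (hJ2 : SchemeComplete.{0})
    (hJ3 : SchemeFin.{0}) {k : Type} [Field k] [IsAlgClosed k] (p : ℕ) [Fact p.Prime] [CharP k p]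
    {X : Scheme.{0}} [IsIntegral X] {n : ℕ} (hn : 1 ≤ n)
    (f : X ⟶ Spec (.of k)) [IsProper f] [SmoothOfRelativeDimension n f] :
    letI := functionFieldAlgebra f
    ∀ Ψ : Ω[X.functionField⁄k] [⋀^Fin n]→ₗ[X.functionField] X.functionField, Ψ ≠ 0 →
      ∃ T : X.functionField → X.functionField, IsFrobTrace k Ψ p T ∧
        (∀ T', IsFrobTrace k Ψ p T' → T' = T) ∧
        ∀ (r s₁ s₂ : ℕ) (χ : Polynomial ℚ), 1 ≤ r → 1 ≤ s₁ → 1 ≤ s₂ → Nat.Coprime s₁ s₂ →
          (∀ l, 1 ≤ l →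
            H0 k Ψ (localRings X) (r * (l * s₁)) = H0 k Ψ (localRings X) (r * s₁) ^ l) →
          (∀ l, 1 ≤ l →
            H0 k Ψ (localRings X) (r * (l * s₂)) = H0 k Ψ (localRings X) (r * s₂) ^ l) →
          (∃ N, 1 ≤ N ∧ GenericallyFinite k (sections k Ψ (localRings X) N)) →
          (∃ m₀ : ℕ, ∀ m : ℕ, m₀ ≤ m →
            χ.eval (m : ℚ) = finrank k (H0 k Ψ (localRings X) (r * m))) →
          (∀ m : ℕ, 1 ≤ m →
            n + 2 ^ n * (n.factorial * χ.coeff n) * (m : ℚ) ^ (n - 1) <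
              (finrank k (H0 k Ψ (localRings X) (r * m)) : ℚ) →
            GenericallyFinite k (sections k Ψ (localRings X) (r * m)) ∧
              ∀ j : ℕ, n + 2 ≤ j → Birational k (S0 k Ψ p T (localRings X) (1 + j * (r * m)))) ∧
          (∀ t : ℕ, 1 ≤ t →
            (∀ i : ℕ, 1 ≤ i → i ≤ n + 1 →
              4 ^ n * (n + 1) ^ n * |χ.eval ((t * i : ℕ) : ℚ)| ≤
                t * (finrank k (H0 k Ψ (localRings X) (r * (t * i))) : ℚ)) →
            GenericallyFinite k (sections k Ψ (localRings X) (r * (t * (n + 1).factorial))) ∧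
              ∀ j : ℕ, n + 2 ≤ j → Birational k (S0 k Ψ p T (localRings X)
                (1 + j * (r * (t * (n + 1).factorial))))) ∧
          (∀ N : ℕ, GenericallyFinite k (sections k Ψ (localRings X) N) →
            ∀ m : ℕ, 1 + n * (1 + (n + 2) * N) ≤ m →
              (n.factorial * χ.coeff n) * ((m : ℚ) - (1 + n * (1 + (n + 2) * N) : ℕ)) ^ n ≤
                n.factorial * r ^ n * (finrank k (H0 k Ψ (localRings X) m) : ℚ)) ∧
          ∀ C D m₁ : ℕ, 1 ≤ C → 1 ≤ D →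
            (∀ m : ℕ, m₁ ≤ m → χ.eval (m : ℚ) ≤
              C * (finrank k (H0 k Ψ (localRings X) (r * m)) : ℚ)) →
            (∀ m : ℕ, m₁ ≤ m →
              (n.factorial * χ.coeff n) * (m : ℚ) ^ n ≤ D * χ.eval (m : ℚ)) →
            GenericallyFinite k (sections k Ψ (localRings X)
              (r * max m₁ (C * D * (n + 2 ^ n) + 1))) ∧
              ∀ j : ℕ, n + 2 ≤ j → Birational k (S0 k Ψ p T (localRings X)
                (1 + j * (r * max m₁ (C * D * (n + 2 ^ n) + 1)))) := by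
  have hs : Smooth f := SmoothOfRelativeDimension.smooth n f
  letI := functionFieldAlgebra f
  have hess := (hJ3 k X f).1
  have h𝒪 := isSmoothModel_of_scheme hJ1 hJ2 hJ3 X n f
  intro Ψ hΨ
  obtain ⟨T, hT, huniq, hmain⟩ := main_scheme hPB hTM hTop hC hD1 hD2 hD3 hD4 hE hF hG hI hJ1 hJ2
    hJ3 p hn f Ψ hΨ
  refine ⟨T, hT, huniq, ?_⟩
  intro r s₁ s₂ χ hr h1 h2 hcop hg1 hg2 hbig hchi
  have hset : Setup n s₁ s₂ (fun m => H0 k Ψ (localRings X) (r * m)) χ :=
    { trd := trdeg_eq hC h𝒪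
      fin := fun m => H0_fin hC hD1 hD2 hD3 hD4 hn hΨ h𝒪 (r * m)
      mul := fun a b => by
        have h := H0_mul (Ψ := Ψ) h𝒪 (r * a) (r * b)
        rwa [← mul_add] at h
      one₁ := h1
      one₂ := h2
      cop := hcop
      gen₁ := hg1
      gen₂ := hg2
      big := by
        obtain ⟨N, hN, hN'⟩ := hbig
        refine ⟨N, hN, ?_⟩
        rw [coe_H0 h𝒪]
        exact genericallyFinite_mul h𝒪 N r hr hN'
      chi := hchi }
  refine ⟨fun m hm hlt => ?_, fun t ht hle => ?_, fun N hN m hm => ?_,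
    fun C D m₁ hC1 hD1' hle1 hle2 => ?_⟩
  · have hgf := hOne k X.functionField n s₁ s₂ _ χ hn hset m hm hlt
    rw [coe_H0 h𝒪] at hgf
    exact ⟨hgf, fun j hj => hmain _ hgf j hj⟩
  · have hgf := hThr k X.functionField n s₁ s₂ _ χ hn hset t ht hle
    rw [coe_H0 h𝒪] at hgf
    exact ⟨hgf, fun j hj => hmain _ hgf j hj⟩
  · have hdeg := (hVol k X.functionField n s₁ s₂ _ χ hn hset).1
    exact hPl k X.functionField p n Ψ (localRings X) T hn hΨ h𝒪 hT N r hr hN χ hdeg hchi m hm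
  · have hgf := hOneS k X.functionField n s₁ s₂ _ χ hn hset C D m₁ hC1 hD1' hle1 hle2
    rw [coe_H0 h𝒪] at hgf
    exact ⟨hgf, fun j hj => hmain _ hgf j hj⟩

end Pool.Agent.Lib.MP_8bcb2e_ag.AC
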