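import Pool.Agent.Lib.MP_8bcb2e_ag.AC.Spec

/-!
MP_8bcb2e_ag, part AC, module Img (helper58): the dimension of the image of `|mK_X|`.
-/

set_option autoImplicit false

namespace Pool.Agent.Lib.MP_8bcb2e_ag.AC

open Module

/-- (Img) The image of the map defined by `V m` has dimension `> e` if `P_m > e + 2 ^ n v m ^ e`. -/
def S_Img : Prop := ∀ (k K : Type) [Field k] [IsAlgClosed k] [Field K] [Algebra k K] (n s₁ s₂ : ℕ)
  (V : ℕ → Submodule k K) (χ : Polynomial ℚ), 1 ≤ n → Setup n s₁ s₂ V χ → ∀ m : ℕ, 1 ≤ m →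
  ∀ e : ℕ, e + 2 ^ n * (n.factorial * χ.coeff n) * (m : ℚ) ^ e < (finrank k (V m) : ℚ) →
    ((e + 1 : ℕ) : Cardinal) ≤ Algebra.trdeg k (ratioField k (V m : Set K))

/-- (ThrI) Only the values at `t, 2 t, …, (n + 1) t` are used, with the factor `t ^ 2`. -/
def S_ThrI : Prop := ∀ (k K : Type) [Field k] [IsAlgClosed k] [Field K] [Algebra k K] (n s₁ s₂ : ℕ)
  (V : ℕ → Submodule k K) (χ : Polynomial ℚ), 2 ≤ n → Setup n s₁ s₂ V χ →
  ∀ t : ℕ, 1 ≤ t → (∀ i : ℕ, 1 ≤ i → i ≤ n + 1 →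
    4 ^ n * (n + 1) ^ (n - 1) * |χ.eval ((t * i : ℕ) : ℚ)| ≤ t ^ 2 * (finrank k (V (t * i)) : ℚ)) →
    (n : Cardinal) ≤ Algebra.trdeg k (ratioField k (V (t * (n + 1).factorial) : Set K)) + 1

private theorem Img_pow {k K : Type} [Field k] [Field K] [Algebra k K] {n s₁ s₂ : ℕ}
    {V : ℕ → Submodule k K} {χ : Polynomial ℚ} (h : Setup n s₁ s₂ V χ) (m N : ℕ) (hN : 1 ≤ N) :
    V m ^ N ≤ V (m * N) := by
  induction N, hN using Nat.le_induction with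
  | base => rw [pow_one, mul_one]
  | succ N hN ih =>
    rw [pow_succ, Nat.mul_succ]
    exact (mul_le_mul' ih le_rfl).trans (h.mul _ _)

theorem tImg (hAbs : S_Abs) (hVol : S_Vol) (hTd : S_Td) : S_Img := by
  intro k K _ _ _ _ n s₁ s₂ V χ hn hS m hm e he
  obtain ⟨-, D, hD, hv⟩ := hVol k K n s₁ s₂ V χ hn hS
  have hv1 : (1 : ℚ) ≤ (n.factorial : ℚ) * χ.coeff n := by
    rw [hv]
    exact_mod_cast hD
  have hne : V m ≠ ⊥ := by
    intro h0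
    rw [h0, finrank_bot] at he
    have h5 : (0 : ℚ) ≤ e + 2 ^ n * ((n.factorial : ℚ) * χ.coeff n) * (m : ℚ) ^ e := by positivity
    rw [Nat.cast_zero] at he
    linarith
  obtain ⟨d, -, -, hd, -, -⟩ := hTd.1 k K n hS.trd (ratioField k (V m : Set K))
  rw [hd, Nat.cast_le]
  by_contra hcon
  have hde : d ≤ e := by omega
  have h1 := hAbs k K n s₁ s₂ V χ hn hS m hm hne d hd
  have h2 : (d : ℚ) ≤ e := by exact_mod_cast hde
  have hmq : (1 : ℚ) ≤ m := by exact_mod_cast hm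
  have h3 : (m : ℚ) ^ d ≤ (m : ℚ) ^ e := pow_le_pow_right₀ hmq hde
  have h4 : 2 ^ n * ((n.factorial : ℚ) * χ.coeff n) * (m : ℚ) ^ d ≤
      2 ^ n * ((n.factorial : ℚ) * χ.coeff n) * (m : ℚ) ^ e :=
    mul_le_mul_of_nonneg_left h3 (by positivity)
  linarith

private theorem Img_num (n t i : ℕ) (P v : ℚ) (hn : 2 ≤ n) (ht : 1 ≤ t) (hi : i ≤ n) (hv : 1 ≤ v)
    (h1 : 4 ^ n * (n + 1) ^ (n - 1) * (v * (t : ℚ) ^ n) ≤ 2 ^ n * (t ^ 2 * P))
    (h2 : P ≤ (n - 2 : ℕ) + 2 ^ n * v * ((t * (i + 1) : ℕ) : ℚ) ^ (n - 2)) : False := by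
  obtain ⟨a, rfl⟩ : ∃ a, n = a + 2 := ⟨n - 2, by omega⟩
  have htq : (1 : ℚ) ≤ t := by exact_mod_cast ht
  have ht0 : (0 : ℚ) < t := by linarith
  rw [Nat.add_sub_cancel] at h2
  rw [show a + 2 - 1 = a + 1 by omega] at h1
  set w : ℚ := ((a + 2 : ℕ) : ℚ) + 1 with hw
  have hw1 : (1 : ℚ) ≤ w := by
    have : (0 : ℚ) ≤ ((a + 2 : ℕ) : ℚ) := by positivity
    rw [hw]; linarith
  have h3 : ((t * (i + 1) : ℕ) : ℚ) ^ a ≤ (t * w) ^ a := by
    apply pow_le_pow_left₀ (by positivity)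
    rw [Nat.cast_mul]
    apply mul_le_mul_of_nonneg_left _ ht0.le
    have : ((i + 1 : ℕ) : ℚ) ≤ ((a + 2 + 1 : ℕ) : ℚ) := by exact_mod_cast (by omega)
    rw [hw]
    push_cast at this ⊢
    linarith
  set X : ℚ := 4 ^ (a + 2) * w ^ a * (v * (t : ℚ) ^ a) with hX
  have h4 : 4 ^ (a + 2) * w ^ (a + 1) * (v * (t : ℚ) ^ (a + 2)) = t ^ 2 * (w * X) := by
    rw [hX]; ring
  rw [h4] at h1
  have ht2 : (0 : ℚ) < (t : ℚ) ^ 2 := by positivity
  have h5 : w * X ≤ 2 ^ (a + 2) * P := by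
    have h6 : (t : ℚ) ^ 2 * (w * X) ≤ (t : ℚ) ^ 2 * (2 ^ (a + 2) * P) := by linarith
    exact le_of_mul_le_mul_left h6 ht2
  have h7 : 2 ^ (a + 2) * P ≤ 2 ^ (a + 2) * (a : ℚ) + X := by
    have h8 : P ≤ (a : ℚ) + 2 ^ (a + 2) * v * (t * w) ^ a := by
      refine h2.trans ?_
      gcongr
    have h9 : (2 : ℚ) ^ (a + 2) * (2 ^ (a + 2) * v * (t * w) ^ a) = X := by
      rw [hX, mul_pow, show (4 : ℚ) = 2 * 2 by norm_num, mul_pow]
      ring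
    calc 2 ^ (a + 2) * P ≤ 2 ^ (a + 2) * ((a : ℚ) + 2 ^ (a + 2) * v * (t * w) ^ a) := by gcongr
      _ = 2 ^ (a + 2) * (a : ℚ) + X := by rw [mul_add, h9]
  have hX4 : (4 : ℚ) ^ (a + 2) ≤ X := by
    rw [hX]
    have h13 : (1 : ℚ) ≤ w ^ a := one_le_pow₀ hw1
    have h14 : (1 : ℚ) ≤ v * (t : ℚ) ^ a := by
      have := one_le_pow₀ htq (n := a)
      nlinarith
    calc (4 : ℚ) ^ (a + 2) = 4 ^ (a + 2) * 1 * 1 := by ring
      _ ≤ _ := by gcongr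
  have h15 : (2 : ℚ) ^ (a + 2) < 4 ^ (a + 2) := by gcongr <;> norm_num
  have h16 : w * X ≤ 2 ^ (a + 2) * (a : ℚ) + X := h5.trans h7
  have h17 : (w - 1) * X ≤ 2 ^ (a + 2) * (a : ℚ) := by linarith
  have h18 : w - 1 = (a : ℚ) + 2 := by rw [hw]; push_cast; ring
  rw [h18] at h17
  have ha0 : (0 : ℚ) ≤ (a : ℚ) := by positivity
  have hX0 : (0 : ℚ) < X := lt_of_lt_of_le (by positivity) hX4
  nlinarith

theorem tThrI (hImg : S_Img) (hVol : S_Vol) (hDiff : S_Diff) (hRat : S_Rat) : S_ThrI := by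
  intro k K _ _ _ _ n s₁ s₂ V χ hn hS t ht1 hχ
  have hn1 : 1 ≤ n := by omega
  obtain ⟨hdeg, D, hD, hv⟩ := hVol k K n s₁ s₂ V χ hn1 hS
  have hv1 : (1 : ℚ) ≤ (n.factorial : ℚ) * χ.coeff n := by
    rw [hv]
    exact_mod_cast hD
  obtain ⟨i, hi, hdi⟩ := hDiff χ n t hdeg
  have hm1 : 1 ≤ t * (i + 1) := Nat.mul_pos ht1 (by omega)
  have h1 := hχ (i + 1) (by omega) (by omega)
  have h2 : 4 ^ n * (n + 1) ^ (n - 1) * ((n.factorial : ℚ) * χ.coeff n * (t : ℚ) ^ n) ≤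
      2 ^ n * (t ^ 2 * (finrank k (V (t * (i + 1))) : ℚ)) := by
    calc 4 ^ n * (n + 1) ^ (n - 1) * ((n.factorial : ℚ) * χ.coeff n * (t : ℚ) ^ n)
        ≤ 4 ^ n * (n + 1) ^ (n - 1) * (2 ^ n * |χ.eval ((t * (i + 1) : ℕ) : ℚ)|) := by gcongr
      _ = 2 ^ n * (4 ^ n * (n + 1) ^ (n - 1) * |χ.eval ((t * (i + 1) : ℕ) : ℚ)|) := by ring
      _ ≤ _ := by gcongr
  have h3 : ((n - 2 : ℕ) : ℚ) + 2 ^ n * ((n.factorial : ℚ) * χ.coeff n) *
      ((t * (i + 1) : ℕ) : ℚ) ^ (n - 2) < (finrank k (V (t * (i + 1))) : ℚ) := by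
    by_contra hc
    rw [not_lt] at hc
    exact Img_num n t i _ _ hn ht1 hi hv1 h2 hc
  have h4 := hImg k K n s₁ s₂ V χ hn1 hS _ hm1 (n - 2) h3
  have hne : V (t * (i + 1)) ≠ ⊥ := by
    intro h0
    rw [h0, finrank_bot] at h3
    have h5 : (0 : ℚ) ≤ ((n - 2 : ℕ) : ℚ) + 2 ^ n * ((n.factorial : ℚ) * χ.coeff n) *
        ((t * (i + 1) : ℕ) : ℚ) ^ (n - 2) := by positivity
    rw [Nat.cast_zero] at h3
    linarith
  obtain ⟨e, he⟩ : (i + 1) ∣ (n + 1).factorial := Nat.dvd_factorial (by omega) (by omega)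
  have he1 : 1 ≤ e := by
    rcases Nat.eq_zero_or_pos e with h0 | h0
    · rw [h0, mul_zero] at he
      exact absurd he (Nat.factorial_ne_zero _)
    · exact h0
  have hR : t * (n + 1).factorial = t * (i + 1) * e := by
    rw [he]
    ring
  rw [hR]
  have h6 : ratioField k (V (t * (i + 1)) : Set K) ≤
      ratioField k (V (t * (i + 1) * e) : Set K) := by
    rw [← hRat.1 k K _ hne e he1]
    exact hRat.2.2.1 k K _ _ (Img_pow hS _ e he1)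
  have h7 : Algebra.trdeg k (ratioField k (V (t * (i + 1)) : Set K)) ≤
      Algebra.trdeg k (ratioField k (V (t * (i + 1) * e) : Set K)) :=
    trdeg_le_of_injective (IntermediateField.inclusion h6)
      (IntermediateField.inclusion h6).injective
  have h8 : (n : Cardinal) = ((n - 2 + 1 : ℕ) : Cardinal) + 1 := by
    rw [← Nat.cast_one (R := Cardinal), ← Nat.cast_add]
    congr 1
    omega
  rw [h8]
  gcongr
  exact h4.trans h7

end Pool.Agent.Lib.MP_8bcb2e_ag.AC
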