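import Pool.Agent.Lib.MP_8bcb2e_ag.AC.FinR
import Pool.Agent.Lib.MP_8bcb2e_ag.AC.Img
import Pool.Agent.Lib.MP_8bcb2e_ag.B.All

/-!
# The final theorem with the dimension of the image, from the abstract theorems
-/

set_option autoImplicit false

namespace Pool.Agent.Lib.MP_8bcb2e_ag.AC

open KaehlerDifferential AlgebraicGeometry CategoryTheory Module

/-- **Main theorem** for smooth proper schemes, from the abstract theorems. -/
theorem main_ACt (hVol : S_Vol) (hTd : S_Td) (hImg : S_Img) (hThrI : S_ThrI) (hPl : S_Pl)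
    {k : Type} [Field k] [IsAlgClosed k] (p : ℕ) [Fact p.Prime] [CharP k p]
    {X : Scheme.{0}} [IsIntegral X] {n : ℕ} (hn : 1 ≤ n)
    (f : X ⟶ Spec (.of k)) [IsProper f] [SmoothOfRelativeDimension n f] :
    letI := functionFieldAlgebra f
    ∀ Ψ : Ω[X.functionField⁄k] [⋀^Fin n]→ₗ[X.functionField] X.functionField, Ψ ≠ 0 →
      ∃ T : X.functionField → X.functionField, IsFrobTrace k Ψ p T ∧
        (∀ T', IsFrobTrace k Ψ p T' → T' = T) ∧
        ∀ (r s₁ s₂ : ℕ) (χ : Polynomial ℚ), 1 ≤ r → 1 ≤ s₁ → 1 ≤ s₂ → Nat.Coprime s₁ s₂ →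
          (∀ l, 1 ≤ l →
            H0 k Ψ (localRings X) (r * (l * s₁)) = H0 k Ψ (localRings X) (r * s₁) ^ l) →
          (∀ l, 1 ≤ l →
            H0 k Ψ (localRings X) (r * (l * s₂)) = H0 k Ψ (localRings X) (r * s₂) ^ l) →
          (∃ N, 1 ≤ N ∧ GenericallyFinite k (sections k Ψ (localRings X) N)) →
          (∃ m₀ : ℕ, ∀ m : ℕ, m₀ ≤ m →
            χ.eval (m : ℚ) = finrank k (H0 k Ψ (localRings X) (r * m))) →
          (∀ m e : ℕ, 1 ≤ m →
            e + 2 ^ n * (n.factorial * χ.coeff n) * (m : ℚ) ^ e <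
              (finrank k (H0 k Ψ (localRings X) (r * m)) : ℚ) →
            ((e + 1 : ℕ) : Cardinal) ≤
              Algebra.trdeg k (ratioField k (sections k Ψ (localRings X) (r * m)))) ∧
          (∀ m : ℕ, 1 ≤ m →
            (n - 1 : ℕ) + 2 ^ n * (n.factorial * χ.coeff n) * (m : ℚ) ^ (n - 1) <
              (finrank k (H0 k Ψ (localRings X) (r * m)) : ℚ) →
            GenericallyFinite k (sections k Ψ (localRings X) (r * m)) ∧
              ∀ j : ℕ, n + 2 ≤ j → Birational k (S0 k Ψ p T (localRings X) (1 + j * (r * m)))) ∧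
          (∀ m ρ : ℕ, 2 ≤ n → 1 ≤ m → ρ = r * m →
            (n - 2 : ℕ) + 2 ^ n * (n.factorial * χ.coeff n) * (m : ℚ) ^ (n - 2) <
              (finrank k (H0 k Ψ (localRings X) (r * m)) : ℚ) →
            GenericallyFinite k (sections k Ψ (localRings X) ((1 + 3 * ρ) * (1 + ρ * n) + ρ)) ∧
              ∀ j : ℕ, n + 2 ≤ j → Birational k (S0 k Ψ p T (localRings X)
                (1 + j * ((1 + 3 * ρ) * (1 + ρ * n) + ρ)))) ∧
          (∀ t ρ : ℕ, 2 ≤ n → 1 ≤ t → ρ = r * (t * (n + 1).factorial) →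
            (∀ i : ℕ, 1 ≤ i → i ≤ n + 1 →
              4 ^ n * (n + 1) ^ (n - 1) * |χ.eval ((t * i : ℕ) : ℚ)| ≤
                t ^ 2 * (finrank k (H0 k Ψ (localRings X) (r * (t * i))) : ℚ)) →
            GenericallyFinite k (sections k Ψ (localRings X) ((1 + 3 * ρ) * (1 + ρ * n) + ρ)) ∧
              ∀ j : ℕ, n + 2 ≤ j → Birational k (S0 k Ψ p T (localRings X)
                (1 + j * ((1 + 3 * ρ) * (1 + ρ * n) + ρ)))) ∧
          ∀ N : ℕ, GenericallyFinite k (sections k Ψ (localRings X) N) →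
            ∀ m : ℕ, 1 + n * (1 + (n + 2) * N) ≤ m →
              (n.factorial * χ.coeff n) * ((m : ℚ) - (1 + n * (1 + (n + 2) * N) : ℕ)) ^ n ≤
                n.factorial * r ^ n * (finrank k (H0 k Ψ (localRings X) m) : ℚ) := by
  have hs : Smooth f := SmoothOfRelativeDimension.smooth n f
  letI := functionFieldAlgebra f
  have hess := (schemeFin_of k X f).1
  have h𝒪 := isSmoothModel_of_scheme schemeCoord_of schemeComplete_of schemeFin_of X n f
  intro Ψ hΨ
  obtain ⟨T, hT, huniq, hmain⟩ := main_scheme pBasis_of traceMonomial_of topMem_of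
    sepExists_of derivBound_of integralOfHeightOne_of inftyChart_of twoCharts_of
    integralSections_of wSection_of spread_of traceExists_of schemeCoord_of schemeComplete_of
    schemeFin_of p hn f Ψ hΨ
  refine ⟨T, hT, huniq, ?_⟩
  intro r s₁ s₂ χ hr h1 h2 hcop hg1 hg2 hbig hchi
  have hset : Setup n s₁ s₂ (fun m => H0 k Ψ (localRings X) (r * m)) χ :=
    { trd := trdeg_eq sepExists_of h𝒪
      fin := fun m => H0_fin sepExists_of derivBound_of integralOfHeightOne_of inftyChart_of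
        twoCharts_of hn hΨ h𝒪 (r * m)
      mul := fun a b => by
        have h := H0_mul (Ψ := Ψ) h𝒪 (r * a) (r * b)
        rwa [← mul_add] at h
      one₁ := h1
      one₂ := h2
      cop := hcop
      gen₁ := hg1
      gen₂ := hg2
      big := by
        obtain ⟨N, hN, hN'⟩ := hbig
        refine ⟨N, hN, ?_⟩
        rw [coe_H0 h𝒪]
        exact genericallyFinite_mul h𝒪 N r hr hN'
      chi := hchi }
  have hA : ∀ m e : ℕ, 1 ≤ m →
      e + 2 ^ n * (n.factorial * χ.coeff n) * (m : ℚ) ^ e <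
        (finrank k (H0 k Ψ (localRings X) (r * m)) : ℚ) →
      ((e + 1 : ℕ) : Cardinal) ≤
        Algebra.trdeg k (ratioField k (sections k Ψ (localRings X) (r * m))) := by
    intro m e hm he
    have h := hImg k X.functionField n s₁ s₂ _ χ hn hset m hm e he
    rw [coe_H0 h𝒪] at h
    exact h
  have hB : ∀ ρ : ℕ, 2 ≤ n → 1 ≤ ρ →
      (n : Cardinal) ≤ Algebra.trdeg k (ratioField k (sections k Ψ (localRings X) ρ)) + 1 →
      GenericallyFinite k (sections k Ψ (localRings X) ((1 + 3 * ρ) * (1 + ρ * n) + ρ)) ∧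
        ∀ j : ℕ, n + 2 ≤ j → Birational k (S0 k Ψ p T (localRings X)
          (1 + j * ((1 + 3 * ρ) * (1 + ρ * n) + ρ))) := by
    intro ρ hn2 hρ hd
    obtain ⟨T', hT', -, hB'⟩ := B.theoremB p hn2 f Ψ hΨ
    have hTT : T' = T := huniq T' hT'
    subst hTT
    obtain ⟨N, -, hN'⟩ := hbig
    exact hB' ρ hρ ⟨N, hN'⟩ hd
  refine ⟨hA, fun m hm hlt => ?_, fun m ρ hn2 hm hρ hlt => ?_, fun t ρ hn2 ht hρ hle => ?_,
    fun N hN m hm => ?_⟩
  · have h3 := hA m (n - 1) hm hlt
    have hgf : GenericallyFinite k (sections k Ψ (localRings X) (r * m)) := by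
      obtain ⟨d, e, -, hd, -, hd'⟩ := hTd.1 k X.functionField n (trdeg_eq sepExists_of h𝒪)
        (ratioField k (sections k Ψ (localRings X) (r * m)))
      by_contra hcon
      have h4 := hd' hcon
      rw [hd, Nat.cast_le] at h3
      omega
    exact ⟨hgf, fun j hj => hmain _ hgf j hj⟩
  · subst hρ
    refine hB (r * m) hn2 (Nat.mul_pos hr hm) ?_
    have h3 := hA m (n - 2) hm hlt
    have h8 : (n : Cardinal) = ((n - 2 + 1 : ℕ) : Cardinal) + 1 := by
      rw [← Nat.cast_one (R := Cardinal), ← Nat.cast_add]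
      congr 1
      omega
    rw [h8]
    gcongr
  · subst hρ
    refine hB _ hn2 (Nat.mul_pos hr (Nat.mul_pos ht (Nat.factorial_pos _))) ?_
    have h3 := hThrI k X.functionField n s₁ s₂ _ χ hn2 hset t ht hle
    rw [coe_H0 h𝒪] at h3
    exact h3
  · have hdeg := (hVol k X.functionField n s₁ s₂ _ χ hn hset).1
    exact hPl k X.functionField p n Ψ (localRings X) T hn hΨ h𝒪 hT N r hr hN χ hdeg hchi m hm

end Pool.Agent.Lib.MP_8bcb2e_ag.AC
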