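import Pool.Agent.Lib.MP_8bcb2e_ag.AC.Spec

/-!
MP_8bcb2e_ag, part AC, module Glue: `dim_L (L U) dim V^l ≤ dim U V^l` (helper77).
-/

set_option autoImplicit false

namespace Pool.Agent.Lib.MP_8bcb2e_ag.AC

open Pool.Agent.Lib.MP_16285c_agN (Vd cnt)
open Filter Topology Module

private theorem Glue_mem {k K : Type} [Field k] [Field K] [Algebra k K] (L : IntermediateField k K)
    (V : Submodule k K) (f : K) (hf : f ≠ 0) (hV : ∀ v ∈ V, v / f ∈ L) (l : ℕ) :
    ∀ x ∈ V ^ l, x / f ^ l ∈ L := by
  induction l with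
  | zero =>
    intro x hx
    rw [pow_zero] at hx ⊢
    rw [div_one]
    obtain ⟨r, rfl⟩ := Submodule.mem_one.mp hx
    exact L.algebraMap_mem r
  | succ l ih =>
    intro x hx
    rw [pow_succ] at hx
    refine Submodule.mul_induction_on hx ?_ ?_
    · intro a ha b hb
      have h : a * b / f ^ (l + 1) = (a / f ^ l) * (b / f) := by
        rw [pow_succ]
        field_simp
      rw [h]
      exact L.mul_mem (ih a ha) (hV b hb)
    · intro a b ha hb
      rw [add_div]
      exact L.add_mem ha hb

theorem tGlue : S_Glue := by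
  intro k K _ _ _ L U V _ _ f hf hV l
  classical
  obtain ⟨b, hbU, hbs, hbi⟩ := exists_linearIndependent L (U : Set K)
  have hfl : f ^ l ≠ 0 := pow_ne_zero _ hf
  have hUfg : U.FG := Module.Finite.iff_fg.mp inferInstance
  have hVfg : V.FG := Module.Finite.iff_fg.mp inferInstance
  have hWfg : (V ^ l).FG := hVfg.pow l
  have hUWfg : (U * V ^ l).FG := hUfg.mul hWfg
  have iW : Module.Finite k ↥(V ^ l) := Module.Finite.iff_fg.mpr hWfg
  have iUW : Module.Finite k ↥(U * V ^ l) := Module.Finite.iff_fg.mpr hUWfg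
  -- the set `b` is finite
  have hbk : LinearIndependent k (fun x : b => (x : K)) :=
    hbi.restrict_scalars (by
      intro r s hrs
      have h1 : algebraMap k L r = algebraMap k L s := by
        simpa [Algebra.smul_def] using hrs
      exact (algebraMap k L).injective h1)
  have hbU' : LinearIndependent k (fun x : b => (⟨(x : K), hbU x.2⟩ : U)) :=
    LinearIndependent.of_comp U.subtype (by
      have h : (U.subtype ∘ fun x : b => (⟨(x : K), hbU x.2⟩ : U)) = fun x : b => (x : K) := rfl
      rw [h]
      exact hbk)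
  have hfin : Finite b := hbU'.finite
  have ft : Fintype b := Fintype.ofFinite b
  have hrk : finrank L ↥(Submodule.span L (U : Set K)) = Fintype.card b := by
    rw [← hbs, finrank_span_set_eq_card hbi, Set.toFinset_card]
  -- a basis of `V ^ l`
  let w := Module.finBasis k ↥(V ^ l)
  let c : Fin (finrank k ↥(V ^ l)) → L := fun i => ⟨(w i : K) / f ^ l, Glue_mem L V f hf hV l _ (w i).2⟩
  have hc : LinearIndependent k c := by
    refine LinearIndependent.of_comp ((LinearMap.mulLeft k (f ^ l)).comp L.val.toLinearMap) ?_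
    have h : (((LinearMap.mulLeft k (f ^ l)).comp L.val.toLinearMap) ∘ c) =
        fun i => ((w i : ↥(V ^ l)) : K) := by
      funext i
      change f ^ l * ((w i : K) / f ^ l) = (w i : K)
      field_simp
    rw [h]
    exact w.linearIndependent.map' (V ^ l).subtype (Submodule.ker_subtype _)
  have hp := linearIndependent_smul hc hbi
  let ψ : Fin (finrank k ↥(V ^ l)) × b → ↥(U * V ^ l) := fun p =>
    ⟨(p.2 : K) * (w p.1 : K), Submodule.mul_mem_mul (hbU p.2.2) (w p.1).2⟩
  have hψ : LinearIndependent k ψ := by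
    refine LinearIndependent.of_comp
      ((LinearMap.mulLeft k ((f ^ l)⁻¹)).comp (U * V ^ l).subtype) ?_
    have h : (((LinearMap.mulLeft k ((f ^ l)⁻¹)).comp (U * V ^ l).subtype) ∘ ψ) =
        fun p : Fin (finrank k ↥(V ^ l)) × b => c p.1 • (p.2 : K) := by
      funext p
      change (f ^ l)⁻¹ * ((p.2 : K) * (w p.1 : K)) = ((w p.1 : K) / f ^ l) * (p.2 : K)
      field_simp
    rw [h]
    exact hp
  have := hψ.fintype_card_le_finrank
  rw [Fintype.card_prod, Fintype.card_fin] at this
  rw [hrk, mul_comm]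
  exact this

end Pool.Agent.Lib.MP_8bcb2e_ag.AC
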