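import Pool.Agent.Lib.MP_8bcb2e_ag.AC.Spec

/-!
# The growth of the powers of a subspace
-/

set_option autoImplicit false

namespace Pool.Agent.Lib.MP_8bcb2e_ag.AC

open Pool.Agent.Lib.MP_16285c_agN (Vd cnt)
open Filter Topology Module

private theorem Gro_top {L K : Type} [Field L] [Field K] [Algebra L K] (c : ℕ) (x : Fin c → K)
    (F : IntermediateField L K) (hF : F = IntermediateField.adjoin L (Set.range x))
    (x' : Fin c → F) (hx' : ∀ i, (x' i : K) = x i) :
    IntermediateField.adjoin L (Set.range x') = ⊤ := by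
  apply IntermediateField.map_injective F.val
  rw [IntermediateField.adjoin_map, ← AlgHom.fieldRange_eq_map, IntermediateField.fieldRange_val]
  have h : F.val '' Set.range x' = Set.range x := by
    rw [← Set.range_comp]
    congr 1
    funext i
    exact hx' i
  rw [h, hF]

private theorem Gro_Vd {L K : Type} [Field L] [Field K] [Algebra L K] (c : ℕ) (x : Fin c → K)
    (F : IntermediateField L K) (x' : Fin c → F) (hx' : ∀ i, (x' i : K) = x i) (l : ℕ) :
    finrank L ↥(Vd L x l) = finrank L ↥(Vd L x' l) := by
  have h : Vd L x l = (Vd L x' l).map F.val.toLinearMap := by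
    unfold Pool.Agent.Lib.MP_16285c_agN.Vd
    rw [← Submodule.map_comp]
    congr 1
    have h1 : (MvPolynomial.aeval x : MvPolynomial (Fin c) L →ₐ[L] K) =
        F.val.comp (MvPolynomial.aeval x') := by
      apply MvPolynomial.algHom_ext
      intro i
      rw [MvPolynomial.aeval_X, AlgHom.comp_apply, MvPolynomial.aeval_X]
      exact (hx' i).symm
    rw [h1]
    rfl
  rw [h]
  exact (Submodule.equivMapOfInjective F.val.toLinearMap F.val.injective (Vd L x' l)).finrank_eq.symm

/-- The growth of the powers of a subspace. -/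
theorem tGro (hCnt : S_Cnt) (hRat : S_Rat) (hVdPow : S_VdPow) (hVdG : S_VdG) : S_Gro := by
  intro L K _ _ _ _ W _ hW e he
  obtain ⟨w, hw, hw0⟩ := Submodule.exists_mem_ne_zero_of_ne_bot hW
  set W' : Submodule L K := W.map (LinearMap.mulLeft L w⁻¹) with hW'
  have hw' : w⁻¹ ≠ 0 := inv_ne_zero hw0
  have h1 : (1 : K) ∈ W' := by
    rw [hW', Submodule.mem_map]
    exact ⟨w, hw, by rw [LinearMap.mulLeft_apply, inv_mul_cancel₀ hw0]⟩
  have hrat : ratioField L (W' : Set K) = ratioField L (W : Set K) := hRat.2.1 L K W w⁻¹ hw'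
  have hdim : ∀ l : ℕ, finrank L ↥(W' ^ l) = finrank L ↥(W ^ l) := fun l =>
    hRat.2.2.2 L K W w⁻¹ l hw'
  have hfd : FiniteDimensional L W' := inferInstance
  set b := Module.finBasis L W' with hb
  set c := finrank L W' with hc
  set x : Fin c → K := fun i => (b i : K) with hx
  have hspan : Submodule.span L (Set.range x) = W' := by
    have h2 := b.span_eq
    have h3 : Submodule.map W'.subtype (Submodule.span L (Set.range b)) = W' := by
      rw [h2, Submodule.map_top, Submodule.range_subtype]
    rw [Submodule.map_span, ← Set.range_comp] at h3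
    exact h3
  have hspan1 : Submodule.span L (insert 1 (Set.range x)) = W' := by
    rw [Submodule.span_insert, hspan, sup_eq_right, Submodule.span_singleton_le_iff_mem]
    exact h1
  set F : IntermediateField L K := IntermediateField.adjoin L (Set.range x) with hF
  have hxF : ∀ i, x i ∈ F := fun i => IntermediateField.subset_adjoin L _ (Set.mem_range_self i)
  have hW'F : ∀ z ∈ W', z ∈ F := by
    intro z hz
    rw [← hspan] at hz
    have h2 : Submodule.span L (Set.range x) ≤ Subalgebra.toSubmodule F.toSubalgebra := by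
      rw [Submodule.span_le]
      rintro _ ⟨i, rfl⟩
      exact hxF i
    exact h2 hz
  have hrF : ratioField L (W' : Set K) = F := by
    apply le_antisymm
    · unfold ratioField
      rw [IntermediateField.adjoin_le_iff]
      rintro _ ⟨a, ha, a', ha', rfl⟩
      exact div_mem (hW'F a ha) (hW'F a' ha')
    · rw [hF, IntermediateField.adjoin_le_iff]
      rintro _ ⟨i, rfl⟩
      apply IntermediateField.subset_adjoin
      exact ⟨x i, (b i).2, 1, h1, by rw [div_one]⟩
  have heF : Algebra.trdeg L F = e := by
    rw [← he, ← hrat, hrF]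
  set x' : Fin c → F := fun i => ⟨x i, hxF i⟩ with hx'
  have htop := Gro_top c x F hF x' fun i => rfl
  obtain ⟨s, D, C, hD, hs, hDC⟩ := hVdG L F c x' htop
  have hse : s = e := by
    have h2 : (s : Cardinal) = (e : Cardinal) := by rw [← hs, heF]
    exact_mod_cast h2
  subst hse
  have hpow : ∀ l : ℕ, finrank L ↥(W ^ l) = finrank L ↥(Vd L x' l) := by
    intro l
    rw [← hdim l, ← Gro_Vd c x F x' (fun i => rfl) l, ← hVdPow L K c x l, hspan1]
  refine ⟨D, hD, ?_⟩
  obtain ⟨hu, hl⟩ := hCnt.2 s 1 C le_rfl
  have hu' := hu.const_mul (D : ℝ)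
  have hl' := hl.const_mul (D : ℝ)
  have hlim : (D : ℝ) * ((1 : ℕ) ^ s / (s.factorial : ℝ)) = (D : ℝ) / s.factorial := by
    rw [Nat.cast_one, one_pow, mul_one_div]
  rw [hlim] at hu' hl'
  refine tendsto_of_tendsto_of_tendsto_of_le_of_le' hl' hu' ?_ ?_
  · filter_upwards [eventually_ge_atTop C] with l hlC
    rw [hpow l, ← mul_div_assoc]
    apply div_le_div_of_nonneg_right _ (by positivity)
    have h2 := (hDC (l - C)).1
    rw [Nat.sub_add_cancel hlC] at h2
    rw [one_mul]
    exact_mod_cast h2
  · filter_upwards with l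
    rw [hpow l, ← mul_div_assoc]
    apply div_le_div_of_nonneg_right _ (by positivity)
    rw [one_mul]
    exact_mod_cast (hDC l).2

end Pool.Agent.Lib.MP_8bcb2e_ag.AC
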