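import Pool.Agent.Lib.MP_8bcb2e_ag.AC.Spec
import Pool.Agent.Lib.MP_16285c_agN.Degr.Vd
import Pool.Agent.Lib.MP_16285c_agN.Degr.Cnt

/-!
# PROJECT AC, module Ind: the induction over the dimension of the system
-/

set_option autoImplicit false

namespace Pool.Agent.Lib.MP_8bcb2e_ag.AC

open Pool.Agent.Lib.MP_16285c_agN (Vd cnt)
open Filter Topology Module

private lemma Ind_fin {k K : Type} [Field k] [Field K] [Algebra k K] (V : Submodule k K)
    [h : FiniteDimensional k V] (l : ℕ) : FiniteDimensional k ↥(V ^ l) :=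
  Module.Finite.iff_fg.mpr ((Module.Finite.iff_fg.mp h).pow l)

/-- A nonzero system can be replaced by one that contains `1`. -/
private lemma Ind_one (hRat : S_Rat) {k K : Type} [Field k] [Field K] [Algebra k K]
    (V : Submodule k K) [FiniteDimensional k V] (hV : V ≠ ⊥) :
    ∃ V₁ : Submodule k K, FiniteDimensional k V₁ ∧ (1 : K) ∈ V₁ ∧
      ratioField k (V₁ : Set K) = ratioField k (V : Set K) ∧ finrank k V₁ = finrank k V ∧
      ∀ l : ℕ, finrank k ↥(V₁ ^ l) = finrank k ↥(V ^ l) := by
  obtain ⟨f, hf, hf0⟩ := V.ne_bot_iff.mp hV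
  have hi : f⁻¹ ≠ 0 := inv_ne_zero hf0
  have h4 := fun l => hRat.2.2.2 k K V f⁻¹ l hi
  refine ⟨V.map (LinearMap.mulLeft k f⁻¹), inferInstance, ?_, hRat.2.1 k K V f⁻¹ hi, ?_, h4⟩
  · exact Submodule.mem_map.mpr ⟨f, hf, by simp [hf0]⟩
  · have := h4 1
    rwa [pow_one, pow_one] at this

private lemma Ind_main (hPoint : S_Point) (hRat : S_Rat) (hSep : S_Sep) (hVdPow : S_VdPow)
    (k K : Type) [Field k] [IsAlgClosed k] [Field K] [Algebra k K] (d l : ℕ) (hl : 1 ≤ l) :
    ∀ (n : ℕ) (V : Submodule k K), FiniteDimensional k V → V ≠ ⊥ → finrank k V = n →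
      Algebra.trdeg k (ratioField k (V : Set K)) = d →
      (n - d) * cnt d (l - 1) ≤ finrank k ↥(V ^ l) := by
  intro n
  induction n with
  | zero => intro V _ _ _ _; simp
  | succ n ih =>
    intro V hfin hV hn ht
    obtain ⟨V₁, hfin₁, hone, hr, hd, hp⟩ := Ind_one hRat V hV
    rw [← hp l]
    rw [← hr] at ht
    rw [← hd] at hn
    clear hr hd hp hV hfin
    have hfl := Ind_fin V₁ l
    rcases Nat.lt_or_ge (n + 1) (d + 2) with hlt | hge
    · obtain ⟨a, ha, hind, -⟩ := hSep k K V₁ hone d ht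
      have h1 : Submodule.span k (insert 1 (Set.range a)) ≤ V₁ := by
        rw [Submodule.span_le]
        intro z hz
        rcases hz with rfl | ⟨i, rfl⟩
        · exact hone
        · exact ha i
      have h2 : Vd k a l ≤ V₁ ^ l := by
        rw [← hVdPow k K d a l]
        exact pow_le_pow_left' h1 l
      calc (n + 1 - d) * cnt d (l - 1) ≤ 1 * cnt d (l - 1) :=
            Nat.mul_le_mul_right _ (by omega)
        _ = cnt d (l - 1) := one_mul _
        _ ≤ cnt d l := Pool.Agent.Lib.MP_16285c_agN.tCnt.2.1 d (l - 1) l (Nat.sub_le l 1)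
        _ = finrank k (Vd k a l) := (Pool.Agent.Lib.MP_16285c_agN.tVd.2 k K d a l hind).symm
        _ ≤ finrank k ↥(V₁ ^ l) := Submodule.finrank_mono h2
    · obtain ⟨V', hle, hn', ht', hstep⟩ := hPoint k K V₁ hone d ht (by omega)
      have hfin' : FiniteDimensional k V' := Submodule.finiteDimensional_of_le hle
      have hV' : V' ≠ ⊥ := by
        intro h
        have : finrank k V' = 0 := by rw [h]; exact finrank_bot k K
        omega
      have h3 := ih V' hfin' hV' (by omega) ht'
      have h4 := hstep l hl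
      have h5 : n + 1 - d = (n - d) + 1 := by omega
      rw [h5, add_mul, one_mul]
      omega

theorem tInd (hPoint : S_Point) (hRat : S_Rat) (hSep : S_Sep) (hVdPow : S_VdPow) : S_Ind := by
  intro k K _ _ _ _ V hfin hV d ht l hl
  exact Ind_main hPoint hRat hSep hVdPow k K d l hl (finrank k V) V hfin hV rfl ht

end Pool.Agent.Lib.MP_8bcb2e_ag.AC
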