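import Pool.Agent.Lib.MP_8bcb2e_ag.AC.Spec

/-!
# MP_8bcb2e_ag, part AC, module Int (helper14): integrality of the degree
-/

set_option autoImplicit false

namespace Pool.Agent.Lib.MP_8bcb2e_ag.AC

open Pool.Agent.Lib.MP_16285c_agN (Vd cnt)
open Filter Topology Module

private theorem Int_sub (f : ℕ → ℝ) (e s : ℕ) (c : ℝ) (hs : 1 ≤ s)
    (h : Tendsto (fun l : ℕ => f l / (l : ℝ) ^ e) atTop (𝓝 c)) :
    Tendsto (fun l : ℕ => f (s * l) / (l : ℝ) ^ e) atTop (𝓝 ((s : ℝ) ^ e * c)) := by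
  have h1 : Tendsto (fun l : ℕ => s * l) atTop atTop :=
    tendsto_id.const_mul_atTop' (by omega)
  refine ((h.comp h1).const_mul ((s : ℝ) ^ e)).congr fun l => ?_
  have h2 : ((s : ℝ) ^ e) ≠ 0 := pow_ne_zero _ (by positivity)
  simp only [Function.comp]
  push_cast
  rw [mul_pow, ← mul_div_assoc, mul_div_mul_left _ _ h2]

theorem tInt (hGro : S_Gro) (hRat : S_Rat) : S_Int := by
  intro L K _ _ _ _ W₁ W₂ _ _ hW₁ hW₂ s₁ s₂ hs₁ hs₂ hcop hpow e htr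
  obtain ⟨hr1, -, -, -⟩ := hRat
  have h1 : ratioField L (↑(W₁ ^ s₂) : Set K) = ratioField L (W₁ : Set K) := hr1 L K W₁ hW₁ s₂ hs₂
  have h2 : ratioField L (↑(W₂ ^ s₁) : Set K) = ratioField L (W₂ : Set K) := hr1 L K W₂ hW₂ s₁ hs₁
  have h3 : ratioField L (W₂ : Set K) = ratioField L (W₁ : Set K) := by rw [← h2, ← hpow, h1]
  have htr2 : Algebra.trdeg L (ratioField L (W₂ : Set K)) = e := by
    rw [h3]
    exact htr
  obtain ⟨D₁, hD₁, hl₁⟩ := hGro L K W₁ hW₁ e htr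
  obtain ⟨D₂, hD₂, hl₂⟩ := hGro L K W₂ hW₂ e htr2
  have k1 := Int_sub (fun l => (finrank L ↥(W₁ ^ l) : ℝ)) e s₂ _ hs₂ hl₁
  have k2 := Int_sub (fun l => (finrank L ↥(W₂ ^ l) : ℝ)) e s₁ _ hs₁ hl₂
  have k3 : ∀ l : ℕ, W₁ ^ (s₂ * l) = W₂ ^ (s₁ * l) := fun l => by
    rw [pow_mul, pow_mul, hpow]
  have k4 : (s₂ : ℝ) ^ e * ((D₁ : ℝ) / e.factorial) = (s₁ : ℝ) ^ e * ((D₂ : ℝ) / e.factorial) := by
    refine tendsto_nhds_unique k1 (k2.congr fun l => ?_)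
    show (finrank L ↥(W₂ ^ (s₁ * l)) : ℝ) / (l : ℝ) ^ e = (finrank L ↥(W₁ ^ (s₂ * l)) : ℝ) / (l : ℝ) ^ e
    rw [k3 l]
  have hf : (e.factorial : ℝ) ≠ 0 := by exact_mod_cast e.factorial_ne_zero
  have k5 : (s₂ : ℝ) ^ e * (D₁ : ℝ) = (s₁ : ℝ) ^ e * (D₂ : ℝ) := by
    rw [← mul_div_assoc, ← mul_div_assoc] at k4
    exact (div_left_inj' hf).1 k4
  have k6 : s₂ ^ e * D₁ = s₁ ^ e * D₂ := by exact_mod_cast k5
  have k7 : s₁ ^ e ∣ D₁ :=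
    (Nat.Coprime.pow e e hcop).dvd_of_dvd_mul_left (k6 ▸ Dvd.intro D₂ rfl)
  obtain ⟨D, rfl⟩ := k7
  refine ⟨D, ?_, ?_⟩
  · rcases Nat.eq_zero_or_pos D with h | h
    · rw [h, mul_zero] at hD₁
      omega
    · exact h
  · have k8 : (D : ℝ) * (s₁ : ℝ) ^ e / e.factorial = ((s₁ ^ e * D : ℕ) : ℝ) / e.factorial := by
      push_cast
      ring
    rw [k8]
    exact hl₁

end Pool.Agent.Lib.MP_8bcb2e_ag.AC
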