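import Pool.Agent.Lib.MP_8bcb2e_ag.AC.Spec

set_option autoImplicit false

namespace Pool.Agent.Lib.MP_8bcb2e_ag.AC

open Pool.Agent.Lib.MP_16285c_agN (Vd cnt)
open Filter Topology Module

private theorem Lift_etale {P A E F : Type} [CommRing P] [IsDomain P] [IsNoetherianRing P]
    [CommRing A] [IsDomain A] [Algebra P A] [Algebra.FiniteType P A] [Field E] [Field F]
    [Algebra P E] [IsFractionRing P E] [Algebra A F] [IsFractionRing A F] [Algebra E F]
    [Algebra P F] [IsScalarTower P A F] [IsScalarTower P E F] [Algebra.IsSeparable E F]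
    (h : A) (hh : h ≠ 0) :
    ∃ g : A, g ≠ 0 ∧ g * h ≠ 0 ∧ Algebra.FormallySmooth P (Localization.Away (g * h)) := by
  have e1 : Algebra.FormallyEtale P E := Algebra.FormallyEtale.of_isLocalization (nonZeroDivisors P)
  have e2 : Algebra.FormallyEtale E F := Algebra.FormallyEtale.of_isSeparable E F
  have e3 : Algebra.FormallyEtale P F := Algebra.FormallyEtale.comp P E F
  have hb : (⊥ : Ideal A).IsPrime := Ideal.isPrime_bot
  have e0 : IsLocalization (⊥ : Ideal A).primeCompl F := by
    rw [Ideal.primeCompl_bot]; infer_instance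
  let e : F ≃ₐ[A] Localization.AtPrime (⊥ : Ideal A) :=
    IsLocalization.algEquiv (⊥ : Ideal A).primeCompl _ _
  have e4 : Algebra.IsEtaleAt P (⊥ : Ideal A) :=
    Algebra.FormallyEtale.of_equiv (e.restrictScalars P)
  have e5 : Algebra.FinitePresentation P A := Algebra.FinitePresentation.of_finiteType.mp inferInstance
  obtain ⟨g, hg, hge⟩ := Algebra.exists_etale_of_isEtaleAt (R := P) (⊥ : Ideal A)
  have hg0 : g ≠ 0 := fun h0 => hg (by simp [h0])
  refine ⟨g, hg0, mul_ne_zero hg0 hh, ?_⟩
  have h1 : ↑(PrimeSpectrum.basicOpen g) ⊆ Algebra.etaleLocus P A :=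
    Algebra.basicOpen_subset_etaleLocus_iff_etale.mpr hge
  have h2 : ↑(PrimeSpectrum.basicOpen (g * h)) ⊆ Algebra.etaleLocus P A :=
    fun x hx => h1 (PrimeSpectrum.basicOpen_mul_le_left g h hx)
  have h3 := Algebra.basicOpen_subset_etaleLocus_iff.mp h2
  infer_instance

private theorem Lift_sep (k K : Type) [Field k] [Field K] [Algebra k K] (E : IntermediateField k K)
    (V : Set K) (hsep : ∀ z ∈ V, IsSeparable E z) (x : K) (hx : x ∈ IntermediateField.adjoin k V) :
    IsSeparable E x := by
  have h1 : IntermediateField.adjoin k V ≤ (separableClosure E K).restrictScalars k :=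
    IntermediateField.adjoin_le_iff.mpr fun y hy => mem_separableClosure_iff.mpr (hsep y hy)
  exact mem_separableClosure_iff.mp (h1 hx)

private theorem Lift_sep2 (k K : Type) [Field k] [Field K] [Algebra k K] (E F : IntermediateField k K)
    (hle : E ≤ F) (h : ∀ x ∈ F, IsSeparable E x) :
    @Algebra.IsSeparable E F _ _ (IntermediateField.inclusion hle).toRingHom.toAlgebra := by
  let := (IntermediateField.inclusion hle).toRingHom.toAlgebra
  let ι : F →ₐ[E] K := { F.val.toRingHom with commutes' := fun x => rfl }
  exact ⟨fun x => IsSeparable.of_algHom ι (h x x.2)⟩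

private theorem Lift_ft (k K : Type) [Field k] [Field K] [Algebra k K] (V : Submodule k K)
    [FiniteDimensional k V] : Algebra.FiniteType k (Algebra.adjoin k (V : Set K)) := by
  obtain ⟨s, hs⟩ := (inferInstance : Module.Finite k V).fg_top
  classical
  refine (Subalgebra.fg_iff_finiteType _).mp ⟨s.image Subtype.val, ?_⟩
  rw [← Algebra.adjoin_span]
  congr 1
  rw [Finset.coe_image]
  have h1 : Submodule.span k ((V.subtype) '' (s : Set V)) = V := by
    rw [Submodule.span_image, hs, Submodule.map_subtype_top]
  exact congrArg (fun W : Submodule k K => (W : Set K)) h1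

open scoped IntermediateField.algebraAdjoinAdjoin in
/-- A formally smooth localization of `k[V]` over `k[a]`. -/
private theorem Lift_chart (k K : Type) [Field k] [Field K] [Algebra k K] (V : Submodule k K)
    [FiniteDimensional k V] (d : ℕ) (a : Fin d → K) (ha : ∀ i, a i ∈ V)
    (hai : AlgebraicIndependent k a)
    (hsep : ∀ z ∈ V, IsSeparable (IntermediateField.adjoin k (Set.range a)) z)
    (h : Algebra.adjoin k (V : Set K)) (hh : h ≠ 0) :
    ∃ g : Algebra.adjoin k (V : Set K), g * h ≠ 0 ∧
      ∀ (_ : Algebra (MvPolynomial (Fin d) k) (Localization.Away (g * h))),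
        (∀ p, algebraMap (MvPolynomial (Fin d) k) (Localization.Away (g * h)) p =
          algebraMap (Algebra.adjoin k (V : Set K)) (Localization.Away (g * h))
          (MvPolynomial.aeval (fun i => (⟨a i, Algebra.subset_adjoin (ha i)⟩ :
            Algebra.adjoin k (V : Set K))) p)) →
        Algebra.FormallySmooth (MvPolynomial (Fin d) k) (Localization.Away (g * h)) := by
  classical
  set a₀ : Fin d → Algebra.adjoin k (V : Set K) :=
    fun i => ⟨a i, Algebra.subset_adjoin (ha i)⟩ with ha₀
  let algA : Algebra (MvPolynomial (Fin d) k) (Algebra.adjoin k (V : Set K)) :=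
    (MvPolynomial.aeval a₀).toRingHom.toAlgebra
  set a₁ : Fin d → IntermediateField.adjoin k (Set.range a) :=
    fun i => ⟨a i, IntermediateField.subset_adjoin _ _ ⟨i, rfl⟩⟩ with ha₁
  let algE : Algebra (MvPolynomial (Fin d) k) (IntermediateField.adjoin k (Set.range a)) :=
    (MvPolynomial.aeval a₁).toRingHom.toAlgebra
  have hle : IntermediateField.adjoin k (Set.range a) ≤ IntermediateField.adjoin k (V : Set K) := by
    refine IntermediateField.adjoin.mono k _ _ ?_
    rintro _ ⟨i, rfl⟩
    exact ha i
  let algEF : Algebra (IntermediateField.adjoin k (Set.range a))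
      (IntermediateField.adjoin k (V : Set K)) := (IntermediateField.inclusion hle).toRingHom.toAlgebra
  let algPF : Algebra (MvPolynomial (Fin d) k) (IntermediateField.adjoin k (V : Set K)) :=
    ((algebraMap (Algebra.adjoin k (V : Set K)) (IntermediateField.adjoin k (V : Set K))).comp
      (MvPolynomial.aeval a₀).toRingHom).toAlgebra
  have t1 : IsScalarTower (MvPolynomial (Fin d) k) (Algebra.adjoin k (V : Set K))
      (IntermediateField.adjoin k (V : Set K)) := IsScalarTower.of_algebraMap_eq fun x => rfl
  have cA : ∀ p : MvPolynomial (Fin d) k, ((MvPolynomial.aeval a₀ p :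
      Algebra.adjoin k (V : Set K)) : K) = MvPolynomial.aeval a p := by
    intro p
    have := MvPolynomial.comp_aeval_apply (f := a₀) (Algebra.adjoin k (V : Set K)).val p
    exact this
  have cE : ∀ p : MvPolynomial (Fin d) k, ((MvPolynomial.aeval a₁ p :
      IntermediateField.adjoin k (Set.range a)) : K) = MvPolynomial.aeval a p := by
    intro p
    have := MvPolynomial.comp_aeval_apply (f := a₁) (IntermediateField.adjoin k (Set.range a)).val p
    exact this
  have t2 : IsScalarTower (MvPolynomial (Fin d) k) (IntermediateField.adjoin k (Set.range a))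
      (IntermediateField.adjoin k (V : Set K)) := by
    refine IsScalarTower.of_algebraMap_eq fun x => ?_
    apply Subtype.ext
    change ((MvPolynomial.aeval a₀ x : Algebra.adjoin k (V : Set K)) : K) =
      ((MvPolynomial.aeval a₁ x : IntermediateField.adjoin k (Set.range a)) : K)
    rw [cA, cE]
  have iE : Function.Injective (algebraMap (MvPolynomial (Fin d) k)
      (IntermediateField.adjoin k (Set.range a))) := by
    intro x y hxy
    apply hai
    change MvPolynomial.aeval a x = MvPolynomial.aeval a y
    rw [← cE, ← cE]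
    exact congrArg Subtype.val hxy
  have fE : FaithfulSMul (MvPolynomial (Fin d) k) (IntermediateField.adjoin k (Set.range a)) :=
    (faithfulSMul_iff_algebraMap_injective _ _).mpr iE
  have frE : IsFractionRing (MvPolynomial (Fin d) k) (IntermediateField.adjoin k (Set.range a)) := by
    refine IsFractionRing.of_field _ _ fun z => ?_
    obtain ⟨r, s, hrs⟩ := (IntermediateField.mem_adjoin_range_iff k a z.1).mp z.2
    refine ⟨r, s, Subtype.ext ?_⟩
    change (z : K) = ((MvPolynomial.aeval a₁ r : IntermediateField.adjoin k (Set.range a)) : K) /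
      ((MvPolynomial.aeval a₁ s : IntermediateField.adjoin k (Set.range a)) : K)
    rw [cE, cE, hrs]
  have sEF : Algebra.IsSeparable (IntermediateField.adjoin k (Set.range a))
      (IntermediateField.adjoin k (V : Set K)) :=
    Lift_sep2 k K (IntermediateField.adjoin k (Set.range a)) (IntermediateField.adjoin k (V : Set K))
      hle fun x hx => Lift_sep k K (IntermediateField.adjoin k (Set.range a)) (V : Set K)
        (fun z hz => hsep z hz) x hx
  have ftk : Algebra.FiniteType k (Algebra.adjoin k (V : Set K)) := Lift_ft k K V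
  have tk : IsScalarTower k (MvPolynomial (Fin d) k) (Algebra.adjoin k (V : Set K)) := by
    refine IsScalarTower.of_algebraMap_eq fun x => ?_
    exact ((MvPolynomial.aeval a₀).commutes x).symm
  have ft : Algebra.FiniteType (MvPolynomial (Fin d) k) (Algebra.adjoin k (V : Set K)) :=
    Algebra.FiniteType.of_restrictScalars_finiteType k _ _
  obtain ⟨g, hg0, hgh, hfs⟩ := Lift_etale (P := MvPolynomial (Fin d) k)
    (A := Algebra.adjoin k (V : Set K)) (E := IntermediateField.adjoin k (Set.range a))
    (F := IntermediateField.adjoin k (V : Set K)) h hh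
  have hts : ∀ p, algebraMap (MvPolynomial (Fin d) k) (Localization.Away (g * h)) p =
      algebraMap (Algebra.adjoin k (V : Set K)) (Localization.Away (g * h))
        (algebraMap (MvPolynomial (Fin d) k) (Algebra.adjoin k (V : Set K)) p) := fun p =>
    IsScalarTower.algebraMap_apply (MvPolynomial (Fin d) k) (Algebra.adjoin k (V : Set K))
      (Localization.Away (g * h)) p
  have key : ∀ alg' : Algebra (MvPolynomial (Fin d) k) (Localization.Away (g * h)),
      alg' = (OreLocalization.instAlgebra : Algebra (MvPolynomial (Fin d) k)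
        (Localization.Away (g * h))) →
      @Algebra.FormallySmooth (MvPolynomial (Fin d) k) (Localization.Away (g * h)) _ _ alg' := by
    intro alg' e
    rw [e]
    exact hfs
  refine ⟨g, hgh, fun alg halg => key alg ?_⟩
  apply Algebra.algebra_ext
  intro r
  exact (halg r).trans (hts r).symm

private theorem Lift_lifts (k K A S : Type) [Field k] [Field K] [Algebra k K] [CommRing A] [CommRing S]
    [Algebra k A] [Algebra A S] [Algebra k S] [IsScalarTower k A S] (d : ℕ) (a₀ : Fin d → A)
    (R : Subalgebra k K) (a' : Fin d → R) (e : S ≃ₐ[k] R)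
    (he : ∀ i, e (algebraMap A S (a₀ i)) = a' i)
    (hfs : ∀ (_ : Algebra (MvPolynomial (Fin d) k) S),
      (∀ p, algebraMap (MvPolynomial (Fin d) k) S p = algebraMap A S (MvPolynomial.aeval a₀ p)) →
      Algebra.FormallySmooth (MvPolynomial (Fin d) k) S) : Lifts R a' := by
  intro B _ _ I hI β χ hχ
  let algS : Algebra (MvPolynomial (Fin d) k) S :=
    ((algebraMap A S).comp (MvPolynomial.aeval a₀).toRingHom).toAlgebra
  have hS : ∀ p, algebraMap (MvPolynomial (Fin d) k) S p =
      algebraMap A S (MvPolynomial.aeval a₀ p) := fun p => rfl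
  have h1 : Algebra.FormallySmooth (MvPolynomial (Fin d) k) S := hfs algS hS
  let algB : Algebra (MvPolynomial (Fin d) k) B := (MvPolynomial.aeval β).toRingHom.toAlgebra
  have hB : ∀ p, algebraMap (MvPolynomial (Fin d) k) B p = MvPolynomial.aeval β p := fun p => rfl
  have hBI : ∀ p, algebraMap (MvPolynomial (Fin d) k) (B ⧸ I) p =
      Ideal.Quotient.mk I (MvPolynomial.aeval β p) := fun p => rfl
  let f1 : MvPolynomial (Fin d) k →ₐ[k] B ⧸ I :=
    ((χ.comp e.toAlgHom).comp (IsScalarTower.toAlgHom k A S)).comp (MvPolynomial.aeval a₀)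
  let f2 : MvPolynomial (Fin d) k →ₐ[k] B ⧸ I := (Ideal.Quotient.mkₐ k I).comp (MvPolynomial.aeval β)
  have hf : f1 = f2 := by
    refine MvPolynomial.algHom_ext fun i => ?_
    change χ (e (algebraMap A S (MvPolynomial.aeval a₀ (MvPolynomial.X i)))) =
      Ideal.Quotient.mk I (MvPolynomial.aeval β (MvPolynomial.X i))
    rw [MvPolynomial.aeval_X, MvPolynomial.aeval_X, he, hχ]
  let χ' : S →ₐ[MvPolynomial (Fin d) k] B ⧸ I :=
    { (χ.comp e.toAlgHom).toRingHom with
      commutes' := fun p => by
        have := DFunLike.congr_fun hf p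
        exact this }
  obtain ⟨f, hf2⟩ := Algebra.FormallySmooth.exists_lift I hI χ'
  have hf3 : ∀ s : S, Ideal.Quotient.mk I (f s) = χ (e s) := fun s => DFunLike.congr_fun hf2 s
  have hk : ∀ c : k, f (algebraMap k S c) = algebraMap k B c := by
    intro c
    have h2 := f.commutes (MvPolynomial.C c)
    rw [hS, hB, MvPolynomial.aeval_C, MvPolynomial.aeval_C,
      ← IsScalarTower.algebraMap_apply k A S] at h2
    exact h2
  let ψ : R →ₐ[k] B :=
    { f.toRingHom.comp (e.symm : R →ₐ[k] S).toRingHom with
      commutes' := fun c => by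
        change f (e.symm (algebraMap k R c)) = algebraMap k B c
        rw [e.symm.commutes, hk] }
  have hψ : ∀ r : R, ψ r = f (e.symm r) := fun r => rfl
  refine ⟨ψ, fun i => ?_, fun r => ?_⟩
  · rw [hψ, ← he, e.symm_apply_apply]
    have h2 := f.commutes (MvPolynomial.X i)
    rw [hS, hB, MvPolynomial.aeval_X, MvPolynomial.aeval_X] at h2
    exact h2
  · rw [hψ, hf3, e.apply_symm_apply]

theorem tLift : S_Lift := by
  intro k K _ _ _ V _ d a ha hai hsep h hh h0
  obtain ⟨g, hgh, hfs⟩ := Lift_chart k K V d a ha hai hsep ⟨h, hh⟩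
    (fun e => h0 (congrArg Subtype.val e))
  have hft : Algebra.FiniteType k (Algebra.adjoin k (V : Set K)) := Lift_ft k K V
  generalize hgen : g * ⟨h, hh⟩ = q at hgh hfs
  have hq : (q : K) ≠ 0 := fun e => hgh (Subtype.ext e)
  have hu : ∀ y : Submonoid.powers q, IsUnit ((Algebra.adjoin k (V : Set K)).val y) := by
    rintro ⟨_, n, rfl⟩
    exact (IsUnit.mk0 _ hq).pow n
  let φ : Localization.Away q →ₐ[k] K := IsLocalization.liftAlgHom hu
  have hφ : ∀ x : Algebra.adjoin k (V : Set K),
      φ (algebraMap (Algebra.adjoin k (V : Set K)) (Localization.Away q) x) = (x : K) := by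
    intro x
    exact IsLocalization.lift_eq hu x
  have hφi : Function.Injective φ := by
    rw [injective_iff_map_eq_zero]
    intro z hz
    obtain ⟨⟨x, y⟩, hxy⟩ := IsLocalization.surj (Submonoid.powers q) z
    have h1 := congrArg φ hxy
    rw [map_mul, hz, zero_mul, hφ] at h1
    have h2 : x = 0 := Subtype.ext h1.symm
    simp only at hxy
    rw [h2, map_zero] at hxy
    exact (IsLocalization.map_units (Localization.Away q) y).mul_left_eq_zero.mp hxy
  let e : Localization.Away q ≃ₐ[k] φ.range := AlgEquiv.ofInjective φ hφi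
  have he : ∀ s, ((e s : φ.range) : K) = φ s := fun s => rfl
  have hmem : ∀ x : Algebra.adjoin k (V : Set K), (x : K) ∈ φ.range := fun x => ⟨_, hφ x⟩
  have hftS : Algebra.FiniteType k (Localization.Away q) := by
    have h1 : Algebra.FiniteType (Algebra.adjoin k (V : Set K)) (Localization.Away q) :=
      IsLocalization.finiteType_of_monoid_fg (Submonoid.powers q) _
    exact Algebra.FiniteType.trans hft h1
  refine ⟨φ.range, fun i => ⟨a i, hmem ⟨a i, Algebra.subset_adjoin (ha i)⟩⟩, ?_, fun i => rfl,
    fun z hz => hmem ⟨z, Algebra.subset_adjoin hz⟩, ?_, ?_⟩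
  · exact (Subalgebra.fg_iff_finiteType _).mpr (Algebra.FiniteType.equiv hftS e)
  · refine ⟨algebraMap (Algebra.adjoin k (V : Set K)) (Localization.Away q) g *
      IsLocalization.Away.invSelf q, ?_⟩
    have h1 : algebraMap (Algebra.adjoin k (V : Set K)) (Localization.Away q) q *
      IsLocalization.Away.invSelf q = 1 := IsLocalization.Away.mul_invSelf q
    have h2 := congrArg φ h1
    rw [map_mul, map_one, hφ] at h2
    change φ _ = h⁻¹
    rw [map_mul, hφ]
    have h3 : (q : K) = (g : K) * h := by rw [← hgen]; rfl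
    rw [h3] at h2
    refine eq_inv_of_mul_eq_one_left ?_
    rw [← h2]; ring
  · exact Lift_lifts k K (Algebra.adjoin k (V : Set K)) (Localization.Away q) d
      (fun i => ⟨a i, Algebra.subset_adjoin (ha i)⟩) φ.range _ e
      (fun i => Subtype.ext (hφ _)) hfs

end Pool.Agent.Lib.MP_8bcb2e_ag.AC
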