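import Pool.Agent.Lib.MP_8bcb2e_ag.AC.Spec

/-!
# The limit inequality (Lim)
-/

set_option autoImplicit false

namespace Pool.Agent.Lib.MP_8bcb2e_ag.AC

open Pool.Agent.Lib.MP_16285c_agN (Vd cnt)
open Filter Topology Module

/-- The inequality between the limits, multiplied out. -/
private lemma Lim_alg (d e s m D Q : ℕ) (v : ℝ) (hs : 1 ≤ s) (hm : 1 ≤ m) (hD : 1 ≤ D)
    (hv : 0 ≤ v)
    (h : (m : ℝ) ^ e * ((D : ℝ) * (s : ℝ) ^ e / e.factorial) *
      ((Q : ℝ) * ((s : ℝ) ^ d / d.factorial)) ≤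
      v * (2 * (s : ℝ) * m) ^ (d + e) / (d + e).factorial) :
    (Q : ℝ) ≤ 2 ^ (d + e) * v * (m : ℝ) ^ d := by
  have hs0 : (0 : ℝ) < s := by exact_mod_cast hs
  have hm0 : (0 : ℝ) < m := by exact_mod_cast hm
  have hD1 : (1 : ℝ) ≤ D := by exact_mod_cast hD
  have he0 : (0 : ℝ) < e.factorial := by exact_mod_cast e.factorial_pos
  have hd0 : (0 : ℝ) < d.factorial := by exact_mod_cast d.factorial_pos
  have hn0 : (0 : ℝ) < (d + e).factorial := by exact_mod_cast (d + e).factorial_pos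
  have hfac : (e.factorial : ℝ) * d.factorial ≤ (d + e).factorial := by
    have h1 : d.factorial * e.factorial ≤ (d + e).factorial :=
      Nat.le_of_dvd (d + e).factorial_pos (Nat.factorial_mul_factorial_dvd_factorial_add d e)
    have h2 : ((d.factorial * e.factorial : ℕ) : ℝ) ≤ ((d + e).factorial : ℕ) := by
      exact_mod_cast h1
    push_cast at h2
    linarith
  have hQ0 : (0 : ℝ) ≤ Q := Nat.cast_nonneg _
  obtain ⟨Z, hZ⟩ : ∃ Z : ℝ, Z = (m : ℝ) ^ e * (s : ℝ) ^ e * (s : ℝ) ^ d := ⟨_, rfl⟩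
  have hZ0 : 0 < Z := by rw [hZ]; positivity
  have e1 : (m : ℝ) ^ e * ((D : ℝ) * (s : ℝ) ^ e / e.factorial) *
      ((Q : ℝ) * ((s : ℝ) ^ d / d.factorial)) = (Q * D) * Z / (e.factorial * d.factorial) := by
    rw [hZ]
    field_simp
  have e2 : v * (2 * (s : ℝ) * m) ^ (d + e) / (d + e).factorial =
      (2 ^ (d + e) * v * (m : ℝ) ^ d) * Z / (d + e).factorial := by
    rw [hZ, mul_pow, mul_pow, pow_add (s : ℝ), pow_add (m : ℝ)]
    ring
  rw [e1, e2, div_le_div_iff₀ (by positivity) hn0] at h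
  have hR0 : 0 ≤ 2 ^ (d + e) * v * (m : ℝ) ^ d := by positivity
  have h3 : (Q * D) * Z * (d + e).factorial ≤
      (2 ^ (d + e) * v * (m : ℝ) ^ d) * Z * (d + e).factorial :=
    h.trans (mul_le_mul_of_nonneg_left hfac (by positivity))
  have h4 : (Q : ℝ) * D ≤ 2 ^ (d + e) * v * (m : ℝ) ^ d :=
    le_of_mul_le_mul_right (le_of_mul_le_mul_right h3 hn0) hZ0
  nlinarith

/-- **Lim**. -/
theorem tLim (hCnt : S_Cnt) : S_Lim := by
  intro n d e s m D P v A B E hde hs hm hD hBE hE hB hA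
  subst hde
  have hs0 : (0 : ℝ) < s := by exact_mod_cast hs
  have hm0 : (0 : ℝ) < m := by exact_mod_cast hm
  have hn0 : (0 : ℝ) < (d + e).factorial := by exact_mod_cast (d + e).factorial_pos
  have hv : 0 ≤ v := by
    have h1 : 0 ≤ v * (2 * (s : ℝ) * m) ^ (d + e) / (d + e).factorial :=
      ge_of_tendsto' hA fun b => by positivity
    by_contra hcon
    have h2 : v * (2 * (s : ℝ) * m) ^ (d + e) / (d + e).factorial < 0 := by
      have hneg : v * (2 * (s : ℝ) * m) ^ (d + e) < 0 :=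
        mul_neg_of_neg_of_pos (not_le.mp hcon) (by positivity)
      exact div_neg_of_neg_of_pos hneg hn0
    linarith
  have hc := (hCnt.2 d s 1 hs).2
  have hlim := hB.mul (hc.const_mul ((P - d : ℕ) : ℝ))
  have hle := le_of_tendsto_of_tendsto hlim hA (by
    filter_upwards [eventually_ge_atTop 1] with b hb
    have hb0 : (0 : ℝ) < b := by exact_mod_cast hb
    have h1 : B b * ((P - d) * cnt d (s * b - 1)) ≤ A b :=
      (Nat.mul_le_mul_left _ (hE b hb)).trans (hBE b hb)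
    have h2 : (B b : ℝ) * (((P - d : ℕ) : ℝ) * (cnt d (s * b - 1) : ℝ)) ≤ A b := by
      exact_mod_cast h1
    have h3 : (B b : ℝ) / (b : ℝ) ^ e *
        (((P - d : ℕ) : ℝ) * ((cnt d (s * b - 1) : ℝ) / (b : ℝ) ^ d)) =
        (B b : ℝ) * (((P - d : ℕ) : ℝ) * (cnt d (s * b - 1) : ℝ)) / (b : ℝ) ^ (d + e) := by
      rw [pow_add]
      field_simp
    rw [h3]
    exact div_le_div_of_nonneg_right h2 (by positivity))
  have hQ := Lim_alg d e s m D (P - d) v hs hm hD hv hle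
  have hP : (P : ℝ) ≤ ((P - d : ℕ) : ℝ) + d := by
    have : P ≤ (P - d) + d := by omega
    exact_mod_cast this
  linarith

end Pool.Agent.Lib.MP_8bcb2e_ag.AC
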