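import Pool.Agent.Lib.MP_8bcb2e_ag.AC.Spec
import Pool.Agent.Lib.MP_16285c_agN.Degr.NN
import Pool.Agent.Lib.MP_16285c_agN.Degr.Vd

set_option autoImplicit false

namespace Pool.Agent.Lib.MP_8bcb2e_ag.AC

open Pool.Agent.Lib.MP_16285c_agN (Vd cnt)
open Filter Topology Module
open Pool.Agent.Lib.MP_16285c_agN.DegrNNM (mem_Vd Vd_one Vd_mono Vd_mul Vd_gen Vd_le_of_gen)

private theorem Low_alg {κ F : Type} [Field κ] [Field F] [Algebra κ F] {s : ℕ} (l : Fin s → F)
    (a : ℕ) {v : F} (hv : v ∈ Vd κ l a) : v ∈ IntermediateField.adjoin κ (Set.range l) := by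
  rw [mem_Vd] at hv
  obtain ⟨p, -, rfl⟩ := hv
  have h : MvPolynomial.aeval l p ∈ Algebra.adjoin κ (Set.range l) := by
    rw [Algebra.adjoin_range_eq_range_aeval]
    exact ⟨p, rfl⟩
  exact IntermediateField.algebra_adjoin_le_adjoin κ _ h

private theorem Low_clos {κ F : Type} [Field κ] [Field F] [Algebra κ F] {c : ℕ} (x : Fin c → F)
    {y : F} (hy : y ∈ Submonoid.closure (Set.range x)) : ∃ a, y ∈ Vd κ x a := by
  induction hy using Submonoid.closure_induction with
  | mem y hy =>
    obtain ⟨i, rfl⟩ := hy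
    exact ⟨1, Vd_gen x i⟩
  | one => exact ⟨0, Vd_one x 0⟩
  | mul y z _ _ ihy ihz =>
    obtain ⟨a, ha⟩ := ihy
    obtain ⟨b, hb⟩ := ihz
    exact ⟨a + b, Vd_mul x a b y z ha hb⟩

private theorem Low_span {κ F : Type} [Field κ] [Field F] [Algebra κ F] {c : ℕ} (x : Fin c → F)
    (E : IntermediateField κ F) (hx : IntermediateField.adjoin κ (Set.range x) = ⊤)
    [Module.Finite E F] :
    Submodule.span E (Submonoid.closure (Set.range x) : Set F) = ⊤ := by
  have h1 : IntermediateField.adjoin E (Set.range x) = ⊤ := by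
    rw [eq_top_iff]
    intro y _
    have hy : y ∈ IntermediateField.adjoin κ (Set.range x) := by
      rw [hx]
      exact IntermediateField.mem_top
    have hle : IntermediateField.adjoin κ (Set.range x) ≤
        (IntermediateField.adjoin E (Set.range x)).restrictScalars κ := by
      rw [IntermediateField.adjoin_le_iff]
      exact IntermediateField.subset_adjoin E _
    exact hle hy
  have h2 : Algebra.adjoin E (Set.range x) = ⊤ := by
    have h := IntermediateField.adjoin_toSubalgebra_of_isAlgebraic (F := E) (E := F)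
      (S := Set.range x) (fun y _ => Algebra.IsAlgebraic.isAlgebraic y)
    rw [h1] at h
    rw [← h]
    exact IntermediateField.top_toSubalgebra
  rw [← Algebra.adjoin_eq_span, h2]
  exact Algebra.top_toSubmodule

theorem tLow : S_Low := by
  intro κ F _ _ _ c s x l hx hl hlin hfin
  obtain ⟨E, hE⟩ : ∃ E, E = IntermediateField.adjoin κ (Set.range l) := ⟨_, rfl⟩
  rw [← hE] at hfin ⊢
  have hspan := Low_span x E hx
  obtain ⟨b, hbs, hbspan, hbli⟩ :=
    exists_linearIndependent E (Submonoid.closure (Set.range x) : Set F)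
  have hbtop : ⊤ ≤ Submodule.span E (Set.range (Subtype.val : b → F)) := by
    rw [Subtype.range_coe, hbspan, hspan]
  let B : Basis b E F := Basis.mk hbli hbtop
  have : Finite b := Module.Finite.finite_basis B
  let _ : Fintype b := Fintype.ofFinite b
  have hdeg : ∀ y : b, ∃ a, (y : F) ∈ Vd κ x a := fun y => Low_clos x (hbs y.2)
  choose dg hdg using hdeg
  obtain ⟨C, hC⟩ : ∃ C, C = Finset.univ.sup dg := ⟨_, rfl⟩
  refine ⟨C, fun a => ?_⟩
  have hm : ∀ y : b, (y : F) ∈ Vd κ x C := fun y => by
    rw [hC]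
    exact Vd_mono x _ _ (Finset.le_sup (Finset.mem_univ y)) (hdg y)
  have hD : finrank E F = Fintype.card b := Module.finrank_eq_card_basis B
  have hle : Vd κ l a ≤ Vd κ x a := by
    refine Vd_le_of_gen l x (fun i => ?_) a
    refine (Submodule.span_le.2 ?_) (hlin i)
    rintro _ ⟨j, rfl⟩
    exact Vd_gen x j
  have := Pool.Agent.Lib.MP_16285c_agN.tVd.1 κ F c x (a + C)
  have := Pool.Agent.Lib.MP_16285c_agN.tVd.1 κ F s l a
  let φ : (b → ↥(Vd κ l a)) →ₗ[κ] F :=
    { toFun := fun v => ∑ i, (v i : F) * (i : F)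
      map_add' := by
        intro v w
        simp only [Pi.add_apply, Submodule.coe_add, add_mul, Finset.sum_add_distrib]
      map_smul' := by
        intro r v
        simp only [Pi.smul_apply, Submodule.coe_smul, smul_mul_assoc, Finset.smul_sum,
          RingHom.id_apply] }
  have hφ : ∀ v, φ v ∈ Vd κ x (a + C) := fun v =>
    Submodule.sum_mem _ fun i _ => Vd_mul x a C _ _ (hle (v i).2) (hm i)
  have hinj : Function.Injective (φ.codRestrict (Vd κ x (a + C)) hφ) := by
    rw [injective_iff_map_eq_zero]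
    intro v hv
    have h0 : ∑ i : b, (v i : F) * (i : F) = 0 := congrArg Subtype.val hv
    have hvE : ∀ i, (v i : F) ∈ E := fun i => by
      rw [hE]
      exact Low_alg l a (v i).2
    have h1 := (Fintype.linearIndependent_iff.1 hbli) (fun i => (⟨(v i : F), hvE i⟩ : E)) (by
      rw [← h0]
      exact Finset.sum_congr rfl fun i _ => rfl)
    funext i
    apply Subtype.ext
    have h3 : ((⟨(v i : F), hvE i⟩ : E) : F) = 0 := by
      rw [h1 i]
      rfl
    exact h3
  have h2 := LinearMap.finrank_le_finrank_of_injective hinj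
  rw [Module.finrank_pi_fintype, Finset.sum_const, Finset.card_univ, smul_eq_mul,
    Pool.Agent.Lib.MP_16285c_agN.tVd.2 κ F s l a hl] at h2
  rw [hD]
  exact h2

end Pool.Agent.Lib.MP_8bcb2e_ag.AC
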