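import Pool.Agent.Lib.MP_8bcb2e_ag.AC.Spec

set_option autoImplicit false

namespace Pool.Agent.Lib.MP_8bcb2e_ag.AC

open Pool.Agent.Lib.MP_16285c_agN (Vd cnt)
open Filter Topology Module

/-- The contradiction with all quantities as rational numbers: `a = 4 ^ n`, `b = (n + 1) ^ (n - 1)`,
`w = 2 ^ n`. -/
private theorem Num_core (n C P v T t a b w : ℚ) (hn : 1 ≤ n) (hC : 1 ≤ C) (hv : 1 ≤ v) (hT : 1 ≤ T)
    (hb : 1 ≤ b) (hw : 1 < w) (haw : a = w * w) (ht : a * (b * (n + 1)) * C ≤ t)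
    (h1 : v * (t * T) ≤ w * (C * P)) (h2 : P ≤ n + w * v * (T * b)) : False := by
  have hw0 : 0 < w := by linarith
  have hC0 : 0 < C := by linarith
  have hvT : 1 ≤ v * T := one_le_mul_of_one_le_of_one_le hv hT
  have hvT0 : 0 < v * T := by linarith
  have h3 : w * (C * P) ≤ w * (C * (n + w * v * (T * b))) :=
    mul_le_mul_of_nonneg_left (mul_le_mul_of_nonneg_left h2 hC0.le) hw0.le
  have h4 : (v * T) * (a * (b * (n + 1)) * C) ≤ (v * T) * t := mul_le_mul_of_nonneg_left ht hvT0.le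
  have h5 : (v * T) * (w * w * (b * (n + 1)) * C) ≤ w * (C * (n + w * v * (T * b))) := by
    rw [← haw]
    calc (v * T) * (a * (b * (n + 1)) * C) ≤ (v * T) * t := h4
      _ = v * (t * T) := by ring
      _ ≤ w * (C * P) := h1
      _ ≤ _ := h3
  have h6 : (w * C * n) * (v * T * w * b) ≤ (w * C * n) * 1 := by nlinarith [h5]
  have hpos : 0 < w * C * n := by positivity
  have h7 : v * T * w * b ≤ 1 := le_of_mul_le_mul_left h6 hpos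
  have h8 : 1 * w ≤ (v * T) * w := mul_le_mul_of_nonneg_right hvT hw0.le
  have h9 : (v * T * w) * 1 ≤ v * T * w * b := mul_le_mul_of_nonneg_left hb (by positivity)
  linarith

theorem tNum : S_Num := by
  intro n C m₁ i P v hn hC hm hi hv h1 h2
  obtain ⟨k, rfl⟩ : ∃ k, n = k + 1 := ⟨n - 1, by omega⟩
  have hk : k + 1 - 1 = k := rfl
  rw [hk] at h2
  have hC' : (1 : ℚ) ≤ C := by exact_mod_cast hC
  have hm' : (1 : ℚ) ≤ m₁ := by exact_mod_cast hm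
  have hi' : ((i : ℚ) + 1) ≤ (k : ℚ) + 2 := by
    have : i + 1 ≤ k + 2 := by omega
    exact_mod_cast this
  have hk2 : (1 : ℚ) ≤ (k : ℚ) + 2 := by
    have : (0 : ℚ) ≤ (k : ℚ) := Nat.cast_nonneg k
    linarith
  have h4 : (1 : ℚ) ≤ 4 ^ (k + 1) := one_le_pow₀ (by norm_num)
  have hb : (1 : ℚ) ≤ ((k : ℚ) + 2) ^ k := one_le_pow₀ hk2
  have hb' : (1 : ℚ) ≤ ((k : ℚ) + 2) ^ (k + 1) := one_le_pow₀ hk2
  have ht' : ((4 ^ (k + 1) * (k + 1 + 1) ^ (k + 1) * C * m₁ : ℕ) : ℚ) =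
      4 ^ (k + 1) * ((k : ℚ) + 2) ^ (k + 1) * C * m₁ := by
    push_cast
    ring
  have ht'' : ((4 ^ (k + 1) * (k + 1 + 1) ^ (k + 1) * C * m₁ * (i + 1) : ℕ) : ℚ) =
      (4 ^ (k + 1) * ((k : ℚ) + 2) ^ (k + 1) * C * m₁) * ((i : ℚ) + 1) := by
    push_cast
    ring
  rw [ht'] at h1
  rw [ht''] at h2
  have hA : (1 : ℚ) ≤ 4 ^ (k + 1) * ((k : ℚ) + 2) ^ (k + 1) * C :=
    one_le_mul_of_one_le_of_one_le (one_le_mul_of_one_le_of_one_le h4 hb') hC'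
  have hA1 : (1 : ℚ) ≤ 4 ^ (k + 1) * ((k : ℚ) + 2) ^ (k + 1) * C * m₁ :=
    one_le_mul_of_one_le_of_one_le hA hm'
  have hT : (1 : ℚ) ≤ (4 ^ (k + 1) * ((k : ℚ) + 2) ^ (k + 1) * C * m₁) ^ k := one_le_pow₀ hA1
  refine Num_core ((k : ℚ) + 1) C P v ((4 ^ (k + 1) * ((k : ℚ) + 2) ^ (k + 1) * C * m₁) ^ k)
    (4 ^ (k + 1) * ((k : ℚ) + 2) ^ (k + 1) * C * m₁) (4 ^ (k + 1)) (((k : ℚ) + 2) ^ k) (2 ^ (k + 1))
    (by have : (0 : ℚ) ≤ (k : ℚ) := Nat.cast_nonneg k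
        linarith) hC' hv hT hb (one_lt_pow₀ (by norm_num) (by omega)) ?_ ?_ ?_ ?_
  · rw [← mul_pow]; norm_num
  · have e : (4 : ℚ) ^ (k + 1) * (((k : ℚ) + 2) ^ k * ((k : ℚ) + 1 + 1)) * C =
        4 ^ (k + 1) * ((k : ℚ) + 2) ^ (k + 1) * C := by ring
    rw [e]
    exact le_mul_of_one_le_right (by linarith) hm'
  · calc v * ((4 ^ (k + 1) * ((k : ℚ) + 2) ^ (k + 1) * C * m₁) *
          (4 ^ (k + 1) * ((k : ℚ) + 2) ^ (k + 1) * C * m₁) ^ k)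
        = v * (4 ^ (k + 1) * ((k : ℚ) + 2) ^ (k + 1) * C * m₁) ^ (k + 1) := by
          rw [← pow_succ' (4 ^ (k + 1) * ((k : ℚ) + 2) ^ (k + 1) * (C : ℚ) * m₁) k]
      _ ≤ _ := h1
  · refine h2.trans ?_
    have hpow : ((4 ^ (k + 1) * ((k : ℚ) + 2) ^ (k + 1) * C * m₁) * ((i : ℚ) + 1)) ^ k ≤
        (4 ^ (k + 1) * ((k : ℚ) + 2) ^ (k + 1) * C * m₁) ^ k * ((k : ℚ) + 2) ^ k := by
      rw [mul_pow]
      refine mul_le_mul_of_nonneg_left (pow_le_pow_left₀ (by positivity) hi' k) (by linarith)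
    have h0 : (0 : ℚ) ≤ 2 ^ (k + 1) * v := by
      have : (0 : ℚ) ≤ 2 ^ (k + 1) := by positivity
      exact mul_nonneg this (by linarith)
    have := mul_le_mul_of_nonneg_left hpow h0
    push_cast
    linarith

end Pool.Agent.Lib.MP_8bcb2e_ag.AC
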