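import Pool.Agent.Lib.MP_8bcb2e_ag.AC.Spec

/-!
Project AC (MP_8bcb2e_ag), module One: generically finite if `P_m > n + 2 ^ n v m ^ (n-1)`.
-/

set_option autoImplicit false

namespace Pool.Agent.Lib.MP_8bcb2e_ag.AC

open Pool.Agent.Lib.MP_16285c_agN (Vd cnt)
open Filter Topology Module

theorem tOne (hAbs : S_Abs) (hVol : S_Vol) (hTd : S_Td) : S_One := by
  intro k K _ _ _ _ n s₁ s₂ V χ hn hS m hm hlt
  obtain ⟨_, D, hD, hv⟩ := hVol k K n s₁ s₂ V χ hn hS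
  obtain ⟨d, e, _, hd, _, hlt2⟩ := hTd.1 k K n hS.trd (ratioField k (V m : Set K))
  have hD' : (1 : ℚ) ≤ (n.factorial : ℚ) * χ.coeff n := by
    rw [hv]
    exact_mod_cast hD
  have hm' : (1 : ℚ) ≤ m := by exact_mod_cast hm
  have hpos : (0 : ℚ) < (finrank k (V m) : ℚ) := by
    have h1 : (0 : ℚ) ≤ 2 ^ n * ((n.factorial : ℚ) * χ.coeff n) * (m : ℚ) ^ (n - 1) := by positivity
    have h2 : (1 : ℚ) ≤ n := by exact_mod_cast hn
    linarith
  have hne : V m ≠ ⊥ := by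
    intro h0
    rw [h0, finrank_bot] at hpos
    simp at hpos
  by_contra hng
  have hdn : d < n := hlt2 hng
  have hA := hAbs k K n s₁ s₂ V χ hn hS m hm hne d hd
  have h1 : (m : ℚ) ^ d ≤ (m : ℚ) ^ (n - 1) := pow_le_pow_right₀ hm' (by omega)
  have h2 : 2 ^ n * ((n.factorial : ℚ) * χ.coeff n) * (m : ℚ) ^ d ≤
      2 ^ n * ((n.factorial : ℚ) * χ.coeff n) * (m : ℚ) ^ (n - 1) :=
    mul_le_mul_of_nonneg_left h1 (by positivity)
  have h3 : (d : ℚ) ≤ n := by exact_mod_cast hdn.le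
  linarith

end Pool.Agent.Lib.MP_8bcb2e_ag.AC
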