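import Pool.Agent.Lib.MP_8bcb2e_ag.AC.Fin

/-!
# A lower bound for plurigenera from the Frobenius trace: the step

If `x i = y i / y 0` for sections `y 0, y 1, …, y n` of `bK_X` and the `d(x i)` form a basis of the
differentials, then `g ↦ (T (x ^ α * y 0 ^ (n (p - 1)) * g))_α`, `0 ≤ α i < p`, is an injective map from
`H⁰((p (m - c) + c) K_X)` to `H⁰(mK_X) ^ (p ^ n)`, `c = 1 + n b`.
-/

set_option autoImplicit false

universe u

namespace Pool.Agent.Lib.MP_8bcb2e_ag.AC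

open KaehlerDifferential Module

section

variable {k K : Type u} [Field k] [Field K] [Algebra k K] {n : ℕ}
  {Ψ : Ω[K⁄k] [⋀^Fin n]→ₗ[K] K} {𝒪 : Set (Subring K)}

/-- an element all of whose twisted traces vanish is zero -/
theorem eq_zero_of_traces (hPB : PBasis.{u}) [PerfectField k] {p : ℕ} [Fact p.Prime] [CharP k p]
    [Algebra.EssFiniteType k K] {x : Fin n → K} (hx : IsDiffBasis k x) (hΨ : Ψ ≠ 0) {T : K → K}
    (hT : IsFrobTrace k Ψ p T) {h : K}
    (h0 : ∀ α : Fin n → Fin p, T ((∏ i, x i ^ (α i : ℕ)) * h) = 0) : h = 0 := by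
  by_contra hne
  have hall : ∀ y : K, T (y * h) = 0 := by
    intro y
    obtain ⟨c, hc⟩ := hPB k K p n x hx y
    have h1 : y * h = ∑ α, c α ^ p * ((∏ i, x i ^ (α i : ℕ)) * h) := by
      rw [hc, Finset.sum_mul]
      exact Finset.sum_congr rfl fun α _ => by rw [mul_assoc]
    rw [h1, hT.map_sum]
    refine Finset.sum_eq_zero fun α _ => ?_
    rw [hT.map_pow_mul, h0, mul_zero]
  have h2 := hall (((∏ i, x i) ^ (p - 1) * Ψ fun i => D k K (x i)) / h)
  rw [div_mul_cancel₀ _ hne, hT.map_log x] at h2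
  exact psi_ne_zero Ψ hx hΨ h2

/-- the twisted traces of a section are sections -/
theorem trace_twist_mem (hPB : PBasis.{u}) (hTM : TraceMonomial.{u}) (hTop : TopMem.{u})
    [PerfectField k] {p : ℕ} [Fact p.Prime] [CharP k p] [Algebra.EssFiniteType k K]
    (h𝒪 : IsSmoothModel k n 𝒪) {T : K → K} (hT : IsFrobTrace k Ψ p T) {b : ℕ} {y₀ : K}
    {y : Fin n → K} (hy0 : y₀ ≠ 0) (hy₀ : y₀ ∈ sections k Ψ 𝒪 b)
    (hy : ∀ i, y i ∈ sections k Ψ 𝒪 b) {m : ℕ} (hm : 1 + n * b ≤ m) {g : K}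
    (hg : g ∈ sections k Ψ 𝒪 (p * (m - (1 + n * b)) + (1 + n * b))) (α : Fin n → Fin p) :
    T ((∏ i, (y i / y₀) ^ (α i : ℕ)) * (y₀ ^ (n * (p - 1)) * g)) ∈ sections k Ψ 𝒪 m := by
  have hp : 0 < p := (Fact.out : p.Prime).pos
  -- the factor for one index
  have hfac : ∀ i, y i ^ (α i : ℕ) * y₀ ^ (p - 1 - (α i : ℕ)) ∈ sections k Ψ 𝒪 ((p - 1) * b) := by
    intro i
    have h1 := sections_mul h𝒪 (sections_pow h𝒪 (hy i) (α i : ℕ))
      (sections_pow h𝒪 hy₀ (p - 1 - (α i : ℕ)))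
    have h2 : (α i : ℕ) * b + (p - 1 - (α i : ℕ)) * b = (p - 1) * b := by
      rw [← add_mul]
      congr 1
      have := (α i).2
      omega
    rwa [h2] at h1
  have hprod : ∀ s : Finset (Fin n), ∏ i ∈ s, (y i ^ (α i : ℕ) * y₀ ^ (p - 1 - (α i : ℕ))) ∈
      sections k Ψ 𝒪 (s.card * ((p - 1) * b)) := by
    classical
    intro s
    induction s using Finset.induction_on with
    | empty =>
      have := algebraMap_mem_sections (Ψ := Ψ) h𝒪 (1 : k)
      simpa using this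
    | insert j s hj ih =>
      rw [Finset.prod_insert hj, Finset.card_insert_of_notMem hj]
      have h1 := sections_mul h𝒪 (hfac j) ih
      have h2 : (p - 1) * b + s.card * ((p - 1) * b) = (s.card + 1) * ((p - 1) * b) := by ring
      rwa [h2] at h1
  have hmon : (∏ i, (y i / y₀) ^ (α i : ℕ)) * y₀ ^ (n * (p - 1)) =
      ∏ i, (y i ^ (α i : ℕ) * y₀ ^ (p - 1 - (α i : ℕ))) := by
    have h1 : y₀ ^ (n * (p - 1)) = ∏ _i : Fin n, y₀ ^ (p - 1) := by
      rw [Finset.prod_const, Finset.card_univ, Fintype.card_fin, ← pow_mul, mul_comm]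
    rw [h1, ← Finset.prod_mul_distrib]
    refine Finset.prod_congr rfl fun i _ => ?_
    have h3 : p - 1 = (α i : ℕ) + (p - 1 - (α i : ℕ)) := by
      have := (α i).2
      omega
    conv_lhs => rw [h3]
    rw [pow_add, div_pow, ← mul_assoc, div_mul_cancel₀ _ (pow_ne_zero _ hy0)]
  have hsec : (∏ i, (y i / y₀) ^ (α i : ℕ)) * (y₀ ^ (n * (p - 1)) * g) ∈
      sections k Ψ 𝒪 (1 + p * (m - 1)) := by
    rw [← mul_assoc, hmon]
    have h1 := sections_mul h𝒪 (hprod Finset.univ) hg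
    rw [Finset.card_univ, Fintype.card_fin] at h1
    obtain ⟨q, rfl⟩ : ∃ q, p = q + 1 := ⟨p - 1, by omega⟩
    obtain ⟨d, rfl⟩ := Nat.exists_eq_add_of_le hm
    have h2 : n * ((q + 1 - 1) * b) + ((q + 1) * (1 + n * b + d - (1 + n * b)) + (1 + n * b)) =
        1 + (q + 1) * (1 + n * b + d - 1) := by
      have e1 : 1 + n * b + d - (1 + n * b) = d := by omega
      have e2 : 1 + n * b + d - 1 = n * b + d := by omega
      have e3 : q + 1 - 1 = q := by omega
      rw [e1, e2, e3]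
      ring
    rwa [h2] at h1
  have h3 := trace_sections hPB hTM hTop hT h𝒪 hsec
  have h4 : 1 + (m - 1) = m := by omega
  rwa [h4] at h3

/-- **The step**: `h⁰((p (m - c) + c) K_X) ≤ p ^ n h⁰(mK_X)`, `c = 1 + n b`. -/
theorem finrank_step (hPB : PBasis.{u}) (hTM : TraceMonomial.{u}) (hTop : TopMem.{u})
    [PerfectField k] {p : ℕ} [Fact p.Prime] [CharP k p] [Algebra.EssFiniteType k K]
    (h𝒪 : IsSmoothModel k n 𝒪) (hΨ : Ψ ≠ 0) {T : K → K} (hT : IsFrobTrace k Ψ p T)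
    (hfin : ∀ m, FiniteDimensional k (H0 k Ψ 𝒪 m)) {b : ℕ} {y₀ : K}
    {y : Fin n → K} (hy0 : y₀ ≠ 0) (hy₀ : y₀ ∈ sections k Ψ 𝒪 b)
    (hy : ∀ i, y i ∈ sections k Ψ 𝒪 b) (hx : IsDiffBasis k fun i => y i / y₀) {m : ℕ}
    (hm : 1 + n * b ≤ m) :
    finrank k (H0 k Ψ 𝒪 (p * (m - (1 + n * b)) + (1 + n * b))) ≤
      p ^ n * finrank k (H0 k Ψ 𝒪 m) := by
  have := hfin (p * (m - (1 + n * b)) + (1 + n * b))
  have := hfin m
  set M := p * (m - (1 + n * b)) + (1 + n * b) with hM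
  let bs := finBasis k (H0 k Ψ 𝒪 M)
  have hbs : ∀ j, (bs j : K) ∈ sections k Ψ 𝒪 M := fun j => by
    have h1 : (bs j : K) ∈ (H0 k Ψ 𝒪 M : Set K) := (bs j).2
    rwa [coe_H0 h𝒪] at h1
  -- the twisted traces
  have hmem : ∀ (g : K), g ∈ sections k Ψ 𝒪 M → ∀ α : Fin n → Fin p,
      T ((∏ i, (y i / y₀) ^ (α i : ℕ)) * (y₀ ^ (n * (p - 1)) * g)) ∈ H0 k Ψ 𝒪 m :=
    fun g hg α => Submodule.subset_span
      (trace_twist_mem hPB hTM hTop h𝒪 hT hy0 hy₀ hy hm hg α)
  let Φ : Fin (finrank k (H0 k Ψ 𝒪 M)) → ((Fin n → Fin p) → H0 k Ψ 𝒪 m) :=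
    fun j α => ⟨_, hmem (bs j : K) (hbs j) α⟩
  have hli : LinearIndependent k Φ := by
    rw [Fintype.linearIndependent_iff]
    intro a ha
    -- the combination with the `p`-th powers of the coefficients
    have hz : ∑ j, algebraMap k K (a j) ^ p * (bs j : K) = 0 := by
      have h1 : y₀ ^ (n * (p - 1)) * ∑ j, algebraMap k K (a j) ^ p * (bs j : K) = 0 := by
        apply eq_zero_of_traces hPB hx hΨ hT
        intro α
        have h2 : (∏ i, (y i / y₀) ^ (α i : ℕ)) *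
            (y₀ ^ (n * (p - 1)) * ∑ j, algebraMap k K (a j) ^ p * (bs j : K)) =
            ∑ j, algebraMap k K (a j) ^ p *
              ((∏ i, (y i / y₀) ^ (α i : ℕ)) * (y₀ ^ (n * (p - 1)) * (bs j : K))) := by
          rw [Finset.mul_sum, Finset.mul_sum]
          exact Finset.sum_congr rfl fun j _ => by ring
        rw [h2, hT.map_sum]
        have h3 := congrFun ha α
        have h4 := congrArg (Subtype.val) h3
        simp only [Finset.sum_apply, Pi.smul_apply, Pi.zero_apply, Submodule.coe_sum,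
          Submodule.coe_smul, ZeroMemClass.coe_zero] at h4
        rw [← h4]
        refine Finset.sum_congr rfl fun j _ => ?_
        rw [hT.map_pow_mul, Algebra.smul_def]
      rcases mul_eq_zero.1 h1 with h | h
      · exact absurd h (pow_ne_zero _ hy0)
      · exact h
    have hz' : ∑ j, (a j ^ p) • bs j = 0 := by
      apply Subtype.ext
      rw [Submodule.coe_sum]
      simp only [Submodule.coe_smul, ZeroMemClass.coe_zero]
      rw [← hz]
      exact Finset.sum_congr rfl fun j _ => by rw [Algebra.smul_def, map_pow]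
    intro j
    have h5 := Fintype.linearIndependent_iff.1 bs.linearIndependent _ hz' j
    exact pow_eq_zero_iff (Fact.out : p.Prime).ne_zero |>.1 h5
  have h6 := hli.fintype_card_le_finrank
  rw [Fintype.card_fin] at h6
  refine h6.trans ?_
  rw [Module.finrank_pi_fintype]
  simp

end

end Pool.Agent.Lib.MP_8bcb2e_ag.AC
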