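import Pool.Agent.Lib.MP_8bcb2e_ag.AC.PlA

/-!
# Sections of a birational system whose quotients are separating coordinates
-/

set_option autoImplicit false

universe u

namespace Pool.Agent.Lib.MP_8bcb2e_ag.AC

open KaehlerDifferential Module

section

variable {k K : Type u} [Field k] [Field K] [Algebra k K] {n : ℕ}

/-- the differentials of generators of the field span the differentials -/
theorem span_D_eq_top (C : Set K) (hC : IntermediateField.adjoin k C = ⊤) :
    Submodule.span K (D k K '' C) = ⊤ := by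
  rw [eq_top_iff, ← KaehlerDifferential.span_range_derivation, Submodule.span_le]
  rintro _ ⟨y, rfl⟩
  have hy : y ∈ IntermediateField.adjoin k C := by rw [hC]; trivial
  change D k K y ∈ Submodule.span K (D k K '' C)
  induction hy using IntermediateField.adjoin_induction with
  | mem x hx => exact Submodule.subset_span ⟨x, hx, rfl⟩
  | algebraMap x => rw [Derivation.map_algebraMap]; exact zero_mem _
  | add x y _ _ h1 h2 => rw [map_add]; exact add_mem h1 h2
  | inv x _ h1 =>
    rw [Derivation.leibniz_inv]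
    exact Submodule.smul_mem _ _ h1
  | mul x y _ _ h1 h2 =>
    rw [Derivation.leibniz]
    exact add_mem (Submodule.smul_mem _ _ h2) (Submodule.smul_mem _ _ h1)

/-- a basis of the differentials among the differentials of field generators -/
theorem exists_diffBasis_of_adjoin {x : Fin n → K} (hx : IsDiffBasis k x) (C : Set K)
    (hC : IntermediateField.adjoin k C = ⊤) :
    ∃ z : Fin n → K, (∀ i, z i ∈ C) ∧ IsDiffBasis k z := by
  obtain ⟨b, hb⟩ := hx
  have hspan := span_D_eq_top C hC
  obtain ⟨B, hBs, hBspan, hBli⟩ := exists_linearIndependent K (D k K '' C)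
  rw [hspan] at hBspan
  let bas : Basis B K Ω[K⁄k] := Basis.mk hBli (by rw [Subtype.range_coe, hBspan])
  let e : B ≃ Fin n := bas.indexEquiv b
  have hmem : ∀ i, ((e.symm i : B) : Ω[K⁄k]) ∈ D k K '' C := fun i => hBs (e.symm i).2
  choose z hz hz' using hmem
  refine ⟨z, hz, bas.reindex e, fun i => ?_⟩
  rw [Basis.reindex_apply, Basis.mk_apply, hz']

variable {Ψ : Ω[K⁄k] [⋀^Fin n]→ₗ[K] K} {𝒪 : Set (Subring K)}

/-- **Separating coordinates** that are quotients of elements of a system defining a birational map. -/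
theorem exists_coord_of_birational (hC : SepExists.{u}) [PerfectField k] [Algebra.EssFiniteType k K]
    (hn : 1 ≤ n) (h𝒪 : IsSmoothModel k n 𝒪) {V : Set K} (hV : Birational k V) :
    ∃ (y₀ : K) (y : Fin n → K), y₀ ≠ 0 ∧ y₀ ∈ V ∧ (∀ i, y i ∈ V) ∧
      IsDiffBasis k fun i => y i / y₀ := by
  obtain ⟨x, hx⟩ := exists_diffBasis h𝒪
  have hgf : GenericallyFinite k V := by
    rw [GenericallyFinite, show ratioField k V = ⊤ from hV]
    exact ⟨fun a => isAlgebraic_algebraMap (⟨a, trivial⟩ : (⊤ : IntermediateField k K))⟩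
  obtain ⟨S, -, hS0, hS, -, -⟩ := exists_sections hC hn hx hgf
  have h1 : IntermediateField.adjoin k {c | ∃ a ∈ V, c = a / S} = ⊤ := by
    rw [← ratioField_le hS0 hS]
    exact hV
  obtain ⟨z, hz, hzb⟩ := exists_diffBasis_of_adjoin hx _ h1
  choose y hy hzy using hz
  refine ⟨S, y, hS0, hS, hy, ?_⟩
  have h2 : (fun i => y i / S) = z := funext fun i => (hzy i).symm
  rw [h2]
  exact hzb

/-- a subset of the sections with a birational map -/
theorem birational_mono {V W : Set K} (hVW : V ⊆ W) (hV : Birational k V) : Birational k W := by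
  rw [Birational, eq_top_iff, ← show ratioField k V = ⊤ from hV]
  refine IntermediateField.adjoin.mono k _ _ ?_
  rintro c ⟨a, ha, b, hb, h⟩
  exact ⟨a, hVW ha, b, hVW hb, h⟩

/-- `S⁰` consists of sections -/
theorem S0_subset (hPB : PBasis.{u}) (hTM : TraceMonomial.{u}) (hTop : TopMem.{u})
    [PerfectField k] {p : ℕ} [Fact p.Prime] [CharP k p] [Algebra.EssFiniteType k K]
    (h𝒪 : IsSmoothModel k n 𝒪) {T : K → K} (hT : IsFrobTrace k Ψ p T) (s : ℕ) :
    S0 k Ψ p T 𝒪 (1 + s) ⊆ sections k Ψ 𝒪 (1 + s) := by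
  intro F hF
  obtain ⟨G, hG, rfl⟩ := hF 1 le_rfl
  have h1 : 1 + s - 1 = s := by omega
  rw [h1] at hG
  exact trace_iter_sections hPB hTM hTop hT h𝒪 1 hG

end

end Pool.Agent.Lib.MP_8bcb2e_ag.AC
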