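import Pool.Agent.Lib.MP_8bcb2e_ag.AC.Spec

/-!
# Explicit pluricanonical multiples.  Module Point (projection from a point: assembly)
-/

set_option autoImplicit false

namespace Pool.Agent.Lib.MP_8bcb2e_ag.AC

open Pool.Agent.Lib.MP_16285c_agN (Vd cnt)
open Filter Topology Module

private theorem Point_mv {k K : Type} [Field k] [Field K] [Algebra k K] (S : Subalgebra k K) {d : ℕ}
    (a : Fin d → K) (ha : ∀ i, a i ∈ S) (p : MvPolynomial (Fin d) k) :
    MvPolynomial.eval₂Hom (algebraMap k K) a p ∈ S := by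
  induction p using MvPolynomial.induction_on with
  | C c =>
    rw [MvPolynomial.coe_eval₂Hom, MvPolynomial.eval₂_C]
    exact S.algebraMap_mem c
  | add p q hp hq =>
    rw [map_add]
    exact S.add_mem hp hq
  | mul_X p i hp =>
    rw [map_mul]
    refine S.mul_mem hp ?_
    rw [MvPolynomial.coe_eval₂Hom, MvPolynomial.eval₂_X]
    exact ha i

private theorem Point_poly {k K : Type} [Field k] [Field K] [Algebra k K] (S : Subalgebra k K) {d : ℕ}
    (a : Fin d → K) (ha : ∀ i, a i ∈ S) (z : K) (hz : z ∈ S)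
    (P : Polynomial (MvPolynomial (Fin d) k)) :
    P.eval₂ (MvPolynomial.eval₂Hom (algebraMap k K) a) z ∈ S := by
  rw [Polynomial.eval₂_eq_sum, Polynomial.sum]
  exact S.sum_mem (fun i _ => S.mul_mem (Point_mv S a ha _) (S.pow_mem hz i))

/-- The dimension of the space of the elements that vanish at a point. -/
private theorem Point_fin {k K : Type} [Field k] [Field K] [Algebra k K] (R : Subalgebra k K)
    (χ : R →ₐ[k] k) (V : Submodule k K) [FiniteDimensional k V] (h1 : (1 : K) ∈ V)
    (hVR : ∀ z ∈ V, z ∈ R) : finrank k ↥(vanish R χ V) + 1 = finrank k V := by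
  let ι : V →ₗ[k] R :=
    { toFun := fun v => ⟨(v : K), hVR v v.2⟩
      map_add' := fun _ _ => rfl
      map_smul' := fun _ _ => rfl }
  let φ : V →ₗ[k] k := χ.toLinearMap ∘ₗ ι
  have hφ1 : φ ⟨1, h1⟩ = 1 := by
    change χ (ι ⟨1, h1⟩) = 1
    have h2 : ι ⟨1, h1⟩ = 1 := rfl
    rw [h2, map_one]
  have hr : LinearMap.range φ = ⊤ := by
    rw [LinearMap.range_eq_top]
    intro c
    refine ⟨c • ⟨1, h1⟩, ?_⟩
    rw [map_smul, hφ1, smul_eq_mul, mul_one]
  have hk : (LinearMap.ker φ).map V.subtype = vanish R χ V := by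
    ext x
    unfold vanish
    rw [Submodule.mem_map, Submodule.mem_inf, Submodule.mem_map]
    constructor
    · rintro ⟨v, hv, rfl⟩
      rw [LinearMap.mem_ker] at hv
      refine ⟨v.2, ι v, ?_, rfl⟩
      rw [LinearMap.mem_ker]
      exact hv
    · rintro ⟨hx, y, hy, rfl⟩
      rw [LinearMap.mem_ker] at hy
      refine ⟨⟨_, hx⟩, ?_, rfl⟩
      rw [LinearMap.mem_ker]
      have h3 : ι ⟨R.val.toLinearMap y, hx⟩ = y := Subtype.ext rfl
      change χ (ι ⟨R.val.toLinearMap y, hx⟩) = 0
      rw [h3]
      exact hy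
  have h4 : finrank k ↥(vanish R χ V) = finrank k ↥(LinearMap.ker φ) := by
    rw [← hk]
    exact (LinearEquiv.finrank_eq
      (Submodule.equivMapOfInjective V.subtype V.injective_subtype (LinearMap.ker φ))).symm
  have h5 := LinearMap.finrank_range_add_finrank_ker φ
  rw [hr, finrank_top, Module.finrank_self] at h5
  omega

theorem tPoint (hSep : S_Sep) (hClr : S_Clr) (hLift : S_Lift) (hPt : S_Pt) (hDim : S_Dim)
    (hTr : S_Tr) : S_Point := by
  intro k K _ _ _ _ V _ h1 d htr hd
  obtain ⟨a, haV, haI, hsep⟩ := hSep k K V h1 d htr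
  have hz : ∃ z ∈ V, z ∉ Submodule.span k (insert 1 (Set.range a)) := by
    by_contra hc
    have hle : V ≤ Submodule.span k (insert 1 (Set.range a)) := by
      intro z hz
      by_contra hn
      exact hc ⟨z, hz, hn⟩
    have hfin : (insert (1 : K) (Set.range a)).Finite := (Set.finite_range a).insert 1
    have : FiniteDimensional k (Submodule.span k (insert 1 (Set.range a))) :=
      FiniteDimensional.span_of_finite k hfin
    have h2 : finrank k V ≤ finrank k (Submodule.span k (insert 1 (Set.range a))) :=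
      Submodule.finrank_mono hle
    have h3 : finrank k (Submodule.span k (insert 1 (Set.range a))) ≤ d + 1 := by
      have h4 := finrank_range_le_card (R := k) (Fin.cons 1 a : Fin (d + 1) → K)
      rw [Fin.range_cons, Fintype.card_fin] at h4
      exact h4
    omega
  obtain ⟨z, hzV, hzn⟩ := hz
  obtain ⟨G, hG0, hG1⟩ := hClr k K d a z (hsep z hzV)
  have hadj : G.derivative.eval₂ (MvPolynomial.eval₂Hom (algebraMap k K) a) z ∈
      Algebra.adjoin k (V : Set K) :=
    Point_poly _ a (fun i => Algebra.subset_adjoin (haV i)) z (Algebra.subset_adjoin hzV) _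
  obtain ⟨R, a', hRfg, ha', hVR, hhR, hL⟩ := hLift k K V d a haV haI hsep _ hadj hG1
  obtain ⟨χ⟩ := hPt k K R hRfg
  set h : K := G.derivative.eval₂ (MvPolynomial.eval₂Hom (algebraMap k K) a) z with hh
  let fR : MvPolynomial (Fin d) k →+* R := MvPolynomial.eval₂Hom (algebraMap k R) a'
  let z' : R := ⟨z, hVR z hzV⟩
  have e1 : (R.val : R →+* K).comp fR = MvPolynomial.eval₂Hom (algebraMap k K) a := by
    refine MvPolynomial.ringHom_ext (fun c => ?_) (fun i => ?_)
    · have t1 : fR (MvPolynomial.C c) = algebraMap k R c := MvPolynomial.eval₂Hom_C _ _ _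
      rw [RingHom.comp_apply, t1, MvPolynomial.eval₂Hom_C]
      rfl
    · have t1 : fR (MvPolynomial.X i) = a' i := MvPolynomial.eval₂Hom_X' _ _ _
      rw [RingHom.comp_apply, t1, MvPolynomial.eval₂Hom_X']
      exact ha' i
  have e2 : (χ : R →+* k).comp fR = MvPolynomial.eval fun i => χ (a' i) := by
    refine MvPolynomial.ringHom_ext (fun c => ?_) (fun i => ?_)
    · have t1 : fR (MvPolynomial.C c) = algebraMap k R c := MvPolynomial.eval₂Hom_C _ _ _
      rw [RingHom.comp_apply, t1, MvPolynomial.eval_C]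
      exact χ.commutes c
    · have t1 : fR (MvPolynomial.X i) = a' i := MvPolynomial.eval₂Hom_X' _ _ _
      rw [RingHom.comp_apply, t1, MvPolynomial.eval_X]
      rfl
  have e3 : ∀ P : Polynomial (MvPolynomial (Fin d) k), ((P.eval₂ fR z' : R) : K) =
      P.eval₂ (MvPolynomial.eval₂Hom (algebraMap k K) a) z := by
    intro P
    rw [← e1]
    exact Polynomial.hom_eval₂ P fR (R.val : R →+* K) z'
  have e4 : ∀ P : Polynomial (MvPolynomial (Fin d) k), χ (P.eval₂ fR z') =
      P.eval₂ (MvPolynomial.eval fun i => χ (a' i)) (χ z') := by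
    intro P
    rw [← e2]
    exact Polynomial.hom_eval₂ P fR (χ : R →+* k) z'
  have g0 : G.eval₂ (MvPolynomial.eval fun i => χ (a' i)) (χ z') = 0 := by
    rw [← e4]
    have h5 : G.eval₂ fR z' = 0 := by
      apply Subtype.ext
      rw [e3, hG0]
      rfl
    rw [h5, map_zero]
  have g1 : G.derivative.eval₂ (MvPolynomial.eval fun i => χ (a' i)) (χ z') ≠ 0 := by
    rw [← e4]
    intro h6
    have h7 : G.derivative.eval₂ fR z' * (⟨h⁻¹, hhR⟩ : R) = 1 := by
      apply Subtype.ext
      change ((G.derivative.eval₂ fR z' : R) : K) * h⁻¹ = 1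
      rw [e3]
      exact mul_inv_cancel₀ hG1
    have h8 := congrArg χ h7
    rw [map_mul, h6, zero_mul, map_one] at h8
    exact zero_ne_one h8
  have hcV : ∀ c : k, algebraMap k K c ∈ V := fun c => by
    rw [Algebra.algebraMap_eq_smul_one]
    exact V.smul_mem c h1
  have hm1 : ∀ i, a i - algebraMap k K (χ (a' i)) ∈ vanish R χ V := by
    intro i
    unfold vanish
    rw [Submodule.mem_inf]
    refine ⟨V.sub_mem (haV i) (hcV _), ?_⟩
    rw [Submodule.mem_map]
    refine ⟨a' i - algebraMap k R (χ (a' i)), ?_, ?_⟩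
    · rw [LinearMap.mem_ker]
      change χ (a' i - algebraMap k R (χ (a' i))) = 0
      rw [map_sub, AlgHom.commutes]
      exact sub_self _
    · change ((a' i - algebraMap k R (χ (a' i)) : R) : K) = _
      rw [← ha' i]
      rfl
  have hm2 : z - algebraMap k K (χ z') ∈ vanish R χ V := by
    unfold vanish
    rw [Submodule.mem_inf]
    refine ⟨V.sub_mem hzV (hcV _), ?_⟩
    rw [Submodule.mem_map]
    refine ⟨z' - algebraMap k R (χ z'), ?_, rfl⟩
    rw [LinearMap.mem_ker]
    change χ (z' - algebraMap k R (χ z')) = 0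
    rw [map_sub, AlgHom.commutes]
    exact sub_self _
  have hlow := hTr k K d a z haI hzn G hG0 (fun i => χ (a' i)) (χ z') g0 g1 (vanish R χ V) hm1 hm2
  have hVle : vanish R χ V ≤ V := inf_le_left
  refine ⟨vanish R χ V, hVle, Point_fin R χ V h1 hVR, le_antisymm ?_ hlow, ?_⟩
  · rw [← htr]
    have hle : ratioField k ((vanish R χ V : Submodule k K) : Set K) ≤ ratioField k (V : Set K) := by
      unfold ratioField
      refine IntermediateField.adjoin.mono k _ _ ?_
      rintro c ⟨x, hx, y, hy, rfl⟩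
      exact ⟨x, hVle hx, y, hVle hy, rfl⟩
    exact trdeg_le_of_injective (IntermediateField.inclusion hle)
      (IntermediateField.inclusion_injective hle)
  · intro l hl
    exact hDim k K R V d a' hL h1 (fun i => by rw [ha' i]; exact haV i) hVR χ l hl

end Pool.Agent.Lib.MP_8bcb2e_ag.AC
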