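import Pool.Agent.Lib.MP_8bcb2e_ag.AC.Spec

/-!
# Limits of polynomials along the multiples of `s`

For a polynomial `q` over `ℚ` and natural numbers `n`, `s ≥ 1`: if `q (s l) / l ^ n` has a finite limit `c` then
`natDegree q ≤ n` and `c = coeff q n * s ^ n`; and if `natDegree q ≤ n` then `q (s l) / l ^ n` tends to
`coeff q n * s ^ n`. The second part is proved term by term, the first part follows from the second for the
exponent `natDegree q` and the uniqueness of limits.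
-/

set_option autoImplicit false

namespace Pool.Agent.Lib.MP_8bcb2e_ag.AC

open Pool.Agent.Lib.MP_16285c_agN (Vd cnt)
open Filter Topology Module

/-- `l ^ i / l ^ n → 0` for `i < n`. -/
private theorem Pol_pow {i n : ℕ} (h : i < n) :
    Tendsto (fun l : ℕ => (l : ℝ) ^ i / (l : ℝ) ^ n) atTop (𝓝 0) :=
  (tendsto_pow_div_pow_atTop_zero h).comp tendsto_natCast_atTop_atTop

/-- `l ^ n / l ^ n → 1`. -/
private theorem Pol_one (n : ℕ) :
    Tendsto (fun l : ℕ => (l : ℝ) ^ n / (l : ℝ) ^ n) atTop (𝓝 1) := by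
  refine tendsto_const_nhds.congr' ?_
  filter_upwards [eventually_gt_atTop 0] with l hl
  have hl' : (l : ℝ) ≠ 0 := by exact_mod_cast hl.ne'
  exact (div_self (pow_ne_zero n hl')).symm

/-- The second part. -/
private theorem Pol_lim (q : Polynomial ℚ) (n s : ℕ) (hq : q.natDegree ≤ n) :
    Tendsto (fun l : ℕ => ((q.eval ((s * l : ℕ) : ℚ) : ℚ) : ℝ) / (l : ℝ) ^ n) atTop
      (𝓝 ((q.coeff n : ℝ) * (s : ℝ) ^ n)) := by
  have h1 : (fun l : ℕ => ((q.eval ((s * l : ℕ) : ℚ) : ℚ) : ℝ) / (l : ℝ) ^ n) =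
      fun l : ℕ => ∑ i ∈ Finset.range (n + 1),
        ((q.coeff i : ℝ) * (s : ℝ) ^ i) * ((l : ℝ) ^ i / (l : ℝ) ^ n) := by
    funext l
    rw [Polynomial.eval_eq_sum_range' (Nat.lt_succ_of_le hq)]
    push_cast
    rw [Finset.sum_div]
    refine Finset.sum_congr rfl fun i _ => ?_
    rw [mul_pow]
    ring
  have h2 : ((q.coeff n : ℝ) * (s : ℝ) ^ n) = ∑ i ∈ Finset.range (n + 1),
      ((q.coeff i : ℝ) * (s : ℝ) ^ i) * (if i = n then (1 : ℝ) else 0) := by
    rw [Finset.sum_range_succ, if_pos rfl, mul_one, Finset.sum_eq_zero, zero_add]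
    intro i hi
    rw [if_neg (Finset.mem_range.mp hi).ne, mul_zero]
  rw [h1, h2]
  refine tendsto_finsetSum _ fun i hi => ?_
  refine Tendsto.const_mul _ ?_
  by_cases h : i = n
  · rw [if_pos h, h]
    exact Pol_one n
  · rw [if_neg h]
    exact Pol_pow (lt_of_le_of_ne (Nat.lt_succ_iff.mp (Finset.mem_range.mp hi)) h)

/-- The degree in the first part. -/
private theorem Pol_deg (q : Polynomial ℚ) (n s : ℕ) (c : ℝ) (hs : 1 ≤ s)
    (h : Tendsto (fun l : ℕ => ((q.eval ((s * l : ℕ) : ℚ) : ℚ) : ℝ) / (l : ℝ) ^ n) atTop (𝓝 c)) :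
    q.natDegree ≤ n := by
  by_contra hn
  have hlt : n < q.natDegree := not_le.mp hn
  have h1 := Pol_lim q q.natDegree s le_rfl
  have h2 : Tendsto (fun l : ℕ => ((q.eval ((s * l : ℕ) : ℚ) : ℚ) : ℝ) / (l : ℝ) ^ q.natDegree) atTop
      (𝓝 (c * 0)) := by
    refine (h.mul (Pol_pow hlt)).congr' ?_
    filter_upwards [eventually_gt_atTop 0] with l hl
    have hl' : (l : ℝ) ≠ 0 := by exact_mod_cast hl.ne'
    rw [div_mul_div_comm, mul_comm ((l : ℝ) ^ n) ((l : ℝ) ^ q.natDegree),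
      mul_div_mul_right _ _ (pow_ne_zero n hl')]
  have h3 := tendsto_nhds_unique h1 h2
  rw [mul_zero, mul_eq_zero] at h3
  rcases h3 with h3 | h3
  · have h4 : q.coeff q.natDegree = 0 := by exact_mod_cast h3
    have h5 : q = 0 := Polynomial.leadingCoeff_eq_zero.mp h4
    rw [h5, Polynomial.natDegree_zero] at hlt
    exact absurd hlt (Nat.not_lt_zero n)
  · have h4 : (s : ℝ) ≠ 0 := by exact_mod_cast (Nat.one_le_iff_ne_zero.mp hs)
    exact pow_ne_zero _ h4 h3

theorem tPol : S_Pol := by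
  refine ⟨fun q n s c hs h => ?_, fun q n s _ hq => Pol_lim q n s hq⟩
  have hd := Pol_deg q n s c hs h
  exact ⟨hd, tendsto_nhds_unique h (Pol_lim q n s hd)⟩

end Pool.Agent.Lib.MP_8bcb2e_ag.AC
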