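import Pool.Agent.Lib.MP_8bcb2e_ag.AC.Spec

set_option autoImplicit false

namespace Pool.Agent.Lib.MP_8bcb2e_ag.AC

open Pool.Agent.Lib.MP_16285c_agN (Vd cnt)
open Filter Topology Module

theorem tPt : S_Pt := by
  intro k K _ _ _ _ R hR
  have : Algebra.FiniteType k R := (Subalgebra.fg_iff_finiteType R).1 hR
  obtain ⟨M, hM⟩ := Ideal.exists_maximal R
  letI : Field (R ⧸ M) := Ideal.Quotient.field M
  have : Algebra.FiniteType k (R ⧸ M) :=
    Algebra.FiniteType.of_surjective (Ideal.Quotient.mkₐ k M) (Ideal.Quotient.mkₐ_surjective k M)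
  have : Module.Finite k (R ⧸ M) := finite_of_finite_type_of_isJacobsonRing k (R ⧸ M)
  have : Algebra.IsIntegral k (R ⧸ M) := Algebra.IsIntegral.of_finite k (R ⧸ M)
  have hb : Function.Bijective (algebraMap k (R ⧸ M)) :=
    IsAlgClosed.algebraMap_bijective_of_isIntegral
  exact ⟨((AlgEquiv.ofBijective (Algebra.ofId k (R ⧸ M)) hb).symm : (R ⧸ M) →ₐ[k] k).comp
    (Ideal.Quotient.mkₐ k M)⟩

end Pool.Agent.Lib.MP_8bcb2e_ag.AC
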