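import Pool.Agent.Lib.MP_8bcb2e_ag.AC.Spec

/-!
# The field of quotients of powers and of multiples
-/

set_option autoImplicit false

namespace Pool.Agent.Lib.MP_8bcb2e_ag.AC

open Pool.Agent.Lib.MP_16285c_agN (Vd cnt)
open Filter Topology Module

private theorem Rat_quot {k K : Type} [Field k] [Field K] [Algebra k K] {W : Set K} {a b : K}
    (ha : a ∈ W) (hb : b ∈ W) : a / b ∈ ratioField k W :=
  IntermediateField.subset_adjoin k _ ⟨a, ha, b, hb, rfl⟩

private theorem Rat_mono {k K : Type} [Field k] [Field K] [Algebra k K] (V W : Set K)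
    (h : V ⊆ W) : ratioField k V ≤ ratioField k W := by
  refine IntermediateField.adjoin.mono k _ _ ?_
  rintro z ⟨a, ha, b, hb, rfl⟩
  exact ⟨a, h ha, b, h hb, rfl⟩

private theorem Rat_pow {k K : Type} [Field k] [Field K] [Algebra k K] (W : Submodule k K)
    {w : K} (hw : w ∈ W) (N : ℕ) :
    ∀ z ∈ W ^ N, z / w ^ N ∈ ratioField k (W : Set K) := by
  induction N with
  | zero =>
    intro z hz
    rw [pow_zero] at hz
    obtain ⟨c, rfl⟩ := Submodule.mem_one.1 hz
    rw [pow_zero, div_one]
    exact (ratioField k (W : Set K)).algebraMap_mem c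
  | succ N ih =>
    intro z hz
    rw [pow_succ] at hz
    refine Submodule.mul_induction_on hz ?_ ?_
    · intro a ha b hb
      have h1 := ih a ha
      have h2 : b / w ∈ ratioField k (W : Set K) := Rat_quot hb hw
      have h3 : a * b / w ^ (N + 1) = (a / w ^ N) * (b / w) := by
        rw [pow_succ, div_mul_div_comm]
      rw [h3]
      exact mul_mem h1 h2
    · intro a b ha hb
      rw [add_div]
      exact add_mem ha hb

theorem tRat : S_Rat := by
  refine ⟨?_, ?_, ?_, ?_⟩
  · intro k K _ _ _ W hW N hN
    obtain ⟨w, hw, hw0⟩ := Submodule.exists_mem_ne_zero_of_ne_bot hW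
    apply le_antisymm
    · refine IntermediateField.adjoin_le_iff.2 ?_
      rintro z ⟨a, ha, b, hb, rfl⟩
      have h1 := Rat_pow W hw N a ha
      have h2 := Rat_pow W hw N b hb
      have hwN : w ^ N ≠ 0 := pow_ne_zero _ hw0
      have h3 : a / b = (a / w ^ N) / (b / w ^ N) := by
        rw [div_div_div_cancel_right₀ hwN]
      show a / b ∈ ratioField k (W : Set K)
      rw [h3]
      exact div_mem h1 h2
    · refine IntermediateField.adjoin_le_iff.2 ?_
      rintro z ⟨a, ha, b, hb, rfl⟩
      obtain ⟨M, rfl⟩ : ∃ M, N = M + 1 := ⟨N - 1, by omega⟩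
      have hwM : w ^ M ≠ 0 := pow_ne_zero _ hw0
      have hmem : ∀ c ∈ W, w ^ M * c ∈ W ^ (M + 1) := by
        intro c hc
        rw [pow_succ]
        exact Submodule.mul_mem_mul (Submodule.pow_mem_pow W hw M) hc
      have h3 : a / b = (w ^ M * a) / (w ^ M * b) := by
        rw [mul_div_mul_left _ _ hwM]
      show a / b ∈ ratioField k (↑(W ^ (M + 1)) : Set K)
      rw [h3]
      exact Rat_quot (hmem a ha) (hmem b hb)
  · intro k K _ _ _ W f hf
    apply le_antisymm
    · refine IntermediateField.adjoin_le_iff.2 ?_
      rintro z ⟨a, ha, b, hb, rfl⟩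
      obtain ⟨a', ha', rfl⟩ := ha
      obtain ⟨b', hb', rfl⟩ := hb
      show f * a' / (f * b') ∈ ratioField k (W : Set K)
      rw [mul_div_mul_left _ _ hf]
      exact Rat_quot ha' hb'
    · refine IntermediateField.adjoin_le_iff.2 ?_
      rintro z ⟨a, ha, b, hb, rfl⟩
      show a / b ∈ ratioField k (↑(W.map (LinearMap.mulLeft k f)) : Set K)
      rw [← mul_div_mul_left _ _ hf]
      exact Rat_quot (Submodule.mem_map_of_mem (f := LinearMap.mulLeft k f) ha)
        (Submodule.mem_map_of_mem (f := LinearMap.mulLeft k f) hb)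
  · intro k K _ _ _ V W h
    exact Rat_mono V W h
  · intro k K _ _ _ W f l hf
    have key : ∀ l : ℕ, (W.map (LinearMap.mulLeft k f)) ^ l =
        (W ^ l).map (LinearMap.mulLeft k (f ^ l)) := by
      intro l
      induction l with
      | zero =>
        rw [pow_zero, pow_zero, pow_zero, LinearMap.mulLeft_one]
        exact (Submodule.map_id _).symm
      | succ l ih =>
        rw [pow_succ, ih]
        apply le_antisymm
        · rw [Submodule.mul_le]
          rintro _ ⟨a, ha, rfl⟩ _ ⟨b, hb, rfl⟩
          refine ⟨a * b, ?_, ?_⟩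
          · rw [pow_succ]
            exact Submodule.mul_mem_mul ha hb
          · simp only [LinearMap.mulLeft_apply]
            ring
        · rintro _ ⟨z, hz, rfl⟩
          rw [pow_succ] at hz
          refine Submodule.mul_induction_on (C := fun z => LinearMap.mulLeft k (f ^ (l + 1)) z ∈
            (W ^ l).map (LinearMap.mulLeft k (f ^ l)) * W.map (LinearMap.mulLeft k f)) hz ?_ ?_
          · intro a ha b hb
            have h1 : LinearMap.mulLeft k (f ^ (l + 1)) (a * b) =
                LinearMap.mulLeft k (f ^ l) a * LinearMap.mulLeft k f b := by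
              simp only [LinearMap.mulLeft_apply]
              ring
            rw [h1]
            exact Submodule.mul_mem_mul (Submodule.mem_map_of_mem ha)
              (Submodule.mem_map_of_mem hb)
          · intro a b ha hb
            rw [map_add]
            exact add_mem ha hb
    rw [key l]
    have hinj : Function.Injective (LinearMap.mulLeft k (f ^ l)) := by
      intro x y hxy
      simp only [LinearMap.mulLeft_apply] at hxy
      exact mul_left_cancel₀ (pow_ne_zero _ hf) hxy
    exact (LinearEquiv.finrank_eq (Submodule.equivMapOfInjective _ hinj (W ^ l))).symm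

end Pool.Agent.Lib.MP_8bcb2e_ag.AC
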