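import Pool.Agent.Lib.MP_8bcb2e_ag.AC.Spec

/-!
# A separating family inside a finite-dimensional space

`k` perfect, `V` a finite-dimensional subspace of a field `K` over `k` with `1 ∈ V`. Some elements `a i` of `V`
are algebraically independent, as many as the transcendence degree of `k(V)`, and every element of `V` is
separable over `k(a)`. Among the finitely many transcendence bases of `k(V)` inside a finite spanning set of `V`
take one with the largest separable closure; the exchange lemma of Mathlib (`SeparablyGenerated`) shows that it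
is separating.
-/

set_option autoImplicit false

namespace Pool.Agent.Lib.MP_8bcb2e_ag.AC

open Pool.Agent.Lib.MP_16285c_agN (Vd cnt)
open Filter Topology Module

/-- exchange lemma, perfect base field of characteristic `p` -/
private theorem Sep_pow (k F : Type) [Field k] [PerfectField k] [Field F] [Algebra k F] (p : ℕ)
    [Fact p.Prime] [CharP k p] [CharP F p] (s : Finset F)
    (hs : LinearIndepOn k _root_.id (s : Set F)) : LinearIndepOn k (fun x : F => x ^ p) (s : Set F) := by
  refine hs.map_of_injective_injective (frobeniusEquiv k p).symm (frobenius F p).toAddMonoidHom ?_ ?_ ?_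
  · intro r hr
    simpa using hr
  · intro m hm
    have : frobenius F p m = 0 := hm
    simpa using this
  · intro r m
    change frobenius F p ((frobeniusEquiv k p).symm r • m) = r • frobenius F p m
    rw [Algebra.smul_def, map_mul, Algebra.smul_def, ← RingHom.map_frobenius,
      frobenius_apply_frobeniusEquiv_symm]

private theorem Sep_core (k F : Type) [Field k] [PerfectField k] [Field F] [Algebra k F]
    (T : Set F) (hTf : T.Finite) (hT : IntermediateField.adjoin k T = ⊤) :
    ∃ s : Set F, s ⊆ T ∧ IsTranscendenceBasis k ((↑) : s → F) ∧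
      ∀ t ∈ T, IsSeparable (IntermediateField.adjoin k s) t := by
  classical
  have hEx : ∃ s : Set F, s ⊆ T ∧ IsTranscendenceBasis k ((↑) : s → F) := by
    have : Algebra.IsAlgebraic (Algebra.adjoin k T) F := by
      rw [← IntermediateField.isAlgebraic_adjoin_iff_top, hT, Algebra.isAlgebraic_iff_isIntegral]
      refine Algebra.isIntegral_of_surjective IntermediateField.topEquiv.surjective
    have ⟨t, hts, ht⟩ := exists_isTranscendenceBasis_subset (R := k) T
    exact ⟨t, hts, ht⟩
  obtain _ | ⟨p, hp, hpk⟩ := CharP.exists' k
  · obtain ⟨s, hsT, hs⟩ := hEx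
    have h0 : ∀ S' : Set F, S' = s → Algebra.IsAlgebraic (IntermediateField.adjoin k S') F →
        Algebra.IsAlgebraic (IntermediateField.adjoin k s) F := by
      rintro _ rfl h
      exact h
    have : Algebra.IsAlgebraic (IntermediateField.adjoin k s) F :=
      h0 _ Subtype.range_coe hs.isAlgebraic_field
    have h2 : Algebra.IsSeparable (IntermediateField.adjoin k s) F := inferInstance
    exact ⟨s, hsT, hs, fun t _ => h2.isSeparable' t⟩
  have : ExpChar k p := .prime hp.out
  have : CharP F p := .of_ringHom_of_ne_zero (algebraMap k F) p hp.out.ne_zero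
  set 𝒮 : Set (Set F) := {s : Set F | s ⊆ T ∧ IsTranscendenceBasis k ((↑) : s → F)} with h𝒮
  have hfin : 𝒮.Finite := hTf.finite_subsets.subset (fun s hs => hs.1)
  obtain ⟨s, hs⟩ := hfin.exists_maximalFor
    (fun t : Set F => (separableClosure (IntermediateField.adjoin k t) F).restrictScalars k)
    𝒮 hEx
  refine ⟨s, hs.1.1, hs.1.2, fun n hnT => ?_⟩
  by_contra hn
  have hns : n ∉ s := fun h ↦ hn
    (le_restrictScalars_separableClosure _ (IntermediateField.subset_adjoin _ _ h))
  have ⟨i, hi₁, hi₂⟩ := exists_isTranscendenceBasis_and_isSeparable_of_linearIndepOn_pow'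
    p hp.out (a := id) (Sep_pow k F p) s n hs.1.2 hns
  rw [Set.image_id] at hi₂
  have hmem : (insert n s \ {i} : Set F) ∈ 𝒮 := by
    refine ⟨fun x hx => ?_, hi₁⟩
    rcases hx.1 with rfl | h
    · exact hnT
    · exact hs.1.1 h
  refine not_lt_iff_le_imp_ge.mpr (hs.2 hmem) (SetLike.lt_iff_le_and_exists.mpr ⟨?_, n, ?_, hn⟩)
  · rw [separableClosure_le_separableClosure_iff, IntermediateField.adjoin_le_iff]
    intro x hx
    obtain rfl | ne := eq_or_ne x i
    exacts [hi₂, le_restrictScalars_separableClosure _ (IntermediateField.subset_adjoin _ _ ⟨.inr hx, ne⟩)]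
  · obtain rfl | ne := eq_or_ne n i
    exacts [hi₂, le_restrictScalars_separableClosure _ (IntermediateField.subset_adjoin _ _ ⟨.inl rfl, ne⟩)]

/-- separability over `k(s)` in a subfield `F` gives separability over `k(s)` in `K` -/
private theorem Sep_lift (k K : Type) [Field k] [Field K] [Algebra k K] (F : IntermediateField k K)
    (s : Set F) (E : IntermediateField k K) (hE : ∀ x ∈ s, (x : K) ∈ E) (z : F)
    (hz : IsSeparable (IntermediateField.adjoin k s) z) : IsSeparable E (z : K) := by
  have h1 : ∀ x ∈ IntermediateField.adjoin k s, (x : K) ∈ E := by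
    have : IntermediateField.adjoin k s ≤ E.comap F.val := by
      rw [IntermediateField.adjoin_le_iff]
      exact hE
    exact this
  let φ : IntermediateField.adjoin k s →+* E :=
    ((F.val.comp (IntermediateField.adjoin k s).val).codRestrict E.toSubalgebra
      (fun x => h1 x x.2)).toRingHom
  have h2 : (minpoly (IntermediateField.adjoin k s) z).Separable := hz
  have h3 : ((minpoly (IntermediateField.adjoin k s) z).map φ).Separable := h2.map
  refine h3.of_dvd (minpoly.dvd E (z : K) ?_)
  rw [Polynomial.aeval_def, Polynomial.eval₂_map]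
  have h4 : (algebraMap E K).comp φ =
      (F.val : F →+* K).comp (algebraMap (IntermediateField.adjoin k s) F) := rfl
  have h5 : (z : K) = (F.val : F →+* K) z := rfl
  rw [h4, h5, ← Polynomial.hom_eval₂]
  have h6 := minpoly.aeval (IntermediateField.adjoin k s) z
  rw [Polynomial.aeval_def] at h6
  rw [h6, map_zero]

theorem tSep : S_Sep := by
  intro k K _ _ _ _ V _ h1V d hd
  obtain ⟨S, hS⟩ : V.FG := (Submodule.fg_iff_finiteDimensional V).mpr inferInstance
  set F : IntermediateField k K := ratioField k (V : Set K) with hF
  have hVF : ∀ v ∈ V, v ∈ F := fun v hv =>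
    IntermediateField.subset_adjoin k _ ⟨v, hv, 1, h1V, (div_one v).symm⟩
  have hSV : ∀ v ∈ S, v ∈ V := fun v hv => by
    rw [← hS]
    exact Submodule.subset_span hv
  set T : Set F := (fun x : F => (x : K)) ⁻¹' (S : Set K) with hT
  have hTf : T.Finite := S.finite_toSet.preimage (Subtype.val_injective.injOn)
  have hTtop : IntermediateField.adjoin k T = ⊤ := by
    rw [eq_top_iff]
    intro x _
    have hSE : ∀ v ∈ S, v ∈ (IntermediateField.adjoin k T).map F.val := by
      intro v hv
      exact ⟨⟨v, hVF v (hSV v hv)⟩, IntermediateField.subset_adjoin k T hv, rfl⟩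
    have hVE : ∀ v ∈ V, v ∈ (IntermediateField.adjoin k T).map F.val := by
      intro v hv
      rw [← hS] at hv
      have h1 : Submodule.span k (S : Set K) ≤
          Subalgebra.toSubmodule ((IntermediateField.adjoin k T).map F.val).toSubalgebra :=
        Submodule.span_le.mpr hSE
      exact h1 hv
    have hFE : F ≤ (IntermediateField.adjoin k T).map F.val := by
      refine hF.trans_le (IntermediateField.adjoin_le_iff.mpr ?_)
      rintro c ⟨a, ha, b, hb, rfl⟩
      exact div_mem (hVE a ha) (hVE b hb)
    obtain ⟨y, hy, hyx⟩ := hFE x.2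
    have : y = x := Subtype.ext hyx
    rw [← this]
    exact hy
  obtain ⟨s, hsT, hs, hsep⟩ := Sep_core k F T hTf hTtop
  have hcard : Cardinal.mk s = Cardinal.mk (Fin d) := by
    rw [Cardinal.mk_fin, ← hd]
    exact hs.cardinalMk_eq_trdeg
  obtain ⟨e⟩ := Cardinal.eq.1 hcard.symm
  refine ⟨fun i => (((e i : s) : F) : K), fun i => hSV _ (hsT (e i).2), ?_, fun z hz => ?_⟩
  · exact (hs.1.comp e e.injective).map' (f := F.val) Subtype.val_injective
  · have hE : ∀ x ∈ s, (x : K) ∈ IntermediateField.adjoin k
        (Set.range (fun i => (((e i : s) : F) : K))) := by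
      intro x hx
      refine IntermediateField.subset_adjoin k _ ⟨e.symm ⟨x, hx⟩, ?_⟩
      simp
    have hSs : ∀ v ∈ S, v ∈ (separableClosure (IntermediateField.adjoin k
        (Set.range (fun i => (((e i : s) : F) : K)))) K).restrictScalars k := by
      intro v hv
      exact Sep_lift k K F s _ hE ⟨v, hVF v (hSV v hv)⟩ (hsep _ hv)
    rw [← hS] at hz
    have h1 : Submodule.span k (S : Set K) ≤
        Subalgebra.toSubmodule ((separableClosure (IntermediateField.adjoin k
        (Set.range (fun i => (((e i : s) : F) : K)))) K).restrictScalars k).toSubalgebra :=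
      Submodule.span_le.mpr hSs
    exact h1 hz

end Pool.Agent.Lib.MP_8bcb2e_ag.AC
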