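import Pool.Agent.Lib.MP_8bcb2e_ag.Spec
import Pool.Agent.Lib.MP_16285c_agN.Degr.Spec

/-!
# Explicit pluricanonical multiples when `h⁰` bounds the Hilbert polynomial: statements

`K` is the function field, `V m` the space of the `m`-canonical forms (a `k`-subspace of `K`), `W ^ l` the
space spanned by the products of `l` elements of `W`, `ratioField k W` the field generated by the quotients
of the elements of `W`. Every `def S_… : Prop` is one task; its proof is in the docstring. The files are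
independent of each other: statements used are hypotheses (theorem `tX : S_Y → S_X` in the file `AC/X.lean`).
`Vd κ x a` (polynomials of degree `≤ a` in `x`) and `cnt s a` (number of monomials of degree `≤ a` in `s`
variables) are from `MP_16285c_agN/Degr/Spec.lean`.
-/

set_option autoImplicit false

namespace Pool.Agent.Lib.MP_8bcb2e_ag.AC

open Pool.Agent.Lib.MP_16285c_agN (Vd cnt)
open Filter Topology Module

/-! ## Counting -/

/-- (Cnt) PROOF. First part: `cnt s a` is the number of `b : Fin s → ℕ` with sum `≤ a`. Induction on `s`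
(`Fin.consEquiv`-type bijection, the first coordinate `j ≤ a` and the others with sum `≤ a - j`:
`cnt (s+1) a = ∑ j ∈ range (a+1), cnt s (a - j)` and `Nat.sum_range_choose`-type (hockey stick) identities
`∑ j ≤ a, (j+s).choose s = (a+s+1).choose (s+1)`), or stars and bars (`Sym`, `Finset.Nat.card_antidiagonalTuple`,
`Sym.card_sym_eq_choose`). Second part: `(a+s).choose s * s! = ∏ i < s, (a + i + 1)`
(`Nat.ascFactorial_eq_factorial_mul_choose`), so `cnt s (r l + c) / l ^ s = ∏ i < s, ((r l + c + i + 1) / l) / s!`,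
each factor tends to `r`. For `r l - c` the same, for large `l` the subtraction is an honest one (`1 ≤ r`). -/
def S_Cnt : Prop := (∀ s a : ℕ, cnt s a = (a + s).choose s) ∧
  ∀ s r c : ℕ, 1 ≤ r →
    Tendsto (fun l : ℕ => (cnt s (r * l + c) : ℝ) / (l : ℝ) ^ s) atTop
      (𝓝 ((r : ℝ) ^ s / s.factorial)) ∧
    Tendsto (fun l : ℕ => (cnt s (r * l - c) : ℝ) / (l : ℝ) ^ s) atTop
      (𝓝 ((r : ℝ) ^ s / s.factorial))

/-! ## Growth of the powers of a subspace -/

/-- (VdPow) PROOF. Induction on `l`; `l = 0`: both sides are `span {1} = 1`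
(`restrictTotalDegree _ _ 0` are the constants). Step: `W ^ (l+1) = W ^ l * W`, a monomial of degree `≤ l + 1`
is a monomial of degree `≤ l` times `1` or a variable. Lemmas on `Vd` in `MP_16285c_agN/Degr/NN.lean`
(`Vd_one`, `Vd_mono`, `Vd_mul`, `Vd_gen`, `mem_Vd`). -/
def S_VdPow : Prop := ∀ (κ F : Type) [Field κ] [Field F] [Algebra κ F] (c : ℕ) (x : Fin c → F) (l : ℕ),
  Submodule.span κ (insert 1 (Set.range x)) ^ l = Vd κ x l

/-- (Low) PROOF. Let `F₀ = κ(l)`, `D = [F : F₀]` (`D ≥ 1`; finite). The monomials in `x` span `F` over `F₀`: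
their `F₀`-span is the subalgebra `F₀[x]`, a field as `F/F₀` is algebraic
(`Algebra.adjoin` of algebraic elements, `IntermediateField.adjoin_toSubalgebra_of_isAlgebraic`-type lemmas),
so all of `F` (`F = κ(x)`). So there are `D` monomials `m_1, …, m_D` in `x` that form a basis of `F` over `F₀`
(`exists_linearIndependent`, `Basis`…), of degrees `≤ C`: `m_i ∈ Vd κ x C`. The elements `l ^ b * m_i`,
`b : Fin s → ℕ` with sum `≤ a`, `i : Fin D`, are linearly independent over `κ` (the `l ^ b` are independent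
over `κ` and in `F₀`: `LinearIndependent.smul`, tower) and in `Vd κ x (a + C)` (`l ^ b ∈ Vd κ x |b|`, as the
`l i` are linear forms in `x`; `Vd_mul`, `Vd_gen` in `Degr/NN.lean`). Count them
(`LinearIndependent.fintype_card_le_finrank`; `tVd : StmtVd` in `Degr/Vd.lean` for finiteness). -/
def S_Low : Prop := ∀ (κ F : Type) [Field κ] [Field F] [Algebra κ F] (c s : ℕ) (x : Fin c → F)
  (l : Fin s → F), IntermediateField.adjoin κ (Set.range x) = ⊤ → AlgebraicIndependent κ l →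
  (∀ i, l i ∈ Submodule.span κ (Set.range x)) →
  Module.Finite (IntermediateField.adjoin κ (Set.range l)) F →
  ∃ C : ℕ, ∀ a : ℕ, finrank (IntermediateField.adjoin κ (Set.range l)) F * cnt s a ≤
    finrank κ (Vd κ x (a + C))

/-- (VdG) PROOF. `StmtNN` (theorem `tNN` in `MP_16285c_agN/Degr/NN.lean`) with `K = κ` gives `s`, `A`, the
algebraically independent linear forms `l i = ∑ j, A i j x j` and `W`. `StmtUpF` (`tUpF`): `F` is finite over
`κ(l)`, `D = [F : κ(l)] ≥ 1`. Upper bound: `StmtUp` (`tUp`; look at its hypotheses in the files), lower bound: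
`S_Low`; take the larger constant (`cnt` and `Vd` are monotone: `tCnt`, `Vd_mono`). `trdeg κ F = s`: `l` is a
transcendence basis (`F/κ(l)` is algebraic; `AlgebraicIndependent.isTranscendenceBasis_iff_isAlgebraic`,
`IsTranscendenceBasis.cardinalMk_eq_trdeg`). -/
def S_VdG : Prop := ∀ (κ F : Type) [Field κ] [Infinite κ] [Field F] [Algebra κ F] (c : ℕ) (x : Fin c → F),
  IntermediateField.adjoin κ (Set.range x) = ⊤ → ∃ s D C : ℕ, 1 ≤ D ∧ Algebra.trdeg κ F = s ∧
    ∀ a : ℕ, D * cnt s a ≤ finrank κ (Vd κ x (a + C)) ∧ finrank κ (Vd κ x a) ≤ D * cnt s (a + C)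

/-- (Gro) PROOF. Let `w ∈ W`, `w ≠ 0`, and `W' = w⁻¹ W ∋ 1` (image of `W` under the multiplication by `w⁻¹`).
`W' ^ l = w⁻¹ ^ l W ^ l` has the same dimension, and the quotients are the same. Let `x : Fin c → K` be a basis
of `W'`, so `W' = span (insert 1 (range x))` (`1 ∈ W'`) and `ratioField L W = L(x) =: F`. As elements of `F`:
`x' : Fin c → F` with `L(x') = ⊤`, and `Vd L x l` is the image of `Vd L x' l` under the injection `F → K`, so it
has the same dimension (`Submodule.map`, `aeval` commutes with `F.val`). `S_VdPow`: `W' ^ l = Vd L x l`;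
`S_VdG` for `x'`: `s = e`, and `D * cnt e a ≤ dim Vd (a + C)`, `dim Vd a ≤ D * cnt e (a + C)`, so
`D * cnt e (l - C) ≤ dim W ^ l ≤ D * cnt e (l + C)` for `l ≥ C`; `S_Cnt` with `r = 1` and the squeeze theorem. -/
def S_Gro : Prop := ∀ (L K : Type) [Field L] [Infinite L] [Field K] [Algebra L K] (W : Submodule L K)
  [FiniteDimensional L W], W ≠ ⊥ → ∀ e : ℕ, Algebra.trdeg L (ratioField L (W : Set K)) = e →
    ∃ D : ℕ, 1 ≤ D ∧
      Tendsto (fun l : ℕ => (finrank L ↥(W ^ l) : ℝ) / (l : ℝ) ^ e) atTop (𝓝 ((D : ℝ) / e.factorial))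

/-- (Rat) PROOF. (1) `⊆`: if `w ∈ W`, `w ≠ 0`, then every element of `W ^ N` is in `w ^ N • ratioField k W`
(`Submodule.pow_induction_on_left'` or `Submodule.mul_le`; the sum of such elements is such), so quotients of
elements of `W ^ N` are in `ratioField k W`. `⊇`: `a / b = (w ^ (N-1) a) / (w ^ (N-1) b)`.
(2) Images: for `f ≠ 0` the quotients of `f W` are those of `W` (`(f * a) / (f * b) = a / b`).
(3) Monotonicity is clear (`IntermediateField.adjoin.mono`). (4) If `W ∋ 1` then `W ⊆ ratioField k W`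
(`a = a / 1`), in general `a / w ∈ ratioField k W` by definition. -/
def S_Rat : Prop :=
  (∀ (k K : Type) [Field k] [Field K] [Algebra k K] (W : Submodule k K), W ≠ ⊥ → ∀ N : ℕ, 1 ≤ N →
    ratioField k (↑(W ^ N) : Set K) = ratioField k (W : Set K)) ∧
  (∀ (k K : Type) [Field k] [Field K] [Algebra k K] (W : Submodule k K) (f : K), f ≠ 0 →
    ratioField k (↑(W.map (LinearMap.mulLeft k f)) : Set K) = ratioField k (W : Set K)) ∧
  (∀ (k K : Type) [Field k] [Field K] [Algebra k K] (V W : Set K), V ⊆ W →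
    ratioField k V ≤ ratioField k W) ∧
  ∀ (k K : Type) [Field k] [Field K] [Algebra k K] (W : Submodule k K) (f : K) (l : ℕ), f ≠ 0 →
    finrank k ↥((W.map (LinearMap.mulLeft k f)) ^ l) = finrank k ↥(W ^ l)

/-- (Int) Integrality of the degree. PROOF (uses `S_Gro`, `S_Rat`). `W₁ ^ s₂ = W₂ ^ s₁ =: U`, so
`ratioField W₁ = ratioField U = ratioField W₂` by `S_Rat`: both have transcendence degree `e`. `S_Gro` gives
`D₁`, `D₂`. Along `s₂ l`: `dim W₁ ^ (s₂ l) / l ^ e → s₂ ^ e D₁ / e!`, and `dim W₂ ^ (s₁ l) / l ^ e → s₁ ^ e D₂ / e!`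
(compose with `l ↦ s₂ l`; `(s₂ l) ^ e = s₂ ^ e l ^ e`). `W₁ ^ (s₂ l) = U ^ l = W₂ ^ (s₁ l)` (`pow_mul`), so by
uniqueness of limits `s₂ ^ e D₁ = s₁ ^ e D₂` (in `ℝ`, so in `ℕ`). `s₁ ^ e` is coprime to `s₂ ^ e`, so it divides
`D₁ = s₁ ^ e D`, and `D ≥ 1` as `D₁ ≥ 1`. -/
def S_Int : Prop := ∀ (L K : Type) [Field L] [Infinite L] [Field K] [Algebra L K] (W₁ W₂ : Submodule L K)
  [FiniteDimensional L W₁] [FiniteDimensional L W₂], W₁ ≠ ⊥ → W₂ ≠ ⊥ → ∀ s₁ s₂ : ℕ, 1 ≤ s₁ → 1 ≤ s₂ →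
  Nat.Coprime s₁ s₂ → W₁ ^ s₂ = W₂ ^ s₁ → ∀ e : ℕ, Algebra.trdeg L (ratioField L (W₁ : Set K)) = e →
    ∃ D : ℕ, 1 ≤ D ∧
      Tendsto (fun l : ℕ => (finrank L ↥(W₁ ^ l) : ℝ) / (l : ℝ) ^ e) atTop
        (𝓝 ((D : ℝ) * (s₁ : ℝ) ^ e / e.factorial))

/-! ## Projection from a point -/

section

variable {k K : Type} [Field k] [Field K] [Algebra k K]

/-- The lifting property of smooth algebras, for the algebra `R` over the polynomial ring `k[a]`. -/
def Lifts {d : ℕ} (R : Subalgebra k K) (a : Fin d → R) : Prop :=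
  ∀ (B : Type) [CommRing B] [Algebra k B] (I : Ideal B), IsNilpotent I →
    ∀ (β : Fin d → B) (χ : R →ₐ[k] B ⧸ I), (∀ i, χ (a i) = Ideal.Quotient.mk I (β i)) →
      ∃ ψ : R →ₐ[k] B, (∀ i, ψ (a i) = β i) ∧ ∀ r, Ideal.Quotient.mk I (ψ r) = χ r

/-- The elements of `V` (and of `R`) that vanish at the point `χ`. -/
def vanish (R : Subalgebra k K) (χ : R →ₐ[k] k) (V : Submodule k K) : Submodule k K :=
  V ⊓ (LinearMap.ker χ.toLinearMap).map R.val.toLinearMap

end

/-- (Sep) A separating transcendence basis inside `V`. PROOF. `F = ratioField k V = k(V)` (`1 ∈ V`) is finitely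
generated, so `Algebra.EssFiniteType k F`. Mathlib: `exists_isTranscendenceBasis_and_isSeparable_of_perfectField`:
a finite separating transcendence basis `s` (not inside `V`), `s.card = d`; `Ω[F⁄k(s)] = 0`
(`Algebra.FormallyUnramified`/`FormallyEtale.of_isSeparable`), so the `D t`, `t ∈ s`, span `Ω[F⁄k]` over `F` (exact
sequence `KaehlerDifferential.exact_mapBaseChange_map`, or directly: see the proof of `sepExists_of` in
`MP_8bcb2e_ag/SepExists.lean`, whose lemmas may be used), so `dim Ω[F⁄k] ≤ d`. The `D v`, `v ∈ V`, span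
`Ω[F⁄k]` (`V` generates the field `F`; the set of `y` with `D y` in the span of `D V` is a subfield), so some
`a_1, …, a_r ∈ V`, `r ≤ d`, have `D a_i` a basis of `Ω[F⁄k]`. `Ω[F⁄k(a)] = 0`, so `F/k(a)` is formally unramified
and essentially of finite type, so separable algebraic (`Algebra.FormallyUnramified.isSeparable`). So
`d = trdeg k F ≤ r` and `a` is algebraically independent (`isTranscendenceBasis_of_le_trdeg_of_finite`).
Other way: the exchange lemma `exists_isTranscendenceBasis_and_isSeparable_of_linearIndepOn_pow'` in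
`Mathlib/FieldTheory/SeparablyGenerated.lean` for a family spanning `V`, as in the proof of
`…_of_essFiniteType` there (characteristic `0` separately). -/
def S_Sep : Prop := ∀ (k K : Type) [Field k] [PerfectField k] [Field K] [Algebra k K] (V : Submodule k K)
  [FiniteDimensional k V], (1 : K) ∈ V → ∀ d : ℕ, Algebra.trdeg k (ratioField k (V : Set K)) = d →
    ∃ a : Fin d → K, (∀ i, a i ∈ V) ∧ AlgebraicIndependent k a ∧
      ∀ z ∈ V, IsSeparable (IntermediateField.adjoin k (Set.range a)) z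

/-- (Clr) PROOF. The minimal polynomial `μ` of `z` over `k(a)` has `μ(z) = 0`, `μ'(z) ≠ 0` (separable:
`Polynomial.Separable.aeval_derivative_ne_zero`). Its coefficients are quotients of polynomials in `a`
(`IntermediateField.mem_adjoin_range_iff`); multiply by a common denominator `q(a) ≠ 0` (product over the
support) and lift the coefficients to `MvPolynomial (Fin d) k`: `G` with `map G = q(a) μ`. -/
def S_Clr : Prop := ∀ (k K : Type) [Field k] [Field K] [Algebra k K] (d : ℕ) (a : Fin d → K) (z : K),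
  IsSeparable (IntermediateField.adjoin k (Set.range a)) z →
    ∃ G : Polynomial (MvPolynomial (Fin d) k),
      G.eval₂ (MvPolynomial.eval₂Hom (algebraMap k K) a) z = 0 ∧
      G.derivative.eval₂ (MvPolynomial.eval₂Hom (algebraMap k K) a) z ≠ 0

/-- (Lift) A smooth chart. PROOF. `P = MvPolynomial (Fin d) k` acts on `R₀ = Algebra.adjoin k V` through
`aeval a` (`RingHom.toAlgebra`, as a `letI`), `R₀` is a `P`-algebra of finite type (`V` is finite dimensional), so
of finite presentation (`P` is Noetherian). Let `F₀ = IntermediateField.adjoin k V` (= field of fractions of `R₀`)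
and `E = k(a) ⊆ F₀`: `E` is a field of fractions of `P` (`a` is algebraically independent), so formally etale
over `P` (`Algebra.FormallyEtale.of_isLocalization`); `F₀/E` is separable algebraic (generated by separable
elements), so formally etale (`Algebra.FormallyEtale.of_isSeparable`). So `F₀` is formally etale over `P`
(`Algebra.FormallyEtale.comp`) and `Localization.AtPrime (⊥ : Ideal R₀) ≃ F₀` (`IsLocalization`/`IsFractionRing`
for the prime `⊥`) is formally etale over `P`: `Algebra.IsEtaleAt P ⊥`. Mathlib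
`Algebra.exists_etale_of_isEtaleAt` gives `g ≠ 0` in `R₀` with `R₀[1/g]` etale over `P`; then
`R₀[1/(g h)]` is etale over `P` too (use `basicOpen_subset_etaleLocus_iff_etale` and
`basicOpen (g h) ⊆ basicOpen g`). Let `R = Algebra.adjoin k (V ∪ {(g h)⁻¹}) ⊆ K`, a localization of `R₀` away
from `g h` (`IsLocalization.Away (g h) R`), so `P`-isomorphic to `Localization.Away (g h)` and formally smooth
over `P`. `h⁻¹ = g (g h)⁻¹ ∈ R`. `Lifts`: `B` is a `P`-algebra through `aeval β`, `χ` is a `P`-algebra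
homomorphism; `Algebra.FormallySmooth.exists_lift`/`lift` (`I` nilpotent). -/
def S_Lift : Prop := ∀ (k K : Type) [Field k] [Field K] [Algebra k K] (V : Submodule k K)
  [FiniteDimensional k V] (d : ℕ) (a : Fin d → K), (∀ i, a i ∈ V) → AlgebraicIndependent k a →
  (∀ z ∈ V, IsSeparable (IntermediateField.adjoin k (Set.range a)) z) →
  ∀ h ∈ Algebra.adjoin k (V : Set K), h ≠ 0 →
    ∃ (R : Subalgebra k K) (a' : Fin d → R), R.FG ∧ (∀ i, (a' i : K) = a i) ∧ (∀ z ∈ V, z ∈ R) ∧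
      h⁻¹ ∈ R ∧ Lifts R a'

/-- (Pt) PROOF. `R` is a nonzero finitely generated `k`-algebra; a maximal ideal `M`; `R / M` is a finite
extension of `k` (`finite_of_finite_type_of_isJacobsonRing` / Zariski's lemma), so equal to `k`
(`IsAlgClosed.algebraMap_bijective_of_isIntegral`). -/
def S_Pt : Prop := ∀ (k K : Type) [Field k] [IsAlgClosed k] [Field K] [Algebra k K] (R : Subalgebra k K),
  R.FG → Nonempty (R →ₐ[k] k)

/-- (Dim) PROOF. Let `α i = χ (a i)`, `S = MvPolynomial (Fin d) k`, `J = Ideal.span (range X)`, `B = S ⧸ J ^ l`,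
`I` the image of `J` in `B` (nilpotent: `I ^ l = 0`), `B ⧸ I ≅ k` (constant coefficient; the homomorphism
`k → B ⧸ I`, composed with `χ`, gives `χ' : R →ₐ[k] B ⧸ I`). `Lifts` with `β i = α i + X i`: `ψ : R →ₐ[k] B` with
`ψ (a i) = α i + X i` and `ψ r ≡ χ r` modulo `I`. (1) For `v` in `vanish R χ V`: `ψ v ∈ I`; so `ψ` is `0` on
`(vanish R χ V) ^ l` (`I ^ l = ⊥`; elements of the power are sums of products of `l` elements; all are in `R`).
(2) `u i = a i - α i ∈ V` (`1 ∈ V`), and for every exponent `b` with `|b| ≤ l - 1` the monomial `u ^ b` is in `V ^ l`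
(`1 ∈ V`, `V ^ j ≤ V ^ l` for `j ≤ l`) and `ψ (u ^ b) = X ^ b`. The classes of the monomials `X ^ b`, `|b| < l`, in
`B` are linearly independent (an element of `J ^ l` has no monomials of degree `< l`:
`MvPolynomial.mem_pow_idealOfVars_iff`-type lemma, or induction), their number is `cnt d (l - 1)`. So the linear
map `ψ` on `V ^ l` (inside `R`) has kernel containing `(vanish R χ V) ^ l` and rank `≥ cnt d (l - 1)`: rank-nullity
(`LinearMap.finrank_range_add_finrank_ker`). (It suffices: the classes of the `u ^ b` in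
`V ^ l / (vanish ..) ^ l` are linearly independent.) `V ^ l` is finite dimensional (`Submodule.FG.pow`). -/
def S_Dim : Prop := ∀ (k K : Type) [Field k] [Field K] [Algebra k K] (R : Subalgebra k K)
  (V : Submodule k K) [FiniteDimensional k V] (d : ℕ) (a : Fin d → R), Lifts R a → (1 : K) ∈ V →
  (∀ i, (a i : K) ∈ V) → (∀ z ∈ V, z ∈ R) → ∀ (χ : R →ₐ[k] k) (l : ℕ), 1 ≤ l →
    finrank k ↥(vanish R χ V ^ l) + cnt d (l - 1) ≤ finrank k ↥(V ^ l)

/-- (Tr) PROOF. `d = 0` is trivial. Let `E = ratioField k V'` and suppose `trdeg k E < d`. `u i = a i - α i`,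
`s = u 0 ≠ 0` (`a` is algebraically independent), `t i = u i / s ∈ E`, `w = (z - ζ) / s ∈ E`. `s` is transcendental
over `E`: otherwise `E(s)` is algebraic over `E`, so `trdeg k E(s) = trdeg k E < d`, but `E(s)` contains the
algebraically independent `a i = α i + t i s`. Let `H = G(α + t X, ζ + w X) ∈ E[X]`, that is
`H = G.eval₂ (MvPolynomial.eval₂Hom (C ∘ algebraMap k E) (fun i => C (α i) + C (t i) * X)) (C ζ + C w * X)`.
`H(s) = G(a, z) = 0`, so `H = 0` (`s` transcendental). CLAIM: there are `c : Fin d → k` (depending only on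
`G, α, ζ`) with `H.coeff 1 = ∑ i, c i * t i + (G.derivative.eval₂ (eval α) ζ) * w` (and `H.coeff 0 = G(α, ζ)`).
Proof of the claim by induction: first for `g : MvPolynomial (Fin d) k`: `g(α + t X)` has `coeff 0 = g(α)` and
`coeff 1 = ∑ c i * t i` (`MvPolynomial.induction_on`), then for `G` (`Polynomial.induction_on'`, monomials
`g Z ^ j`: `(ζ + w X) ^ j` has `coeff 0 = ζ ^ j`, `coeff 1 = j ζ ^ (j-1) w`). So
`0 = ∑ c i * t i + γ * w`, `γ ≠ 0` in `k`; multiply by `s`: `z - ζ = - γ⁻¹ ∑ c i (a i - α i)`, so `z` is in the span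
of `1` and the `a i`: a contradiction. -/
def S_Tr : Prop := ∀ (k K : Type) [Field k] [Field K] [Algebra k K] (d : ℕ) (a : Fin d → K) (z : K),
  AlgebraicIndependent k a → z ∉ Submodule.span k (insert 1 (Set.range a)) →
  ∀ G : Polynomial (MvPolynomial (Fin d) k),
    G.eval₂ (MvPolynomial.eval₂Hom (algebraMap k K) a) z = 0 →
  ∀ (α : Fin d → k) (ζ : k), G.eval₂ (MvPolynomial.eval α) ζ = 0 →
    G.derivative.eval₂ (MvPolynomial.eval α) ζ ≠ 0 →
  ∀ V' : Submodule k K, (∀ i, a i - algebraMap k K (α i) ∈ V') → z - algebraMap k K ζ ∈ V' →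
    (d : Cardinal) ≤ Algebra.trdeg k (ratioField k (V' : Set K))

/-- (Point) PROOF (uses `S_Sep`, `S_Clr`, `S_Lift`, `S_Pt`, `S_Dim`, `S_Tr`). `S_Sep`: `a`. `dim V ≥ d + 2`, so
some `z ∈ V` is not in the span of `1` and the `a i` (`finrank_span_le_card`-type bound `d + 1`). `S_Clr`: `G`.
`h = G.derivative(a, z) ≠ 0` is in `Algebra.adjoin k V`. `S_Lift`: `R`, `a'`; `S_Pt`: `χ : R →ₐ[k] k`.
`V' = vanish R χ V`: the kernel of the linear functional `v ↦ χ v` on `V`, which is `1` at `1`: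
`finrank V' + 1 = finrank V`. `S_Dim`: the last part. `α i = χ (a' i)`, `ζ = χ z`: `a i - α i ∈ V'`,
`z - ζ ∈ V'`; applying `χ` to `G(a', z) = 0` (in `R`) and to `h * h⁻¹ = 1`: `G(α, ζ) = 0`, `G.derivative(α, ζ) ≠ 0`
(`Polynomial.hom_eval₂`). `S_Tr`: `d ≤ trdeg k (ratioField k V')`; `≤`: `V' ≤ V`
(`Algebra.trdeg_le_of_injective` for the inclusion `IntermediateField.inclusion`). -/
def S_Point : Prop := ∀ (k K : Type) [Field k] [IsAlgClosed k] [Field K] [Algebra k K]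
  (V : Submodule k K) [FiniteDimensional k V], (1 : K) ∈ V →
  ∀ d : ℕ, Algebra.trdeg k (ratioField k (V : Set K)) = d → d + 2 ≤ finrank k V →
    ∃ V' : Submodule k K, V' ≤ V ∧ finrank k V' + 1 = finrank k V ∧
      Algebra.trdeg k (ratioField k (V' : Set K)) = d ∧
      ∀ l : ℕ, 1 ≤ l → finrank k ↥(V' ^ l) + cnt d (l - 1) ≤ finrank k ↥(V ^ l)

/-- (Ind) PROOF (uses `S_Point`, `S_Rat`, `S_Sep`, `S_VdPow`). Induction on `finrank k V`. By `S_Rat` (2), (4)
(replace `V` by `f⁻¹ V`, `f ∈ V` nonzero) we may assume `1 ∈ V` (the dimension, `trdeg` and the dimensions of the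
powers do not change). If `finrank k V ≤ d + 1`: `finrank V - d ≤ 1`, and `V ^ l` contains
`span (insert 1 (range a)) ^ l = Vd k a l` for the algebraically independent `a` in `V` of `S_Sep`, of dimension
`cnt d l ≥ cnt d (l - 1)` (`tVd`, `tCnt` in `MP_16285c_agN/Degr`). If `finrank k V ≥ d + 2`: `S_Point` and the
induction hypothesis for `V'` (`V' ≠ ⊥` as `finrank V' ≥ d + 1 ≥ 1`):
`(finrank V' - d) cnt + cnt ≤ finrank V ^ l` and `finrank V - d = (finrank V' - d) + 1`. -/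
def S_Ind : Prop := ∀ (k K : Type) [Field k] [IsAlgClosed k] [Field K] [Algebra k K]
  (V : Submodule k K) [FiniteDimensional k V], V ≠ ⊥ →
  ∀ d : ℕ, Algebra.trdeg k (ratioField k (V : Set K)) = d →
    ∀ l : ℕ, 1 ≤ l → (finrank k V - d) * cnt d (l - 1) ≤ finrank k ↥(V ^ l)

/-! ## The inequality for one system -/

/-- (Glue) PROOF. `span L U` is finite dimensional over `L` (generated by a finite set) and has a basis
`g_1, …, g_q` of elements of `U` (`exists_linearIndependent`-type lemma for the spanning set `U`). The `k`-linear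
map `(V ^ l) ^ q → U * V ^ l`, `(v_i) ↦ ∑ g_i v_i`, is injective: every element of `V ^ l` is `f ^ l` times an
element of `L` (the set `f ^ l • L` is a `k`-subspace; induction), so `∑ g_i v_i = 0` gives
`∑ g_i c_i = 0` with `c_i = v_i / f ^ l ∈ L`, so all `c_i = 0`. `U * V ^ l` is finite dimensional. -/
def S_Glue : Prop := ∀ (k K : Type) [Field k] [Field K] [Algebra k K] (L : IntermediateField k K)
  (U V : Submodule k K) [FiniteDimensional k U] [FiniteDimensional k V] (f : K), f ≠ 0 →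
  (∀ v ∈ V, v / f ∈ L) → ∀ l : ℕ,
    finrank L ↥(Submodule.span L (U : Set K)) * finrank k ↥(V ^ l) ≤ finrank k ↥(U * V ^ l)

/-- (Pol) PROOF. Map `q` to `ℝ[X]` and compose with `s X` (`s ≥ 1`). If `natDegree q > n`, the quotient tends to
`± ∞` (`Polynomial.div_tendsto_atTop_of_degree_gt` / `…_atBot…` with the denominator `X ^ n`,
`tendsto_natCast_atTop_atTop`), a contradiction to the finite limit. So `natDegree q ≤ n`, and the quotient tends
to `q.coeff n * s ^ n` (write `q = ∑ i ≤ n, q.coeff i X ^ i`: `(s l) ^ i / l ^ n → 0` for `i < n`; or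
`Polynomial.div_tendsto_leadingCoeff_div_of_degree_eq` / `div_tendsto_zero_of_degree_lt`). Second part: the same
computation. -/
def S_Pol : Prop :=
  (∀ (q : Polynomial ℚ) (n s : ℕ) (c : ℝ), 1 ≤ s →
    Tendsto (fun l : ℕ => ((q.eval ((s * l : ℕ) : ℚ) : ℚ) : ℝ) / (l : ℝ) ^ n) atTop (𝓝 c) →
      q.natDegree ≤ n ∧ c = (q.coeff n : ℝ) * (s : ℝ) ^ n) ∧
  ∀ (q : Polynomial ℚ) (n s : ℕ), 1 ≤ s → q.natDegree ≤ n →
    Tendsto (fun l : ℕ => ((q.eval ((s * l : ℕ) : ℚ) : ℚ) : ℝ) / (l : ℝ) ^ n) atTop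
      (𝓝 ((q.coeff n : ℝ) * (s : ℝ) ^ n))

/-- (Lim) PROOF (uses `S_Cnt`). For `b ≥ 1`:
`B b / b ^ e * ((P - d) * cnt d (s b - 1) / b ^ d) ≤ A b / b ^ n`. Limits (`S_Cnt`):
`m ^ e D s ^ e / e! * ((P - d) s ^ d / d!) ≤ v (2 s m) ^ n / n!` (`le_of_tendsto_of_tendsto'`, eventually). Here
`P - d` is the natural subtraction; if `P ≤ d` the claim is clear as `v ≥ 0` (limit of nonnegative numbers, `s, m ≥ 1`).
Multiply out with `n = d + e`, `D ≥ 1`: `P - d ≤ 2 ^ n v m ^ d (e! d! / n!) ≤ 2 ^ n v m ^ d`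
(`Nat.factorial_mul_factorial_dvd_factorial_add`). -/
def S_Lim : Prop := ∀ (n d e s m D P : ℕ) (v : ℝ) (A B E : ℕ → ℕ), d + e = n → 1 ≤ s → 1 ≤ m → 1 ≤ D →
  (∀ b : ℕ, 1 ≤ b → B b * E b ≤ A b) → (∀ b : ℕ, 1 ≤ b → (P - d) * cnt d (s * b - 1) ≤ E b) →
  Tendsto (fun b : ℕ => (B b : ℝ) / (b : ℝ) ^ e) atTop
    (𝓝 ((m : ℝ) ^ e * ((D : ℝ) * (s : ℝ) ^ e / e.factorial))) →
  Tendsto (fun b : ℕ => (A b : ℝ) / (b : ℝ) ^ n) atTop
    (𝓝 (v * (2 * (s : ℝ) * m) ^ n / n.factorial)) →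
  (P : ℝ) ≤ d + 2 ^ n * v * (m : ℝ) ^ d

/-! ## The abstract theorem -/

/-- The situation: `V m` for the `m`-canonical forms, `χ` the Hilbert polynomial. -/
structure Setup {k K : Type} [Field k] [Field K] [Algebra k K] (n s₁ s₂ : ℕ) (V : ℕ → Submodule k K)
    (χ : Polynomial ℚ) : Prop where
  trd : Algebra.trdeg k K = n
  fin : ∀ m, FiniteDimensional k (V m)
  mul : ∀ a b, V a * V b ≤ V (a + b)
  one₁ : 1 ≤ s₁
  one₂ : 1 ≤ s₂
  cop : Nat.Coprime s₁ s₂
  gen₁ : ∀ l, 1 ≤ l → V (l * s₁) = V s₁ ^ l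
  gen₂ : ∀ l, 1 ≤ l → V (l * s₂) = V s₂ ^ l
  big : ∃ N, 1 ≤ N ∧ GenericallyFinite k (V N : Set K)
  chi : ∃ m₀ : ℕ, ∀ m : ℕ, m₀ ≤ m → χ.eval (m : ℚ) = finrank k (V m)

/-- (Td) Transcendence degrees. PROOF. (1), (2): `Algebra.trdeg_add_eq` for `k ⊆ E ⊆ K`: `trdeg k E + trdeg E K = n`,
so both are natural numbers (`Cardinal.lt_aleph0`, `Cardinal.add_lt_aleph0_iff`), and `K/E` is algebraic exactly if
`trdeg E K = 0` (`Algebra.trdeg_eq_zero_iff`). (3) `L ⊆ F ⊆ K`, `K/F` algebraic: `trdeg L F = trdeg L K`. -/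
def S_Td : Prop :=
  (∀ (k K : Type) [Field k] [Field K] [Algebra k K] (n : ℕ), Algebra.trdeg k K = n →
    ∀ E : IntermediateField k K, ∃ d e : ℕ, d + e = n ∧ Algebra.trdeg k E = d ∧ Algebra.trdeg E K = e ∧
      (¬ Algebra.IsAlgebraic E K → d < n)) ∧
  ∀ (L K : Type) [Field L] [Field K] [Algebra L K] (e : ℕ), Algebra.trdeg L K = e →
    ∀ F : IntermediateField L K, Algebra.IsAlgebraic F K → Algebra.trdeg L F = e

/-- (Big) PROOF (uses `S_Rat`). `V N` is generically finite. `(V N) ^ s₁ ≤ V (N s₁) = V (s₁) ^ N`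
(by `mul`, induction, and `gen₁`), so by `S_Rat` `ratioField (V N) = ratioField ((V N) ^ s₁) ≤ ratioField (V s₁ ^ N)
= ratioField (V s₁)` and `K` is algebraic over the larger field (`Algebra.IsAlgebraic` for a larger intermediate
field: e.g. `IsAlgebraic` of every element via `IsAlgebraic.tower_top`-type lemmas with the inclusion). In the same
way for `s₂`. `V N ≠ ⊥` and `V s₁ ≠ ⊥`: if `V N = ⊥` then `ratioField k ⊥ = ⊥` is generated by `0 / 0 = 0`, so
`K` is algebraic over `⊥`, so `trdeg k K = 0 = n` (excluded by `1 ≤ n`); if `V s₁ = ⊥` then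
`V N ^ s₁ ≤ V s₁ ^ N = ⊥`, a contradiction to `V N ≠ ⊥` (`K` is a field: a nonzero element has nonzero powers). -/
def S_Big : Prop := ∀ (k K : Type) [Field k] [Field K] [Algebra k K] (n s₁ s₂ : ℕ)
  (V : ℕ → Submodule k K) (χ : Polynomial ℚ), 1 ≤ n → Setup n s₁ s₂ V χ →
    V s₁ ≠ ⊥ ∧ V s₂ ≠ ⊥ ∧ Algebra.IsAlgebraic (ratioField k (V s₁ : Set K)) K ∧
      Algebra.IsAlgebraic (ratioField k (V s₂ : Set K)) K

/-- (Fib) PROOF (uses `S_Int`, `S_Td`, `S_Big`). `W i = span L (V (s i))`, finite dimensional over `L`, not `⊥`.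
`span L (V (l s₁)) = (span L (V s₁)) ^ l` (`span L (U * U') = span L U * span L U'`: `Submodule.span_mul_span`
and `Submodule.span_eq`-type lemmas; `V (l s₁) = V s₁ ^ l` as sets of sums of products), for `l ≥ 1`.
So `W₁ ^ s₂ = span L (V (s₂ s₁)) = span L (V (s₁ s₂)) = W₂ ^ s₁`. `ratioField L W₁` contains
`ratioField k (V s₁)`, over which `K` is algebraic, so `K` is algebraic over it and
`trdeg L (ratioField L W₁) = e` (`S_Td` (2)). `S_Int`; `L` is infinite (it contains `k`, which is algebraically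
closed); for `l ≥ 1` `V (s₁ * l) = V (l * s₁)`. -/
def S_Fib : Prop := ∀ (k K : Type) [Field k] [IsAlgClosed k] [Field K] [Algebra k K] (n s₁ s₂ : ℕ)
  (V : ℕ → Submodule k K) (χ : Polynomial ℚ), 1 ≤ n → Setup n s₁ s₂ V χ →
  ∀ (L : IntermediateField k K) (e : ℕ), Algebra.trdeg L K = e → ∃ D : ℕ, 1 ≤ D ∧
    Tendsto (fun l : ℕ => (finrank L ↥(Submodule.span L (V (s₁ * l) : Set K)) : ℝ) / (l : ℝ) ^ e) atTop
      (𝓝 ((D : ℝ) * (s₁ : ℝ) ^ e / e.factorial))

/-- (Vol) PROOF (uses `S_Int`, `S_Td`, `S_Big`, `S_Pol`). `S_Int` with `L = k`, `W₁ = V s₁`, `W₂ = V s₂`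
(`V s₁ ^ s₂ = V (s₂ s₁) = V (s₁ s₂) = V s₂ ^ s₁`), `e = n` (`S_Td` (2)): `dim V s₁ ^ l / l ^ n → D s₁ ^ n / n!`. For
large `l` `dim V s₁ ^ l = dim V (l s₁) = χ (s₁ l)`, so by `S_Pol` (1) `natDegree χ ≤ n` and
`D s₁ ^ n / n! = coeff χ n * s₁ ^ n`. -/
def S_Vol : Prop := ∀ (k K : Type) [Field k] [IsAlgClosed k] [Field K] [Algebra k K] (n s₁ s₂ : ℕ)
  (V : ℕ → Submodule k K) (χ : Polynomial ℚ), 1 ≤ n → Setup n s₁ s₂ V χ →
    χ.natDegree ≤ n ∧ ∃ D : ℕ, 1 ≤ D ∧ (n.factorial : ℚ) * χ.coeff n = D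

/-- (Abs) PROOF (uses `S_Fib`, `S_Vol`, `S_Pol`, `S_Ind`, `S_Glue`, `S_Lim`, `S_Td`). `L = ratioField k (V m)`,
`f ∈ V m` nonzero: `v / f ∈ L` for `v ∈ V m`. `S_Td` (1): `d + e = n`, `trdeg L K = e`. For `b ≥ 1` put
`U = V (s₁ m b)`, `B b = finrank L (span L U)`, `E b = finrank (V m ^ (s₁ b))`, `A b = finrank (V (2 s₁ m b))`.
`S_Glue`: `B b * E b ≤ finrank (U * V m ^ (s₁ b)) ≤ A b` as `V m ^ j ≤ V (j m)` and `U * V (s₁ b m) ≤ V (2 s₁ m b)`.
`S_Ind`: `(P - d) * cnt d (s₁ b - 1) ≤ E b`. `S_Fib` along `l = m b`: `B b / b ^ e → m ^ e (D s₁ ^ e / e!)`.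
`A b / b ^ n → coeff χ n (2 s₁ m) ^ n = v (2 s₁ m) ^ n / n!` by `S_Vol`, `S_Pol` (2) and `chi`. `S_Lim`. -/
def S_Abs : Prop := ∀ (k K : Type) [Field k] [IsAlgClosed k] [Field K] [Algebra k K] (n s₁ s₂ : ℕ)
  (V : ℕ → Submodule k K) (χ : Polynomial ℚ), 1 ≤ n → Setup n s₁ s₂ V χ →
  ∀ m : ℕ, 1 ≤ m → V m ≠ ⊥ → ∀ d : ℕ, Algebra.trdeg k (ratioField k (V m : Set K)) = d →
    (finrank k (V m) : ℚ) ≤ d + 2 ^ n * (n.factorial * χ.coeff n) * (m : ℚ) ^ d

/-- (One) PROOF (uses `S_Abs`, `S_Vol`, `S_Td`). `V m ≠ ⊥` as its dimension is `> 0` (`v ≥ 1`). If `V m` is not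
generically finite, then `trdeg k (ratioField k (V m)) = d < n` (`S_Td`), and `S_Abs`:
`P ≤ d + 2 ^ n v m ^ d ≤ n + 2 ^ n v m ^ (n-1)`. -/
def S_One : Prop := ∀ (k K : Type) [Field k] [IsAlgClosed k] [Field K] [Algebra k K] (n s₁ s₂ : ℕ)
  (V : ℕ → Submodule k K) (χ : Polynomial ℚ), 1 ≤ n → Setup n s₁ s₂ V χ → ∀ m : ℕ, 1 ≤ m →
    n + 2 ^ n * (n.factorial * χ.coeff n) * (m : ℚ) ^ (n - 1) < (finrank k (V m) : ℚ) →
    GenericallyFinite k (V m : Set K)

/-- (Diff) PROOF. `∑ i ≤ n, (-1) ^ (n-i) binom(n,i) q(t (i+1)) = n! (coeff q n) t ^ n` (the `n`-th difference of the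
polynomial `q(t X + t)` of degree `≤ n`, coefficient of `X ^ n` equal to `coeff q n * t ^ n`; Mathlib `fwdDiff`:
`fwdDiff_iter_eq_sum_shift`, `fwdDiff_iter_eq_factorial`/`Polynomial` versions, or
`Finset.sum_range_choose…`; for monomials `X ^ j`, `j < n`, the difference is `0`). If all
`2 ^ n |q(t (i+1))| < v t ^ n` then `v t ^ n ≤ ∑ binom(n,i) |q(t (i+1))| < v t ^ n`: a contradiction. -/
def S_Diff : Prop := ∀ (q : Polynomial ℚ) (n t : ℕ), q.natDegree ≤ n →
  ∃ i : ℕ, i ≤ n ∧ (n.factorial * q.coeff n) * (t : ℚ) ^ n ≤ 2 ^ n * |q.eval ((t * (i + 1) : ℕ) : ℚ)|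

/-- (Num) PROOF. `T = t ^ (n-1)`, `t ^ n = t T`, `t ≥ 4 ^ n (n+1) ^ n C`, `T ≥ 1`. From the two hypotheses
`v t T ≤ 2 ^ n C P ≤ 2 ^ n C (n + 2 ^ n v (t (i+1)) ^ (n-1)) ≤ C (2 ^ n n + 4 ^ n v (n+1) ^ (n-1) T)`. But
`v t T ≥ v 4 ^ n (n+1) ^ n C T = C v 4 ^ n (n+1) ^ (n-1) T (n + 1)`, so
`C v 4 ^ n (n+1) ^ (n-1) T n ≤ C 2 ^ n n`, i.e. `v 4 ^ n (n+1) ^ (n-1) T ≤ 2 ^ n` (`n ≥ 1`), false as `v, T ≥ 1` and
`4 ^ n > 2 ^ n`. -/
def S_Num : Prop := ∀ (n C m₁ i P : ℕ) (v : ℚ), 1 ≤ n → 1 ≤ C → 1 ≤ m₁ → i ≤ n → 1 ≤ v →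
  v * ((4 ^ n * (n + 1) ^ n * C * m₁ : ℕ) : ℚ) ^ n ≤ 2 ^ n * (C * P) →
  (P : ℚ) ≤ n + 2 ^ n * v * ((4 ^ n * (n + 1) ^ n * C * m₁ * (i + 1) : ℕ) : ℚ) ^ (n - 1) → False

/-- (Two) PROOF (uses `S_One`, `S_Vol`, `S_Diff`, `S_Num`, `S_Rat`). `t = 4 ^ n (n+1) ^ n C m₁`, `S_Diff` for `χ`:
`i ≤ n` with `v t ^ n ≤ 2 ^ n |χ(m)|`, `m = t (i+1) ≥ m₁`, so `|χ(m)| ≤ C P_m`. If `P_m ≤ n + 2 ^ n v m ^ (n-1)`:
`S_Num`. So `V m` is generically finite by `S_One`. `m ∣ R` as `(i+1) ∣ (n+1)!` and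
`R = t (n+1)!`; `V m ^ (R / m) ≤ V R` and `ratioField (V m) = ratioField (V m ^ (R/m)) ≤ ratioField (V R)`
(`S_Rat`; `V m ≠ ⊥` as `P_m > 0`), so `V R` is generically finite. -/
def S_Two : Prop := ∀ (k K : Type) [Field k] [IsAlgClosed k] [Field K] [Algebra k K] (n s₁ s₂ : ℕ)
  (V : ℕ → Submodule k K) (χ : Polynomial ℚ), 1 ≤ n → Setup n s₁ s₂ V χ →
  ∀ C m₁ : ℕ, 1 ≤ C → 1 ≤ m₁ → (∀ m : ℕ, m₁ ≤ m → |χ.eval (m : ℚ)| ≤ C * finrank k (V m)) →
    GenericallyFinite k (V (4 ^ n * (n + 1) ^ n * (n + 1).factorial * C * m₁) : Set K)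

end Pool.Agent.Lib.MP_8bcb2e_ag.AC
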