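import Pool.Agent.Lib.MP_8bcb2e_ag.AC.Spec

/-!
# Transcendence degrees in towers (proof of `S_Td`)
-/

set_option autoImplicit false

namespace Pool.Agent.Lib.MP_8bcb2e_ag.AC

open Pool.Agent.Lib.MP_16285c_agN (Vd cnt)
open Filter Topology Module

private theorem Td_one (k K : Type) [Field k] [Field K] [Algebra k K] (n : ℕ)
    (h : Algebra.trdeg k K = n) (E : IntermediateField k K) :
    ∃ d e : ℕ, d + e = n ∧ Algebra.trdeg k E = d ∧ Algebra.trdeg E K = e ∧
      (¬ Algebra.IsAlgebraic E K → d < n) := by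
  have h1 : Algebra.trdeg k E + Algebra.trdeg E K = Algebra.trdeg k K :=
    trdeg_add_eq k E
  rw [h] at h1
  have h2 : Algebra.trdeg k E < Cardinal.aleph0 ∧ Algebra.trdeg E K < Cardinal.aleph0 := by
    rw [← Cardinal.add_lt_aleph0_iff, h1]
    exact Cardinal.natCast_lt_aleph0
  obtain ⟨d, hd⟩ := Cardinal.lt_aleph0.1 h2.1
  obtain ⟨e, he⟩ := Cardinal.lt_aleph0.1 h2.2
  rw [hd, he] at h1
  have h3 : d + e = n := by exact_mod_cast h1
  refine ⟨d, e, h3, hd, he, fun halg => ?_⟩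
  have h4 : e ≠ 0 := by
    rintro rfl
    apply halg
    rw [← trdeg_eq_zero_iff, he, Nat.cast_zero]
  omega

theorem tTd : S_Td := by
  refine ⟨Td_one, ?_⟩
  intro L K _ _ _ e h F hF
  have h1 : Algebra.trdeg L F + Algebra.trdeg F K = Algebra.trdeg L K :=
    trdeg_add_eq L F
  rwa [trdeg_eq_zero_iff.2 hF, add_zero, h] at h1

end Pool.Agent.Lib.MP_8bcb2e_ag.AC
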