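import Pool.Agent.Lib.MP_8bcb2e_ag.AC.Spec

/-!
# Transcendence degree after projection (linear term of the relation)
-/

set_option autoImplicit false

namespace Pool.Agent.Lib.MP_8bcb2e_ag.AC

open Pool.Agent.Lib.MP_16285c_agN (Vd cnt)
open Filter Topology Module

section

variable {k E : Type} [Field k] [Field E] [Algebra k E]

private noncomputable def Tr_hom {d : ℕ} (α : Fin d → k) (t : Fin d → E) :
    MvPolynomial (Fin d) k →+* Polynomial E :=
  MvPolynomial.eval₂Hom (Polynomial.C.comp (algebraMap k E))
    (fun i => Polynomial.C (algebraMap k E (α i)) + Polynomial.C (t i) * Polynomial.X)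

private lemma Tr_lin (x y : E) :
    (Polynomial.C x + Polynomial.C y * Polynomial.X).coeff 0 = x ∧
      (Polynomial.C x + Polynomial.C y * Polynomial.X).coeff 1 = y := by
  constructor <;> simp [Polynomial.coeff_C]

private lemma Tr_g {d : ℕ} (α : Fin d → k) (t : Fin d → E) (g : MvPolynomial (Fin d) k) :
    (Tr_hom α t g).coeff 0 = algebraMap k E (MvPolynomial.eval α g) ∧
      ∃ c : Fin d → k, (Tr_hom α t g).coeff 1 = ∑ i, algebraMap k E (c i) * t i := by
  classical
  induction g using MvPolynomial.induction_on with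
  | C r =>
    have h : Tr_hom α t (MvPolynomial.C r) = Polynomial.C (algebraMap k E r) := by
      simp [Tr_hom]
    rw [h]
    refine ⟨by simp, fun _ => 0, ?_⟩
    simp
  | add p q hp hq =>
    obtain ⟨hp0, cp, hp1⟩ := hp
    obtain ⟨hq0, cq, hq1⟩ := hq
    refine ⟨?_, fun i => cp i + cq i, ?_⟩
    · rw [map_add, Polynomial.coeff_add, hp0, hq0, map_add, map_add]
    · rw [map_add, Polynomial.coeff_add, hp1, hq1, ← Finset.sum_add_distrib]
      refine Finset.sum_congr rfl fun i _ => ?_
      rw [map_add, add_mul]
  | mul_X p j hp =>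
    obtain ⟨hp0, cp, hp1⟩ := hp
    have hX : Tr_hom α t (MvPolynomial.X j) =
        Polynomial.C (algebraMap k E (α j)) + Polynomial.C (t j) * Polynomial.X := by
      simp [Tr_hom]
    obtain ⟨h0, h1⟩ := Tr_lin (algebraMap k E (α j)) (t j)
    refine ⟨?_, fun i => cp i * α j + if i = j then MvPolynomial.eval α p else 0, ?_⟩
    · rw [map_mul, hX, Polynomial.mul_coeff_zero, hp0, h0, map_mul, MvPolynomial.eval_X, map_mul]
    · rw [map_mul, hX, Polynomial.mul_coeff_one, hp0, h0, h1, hp1]
      have h2 : ∀ i, algebraMap k E (cp i * α j + if i = j then MvPolynomial.eval α p else 0) * t i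
          = algebraMap k E (cp i) * t i * algebraMap k E (α j) +
            if i = j then algebraMap k E (MvPolynomial.eval α p) * t j else 0 := by
        intro i
        rw [map_add, map_mul]
        split_ifs with hij
        · rw [hij]
          ring
        · rw [map_zero]
          ring
      rw [Finset.sum_congr rfl fun i _ => h2 i, Finset.sum_add_distrib,
        Finset.sum_ite_eq' Finset.univ j, if_pos (Finset.mem_univ j), ← Finset.sum_mul]
      ring

private lemma Tr_pow (x y : E) (n : ℕ) :
    ((Polynomial.C x + Polynomial.C y * Polynomial.X) ^ n).coeff 0 = x ^ n ∧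
      ((Polynomial.C x + Polynomial.C y * Polynomial.X) ^ n).coeff 1 = n * x ^ (n - 1) * y := by
  obtain ⟨h0, h1⟩ := Tr_lin x y
  induction n with
  | zero => simp [Polynomial.coeff_one]
  | succ n ih =>
    obtain ⟨i0, i1⟩ := ih
    rw [pow_succ, Polynomial.mul_coeff_zero, Polynomial.mul_coeff_one, i0, i1, h0, h1]
    refine ⟨by ring, ?_⟩
    rcases Nat.eq_zero_or_pos n with hn | hn
    · subst hn
      simp
    · obtain ⟨m, rfl⟩ : ∃ m, n = m + 1 := ⟨n - 1, by omega⟩
      simp only [Nat.add_sub_cancel]
      push_cast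
      ring

private lemma Tr_G {d : ℕ} (α : Fin d → k) (t : Fin d → E) (ζ : k) (w : E)
    (G : Polynomial (MvPolynomial (Fin d) k)) :
    ∃ c : Fin d → k, (G.eval₂ (Tr_hom α t) (Polynomial.C (algebraMap k E ζ) +
      Polynomial.C w * Polynomial.X)).coeff 1 = ∑ i, algebraMap k E (c i) * t i +
        algebraMap k E (G.derivative.eval₂ (MvPolynomial.eval α) ζ) * w := by
  induction G using Polynomial.induction_on' with
  | add p q hp hq =>
    obtain ⟨cp, hp⟩ := hp
    obtain ⟨cq, hq⟩ := hq
    refine ⟨fun i => cp i + cq i, ?_⟩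
    rw [Polynomial.eval₂_add, Polynomial.coeff_add, hp, hq, Polynomial.derivative_add,
      Polynomial.eval₂_add, map_add]
    have : ∑ i, algebraMap k E (cp i + cq i) * t i =
        ∑ i, algebraMap k E (cp i) * t i + ∑ i, algebraMap k E (cq i) * t i := by
      rw [← Finset.sum_add_distrib]
      exact Finset.sum_congr rfl fun i _ => by rw [map_add, add_mul]
    rw [this]
    ring
  | monomial n g =>
    obtain ⟨hg0, cg, hg1⟩ := Tr_g α t g
    obtain ⟨h0, h1⟩ := Tr_pow (algebraMap k E ζ) w n
    refine ⟨fun i => cg i * ζ ^ n, ?_⟩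
    rw [Polynomial.eval₂_monomial, Polynomial.mul_coeff_one, hg0, hg1, h0, h1,
      Polynomial.derivative_monomial, Polynomial.eval₂_monomial]
    have h2 : ∑ i, algebraMap k E (cg i * ζ ^ n) * t i =
        (∑ i, algebraMap k E (cg i) * t i) * algebraMap k E ζ ^ n := by
      rw [Finset.sum_mul]
      exact Finset.sum_congr rfl fun i _ => by rw [map_mul, map_pow]; ring
    rw [h2, map_mul, map_mul, map_natCast, map_mul, map_natCast, map_pow]
    ring

end

/-- A family inside an algebraic extension of `E` has at most `trdeg E` algebraically independent members. -/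
private lemma Tr_deg {k K : Type} [Field k] [Field K] [Algebra k K] {d : ℕ} {a : Fin d → K}
    (ha : AlgebraicIndependent k a) (E : IntermediateField k K) (hE : ∀ i, IsAlgebraic E (a i)) :
    (d : Cardinal) ≤ Algebra.trdeg k E := by
  have hmem : ∀ i, a i ∈ algebraicClosure E K := fun i => by
    rw [mem_algebraicClosure_iff]
    exact hE i
  let a' : Fin d → algebraicClosure E K := fun i => ⟨a i, hmem i⟩
  let f : algebraicClosure E K →ₐ[k] K := ((algebraicClosure E K).val).restrictScalars k
  have ha' : AlgebraicIndependent k a' := by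
    refine AlgebraicIndependent.of_comp f ?_
    exact ha
  have h1 := ha'.cardinalMk_le_trdeg
  rw [Cardinal.mk_fin] at h1
  have h2 : Algebra.trdeg k E + Algebra.trdeg E (algebraicClosure E K) =
      Algebra.trdeg k (algebraicClosure E K) := trdeg_add_eq k E
  have h3 : Algebra.trdeg E (algebraicClosure E K) = 0 := trdeg_eq_zero
  rw [h3, add_zero] at h2
  rw [h2]
  exact h1

theorem tTr : S_Tr := by
  intro k K _ _ _ d a z ha hz G hG α ζ hG0 hG1 V' hu hzu
  rcases Nat.eq_zero_or_pos d with hd | hd
  · subst hd
    simp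
  by_contra hlt
  let i₀ : Fin d := ⟨0, hd⟩
  set E := ratioField k (V' : Set K) with hE
  set s : K := a i₀ - algebraMap k K (α i₀) with hs
  have hs0 : s ≠ 0 := by
    intro h0
    have h1 := ha.transcendental i₀
    apply h1
    rw [sub_eq_zero.1 h0]
    exact isAlgebraic_algebraMap _
  have hquot : ∀ u ∈ V', u / s ∈ E := fun u huV =>
    IntermediateField.subset_adjoin _ _ ⟨u, huV, s, hu i₀, rfl⟩
  let t : Fin d → E := fun i => ⟨(a i - algebraMap k K (α i)) / s, hquot _ (hu i)⟩
  let w : E := ⟨(z - algebraMap k K ζ) / s, hquot _ hzu⟩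
  have ht : ∀ i, (t i : K) * s = a i - algebraMap k K (α i) := fun i => div_mul_cancel₀ _ hs0
  have hw : (w : K) * s = z - algebraMap k K ζ := div_mul_cancel₀ _ hs0
  have htr : Transcendental E s := by
    intro halg
    apply hlt
    refine Tr_deg ha E fun i => ?_
    have h1 : a i = algebraMap E K (algebraMap k E (α i)) + algebraMap E K (t i) * s := by
      have h2 : algebraMap E K (t i) * s = a i - algebraMap k K (α i) := ht i
      rw [h2, ← IsScalarTower.algebraMap_apply k E K]
      ring
    rw [h1]
    exact (isAlgebraic_algebraMap _).add ((isAlgebraic_algebraMap _).mul halg)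
  obtain ⟨c, hc⟩ := Tr_G α t ζ w G
  have hH : G.eval₂ (Tr_hom α t) (Polynomial.C (algebraMap k E ζ) + Polynomial.C w * Polynomial.X)
      = 0 := by
    apply transcendental_iff.1 htr
    have h1 : (Polynomial.aeval s) (G.eval₂ (Tr_hom α t)
        (Polynomial.C (algebraMap k E ζ) + Polynomial.C w * Polynomial.X)) =
        G.eval₂ (((Polynomial.aeval s : Polynomial E →ₐ[E] K) : Polynomial E →+* K).comp
          (Tr_hom α t)) ((Polynomial.aeval s) (Polynomial.C (algebraMap k E ζ) +
            Polynomial.C w * Polynomial.X)) :=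
      Polynomial.hom_eval₂ G (Tr_hom α t)
        ((Polynomial.aeval s : Polynomial E →ₐ[E] K) : Polynomial E →+* K) _
    have h2 : ((Polynomial.aeval s : Polynomial E →ₐ[E] K) : Polynomial E →+* K).comp
        (Tr_hom α t) = MvPolynomial.eval₂Hom (algebraMap k K) a := by
      apply MvPolynomial.ringHom_ext
      · intro r
        simp [Tr_hom, ← IsScalarTower.algebraMap_apply k E K]
      · intro i
        have h3 : algebraMap E K (t i) * s = a i - algebraMap k K (α i) := ht i
        have h5 : ((Polynomial.aeval s : Polynomial E →ₐ[E] K) : Polynomial E →+* K).comp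
            (Tr_hom α t) (MvPolynomial.X i) =
            algebraMap E K (algebraMap k E (α i)) + algebraMap E K (t i) * s := by
          simp only [Tr_hom, RingHom.comp_apply, MvPolynomial.coe_eval₂Hom, MvPolynomial.eval₂_X,
            map_add, map_mul, RingHom.coe_coe, Polynomial.aeval_C, Polynomial.aeval_X]
        rw [h5, h3, ← IsScalarTower.algebraMap_apply k E K, MvPolynomial.coe_eval₂Hom,
          MvPolynomial.eval₂_X]
        ring
    have h4 : (Polynomial.aeval s) (Polynomial.C (algebraMap k E ζ) +
            Polynomial.C w * Polynomial.X) = z := by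
      have h3 : algebraMap E K w * s = z - algebraMap k K ζ := hw
      rw [map_add, map_mul, Polynomial.aeval_C, Polynomial.aeval_C, Polynomial.aeval_X, h3,
        ← IsScalarTower.algebraMap_apply k E K]
      ring
    rw [h1, h2, h4, hG]
  rw [hH, Polynomial.coeff_zero] at hc
  set γ := G.derivative.eval₂ (MvPolynomial.eval α) ζ with hγ
  have hc' : (0 : K) = ∑ i, algebraMap k K (c i) * (a i - algebraMap k K (α i)) +
      algebraMap k K γ * (z - algebraMap k K ζ) := by
    have h1 := congrArg (fun e : E => algebraMap E K e * s) hc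
    have h2 : algebraMap E K (0 : E) * s = 0 := by rw [map_zero, zero_mul]
    rw [← h2]
    refine h1.trans ?_
    simp only [map_add, map_sum, map_mul, add_mul, Finset.sum_mul]
    congr 1
    · refine Finset.sum_congr rfl fun i _ => ?_
      have h3 : algebraMap E K (t i) * s = a i - algebraMap k K (α i) := ht i
      rw [mul_assoc, h3, ← IsScalarTower.algebraMap_apply k E K]
    · have h3 : algebraMap E K w * s = z - algebraMap k K ζ := hw
      rw [mul_assoc, h3, ← IsScalarTower.algebraMap_apply k E K]
  apply hz
  have hγ0 : algebraMap k K γ ≠ 0 := by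
    intro h0
    exact hG1 ((map_eq_zero _).1 h0)
  have hz' : z = ζ • (1 : K) - γ⁻¹ • ∑ i, c i • (a i - α i • (1 : K)) := by
    simp only [Algebra.smul_def, mul_one, map_inv₀]
    field_simp
    linear_combination (-1 : K) * hc'
  rw [hz']
  have h1mem : (1 : K) ∈ Submodule.span k (insert 1 (Set.range a)) :=
    Submodule.subset_span (Set.mem_insert _ _)
  refine Submodule.sub_mem _ (Submodule.smul_mem _ _ h1mem) (Submodule.smul_mem _ _ ?_)
  refine Submodule.sum_mem _ fun i _ => Submodule.smul_mem _ _ (Submodule.sub_mem _ ?_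
    (Submodule.smul_mem _ _ h1mem))
  exact Submodule.subset_span (Set.mem_insert_of_mem _ ⟨i, rfl⟩)

end Pool.Agent.Lib.MP_8bcb2e_ag.AC
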