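import Pool.Agent.Lib.MP_8bcb2e_ag.AC.Spec

/-!
MP_8bcb2e_ag, part AC, module Two (helper56): the explicit multiple.
-/

set_option autoImplicit false

namespace Pool.Agent.Lib.MP_8bcb2e_ag.AC

open Pool.Agent.Lib.MP_16285c_agN (Vd cnt)
open Filter Topology Module

private theorem Two_mono {k K : Type} [Field k] [Field K] [Algebra k K] {E F : IntermediateField k K}
    (h : E ≤ F) (hE : Algebra.IsAlgebraic E K) : Algebra.IsAlgebraic F K := by
  letI : Algebra E F := (IntermediateField.inclusion h).toRingHom.toAlgebra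
  haveI : IsScalarTower E F K := IsScalarTower.of_algebraMap_eq' rfl
  exact Algebra.IsAlgebraic.tower_top (K := E) F

private theorem Two_pow {k K : Type} [Field k] [Field K] [Algebra k K] {n s₁ s₂ : ℕ}
    {V : ℕ → Submodule k K} {χ : Polynomial ℚ} (h : Setup n s₁ s₂ V χ) (m N : ℕ) (hN : 1 ≤ N) :
    V m ^ N ≤ V (m * N) := by
  induction N, hN using Nat.le_induction with
  | base => rw [pow_one, mul_one]
  | succ N hN ih =>
    rw [pow_succ, Nat.mul_succ]
    exact (mul_le_mul' ih le_rfl).trans (h.mul _ _)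

theorem tTwo (hOne : S_One) (hVol : S_Vol) (hDiff : S_Diff) (hNum : S_Num) (hRat : S_Rat) : S_Two := by
  intro k K _ _ _ _ n s₁ s₂ V χ hn hS C m₁ hC hm₁ hχ
  obtain ⟨hdeg, D, hD, hv⟩ := hVol k K n s₁ s₂ V χ hn hS
  have hv1 : (1 : ℚ) ≤ (n.factorial : ℚ) * χ.coeff n := by
    rw [hv]
    exact_mod_cast hD
  set t : ℕ := 4 ^ n * (n + 1) ^ n * C * m₁ with ht
  obtain ⟨i, hi, hdi⟩ := hDiff χ n t hdeg
  have ht1 : m₁ ≤ t := by
    rw [ht]
    exact Nat.le_mul_of_pos_left _ (by positivity)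
  have htpos : 0 < t := by omega
  have hm : m₁ ≤ t * (i + 1) := ht1.trans (Nat.le_mul_of_pos_right _ (by omega))
  have hm1 : 1 ≤ t * (i + 1) := hm₁.trans hm
  have h1 := hχ _ hm
  have h2 : (n.factorial : ℚ) * χ.coeff n * ((4 ^ n * (n + 1) ^ n * C * m₁ : ℕ) : ℚ) ^ n ≤
      2 ^ n * (C * (finrank k (V (t * (i + 1))) : ℕ)) := by
    refine hdi.trans ?_
    exact mul_le_mul_of_nonneg_left h1 (by positivity)
  have h3 : n + 2 ^ n * ((n.factorial : ℚ) * χ.coeff n) * ((t * (i + 1) : ℕ) : ℚ) ^ (n - 1) <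
      (finrank k (V (t * (i + 1))) : ℚ) := by
    by_contra hc
    rw [not_lt] at hc
    exact hNum n C m₁ i _ _ hn hC hm₁ hi hv1 h2 hc
  have h4 : GenericallyFinite k (V (t * (i + 1)) : Set K) :=
    hOne k K n s₁ s₂ V χ hn hS _ hm1 h3
  have hne : V (t * (i + 1)) ≠ ⊥ := by
    intro h0
    rw [h0, finrank_bot] at h3
    have h5 : (0 : ℚ) ≤ n + 2 ^ n * ((n.factorial : ℚ) * χ.coeff n) *
        ((t * (i + 1) : ℕ) : ℚ) ^ (n - 1) := by positivity
    rw [Nat.cast_zero] at h3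
    linarith
  obtain ⟨e, he⟩ : (i + 1) ∣ (n + 1).factorial := Nat.dvd_factorial (by omega) (by omega)
  have he1 : 1 ≤ e := by
    rcases Nat.eq_zero_or_pos e with h0 | h0
    · rw [h0, mul_zero] at he
      exact absurd he (Nat.factorial_ne_zero _)
    · exact h0
  have hR : 4 ^ n * (n + 1) ^ n * (n + 1).factorial * C * m₁ = t * (i + 1) * e := by
    rw [he, ht]
    ring
  rw [hR]
  have h6 : ratioField k (V (t * (i + 1)) : Set K) ≤
      ratioField k (V (t * (i + 1) * e) : Set K) := by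
    rw [← hRat.1 k K _ hne e he1]
    exact hRat.2.2.1 k K _ _ (Two_pow hS _ e he1)
  exact Two_mono h6 h4

end Pool.Agent.Lib.MP_8bcb2e_ag.AC
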