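import Pool.Agent.Lib.MP_8bcb2e_ag.AC.Spec
import Pool.Agent.Lib.MP_16285c_agN.Degr.NN
import Pool.Agent.Lib.MP_16285c_agN.Degr.Vd
import Pool.Agent.Lib.MP_16285c_agN.Degr.Cnt
import Pool.Agent.Lib.MP_16285c_agN.Degr.Up
import Pool.Agent.Lib.MP_16285c_agN.Degr.UpF

/-!
# MP_8bcb2e, AC: two-sided bound for the dimension of `Vd`
-/

set_option autoImplicit false

namespace Pool.Agent.Lib.MP_8bcb2e_ag.AC

open Pool.Agent.Lib.MP_16285c_agN (Vd cnt)
open Filter Topology Module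
open scoped IntermediateField.algebraAdjoinAdjoin

private theorem VdG_alg {κ F : Type} [Field κ] [Field F] [Algebra κ F] (S : Set F)
    (h : Algebra.IsAlgebraic (IntermediateField.adjoin κ S) F) :
    Algebra.IsAlgebraic (Algebra.adjoin κ S) F :=
  Algebra.IsAlgebraic.trans (Algebra.adjoin κ S) (IntermediateField.adjoin κ S) F

theorem tVdG (hLow : S_Low) : S_VdG := by
  intro κ F _ _ _ _ c x hx
  obtain ⟨s, A, hind, W, hW, hle⟩ := Pool.Agent.Lib.MP_16285c_agN.tNN κ κ F c x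
  set l : Fin s → F := fun i => ∑ j, algebraMap κ F (A i j) * x j with hl
  have hfin : Module.Finite (IntermediateField.adjoin κ (Set.range l)) F :=
    Pool.Agent.Lib.MP_16285c_agN.tUpF κ F c s x l W hx hW hle
  obtain ⟨C₁, hC₁⟩ := Pool.Agent.Lib.MP_16285c_agN.tUp Pool.Agent.Lib.MP_16285c_agN.tVd
    κ F c s x l W hind hW hle hfin
  have hspan : ∀ i, l i ∈ Submodule.span κ (Set.range x) := by
    intro i
    refine Submodule.sum_mem _ fun j _ => ?_
    rw [← Algebra.smul_def]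
    exact Submodule.smul_mem _ _ (Submodule.subset_span ⟨j, rfl⟩)
  obtain ⟨C₂, hC₂⟩ := hLow κ F c s x l hx hind hspan hfin
  have hcnt := Pool.Agent.Lib.MP_16285c_agN.tCnt.2.1
  have hVfin : ∀ a : ℕ, Module.Finite κ (Vd κ x a) :=
    fun a => Pool.Agent.Lib.MP_16285c_agN.tVd.1 κ F c x a
  refine ⟨s, finrank (IntermediateField.adjoin κ (Set.range l)) F, max C₁ C₂, ?_, ?_,
    fun a => ⟨?_, ?_⟩⟩
  · exact Module.finrank_pos
  · have halg : Algebra.IsAlgebraic (IntermediateField.adjoin κ (Set.range l)) F :=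
      Algebra.IsAlgebraic.of_finite _ _
    have hb : IsTranscendenceBasis κ l :=
      isTranscendenceBasis_iff_algebraicIndependent_isAlgebraic.2 ⟨hind, VdG_alg _ halg⟩
    have hc := hb.cardinalMk_eq_trdeg
    rw [← hc, Cardinal.mk_fin]
  · refine (hC₂ a).trans ?_
    have hmono : Vd κ x (a + C₂) ≤ Vd κ x (a + max C₁ C₂) :=
      Pool.Agent.Lib.MP_16285c_agN.DegrNNM.Vd_mono x _ _
        (Nat.add_le_add_left (le_max_right C₁ C₂) a)
    have := hVfin (a + max C₁ C₂)
    exact Submodule.finrank_mono hmono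
  · refine (hC₁ a).trans (Nat.mul_le_mul_left _ (hcnt s _ _ ?_))
    exact Nat.add_le_add_left (le_max_left C₁ C₂) a

end Pool.Agent.Lib.MP_8bcb2e_ag.AC
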