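import Pool.Agent.Lib.MP_8bcb2e_ag.AC.Spec
import Pool.Agent.Lib.MP_16285c_agN.Degr.NN

/-!
# The powers of the span of `1` and the generators (`S_VdPow`)
-/

set_option autoImplicit false

namespace Pool.Agent.Lib.MP_8bcb2e_ag.AC

open Pool.Agent.Lib.MP_16285c_agN (Vd cnt)
open Filter Topology Module

private theorem VdPow_le {κ F : Type} [Field κ] [Field F] [Algebra κ F] (c : ℕ) (x : Fin c → F)
    (l : ℕ) : Submodule.span κ (insert 1 (Set.range x)) ^ l ≤ Vd κ x l := by
  induction l with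
  | zero =>
    rw [pow_zero, Submodule.one_le]
    exact Pool.Agent.Lib.MP_16285c_agN.DegrNNM.Vd_one x 0
  | succ l ih =>
    rw [pow_succ, Submodule.mul_le]
    intro m hm n hn
    refine Pool.Agent.Lib.MP_16285c_agN.DegrNNM.Vd_mul x l 1 m n (ih hm) ?_
    have h : Submodule.span κ (insert 1 (Set.range x)) ≤ Vd κ x 1 := by
      rw [Submodule.span_le]
      rintro y (rfl | ⟨i, rfl⟩)
      · exact Pool.Agent.Lib.MP_16285c_agN.DegrNNM.Vd_one x 1
      · exact Pool.Agent.Lib.MP_16285c_agN.DegrNNM.Vd_gen x i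
    exact h hn

theorem tVdPow : S_VdPow := by
  intro κ F _ _ _ c x l
  refine le_antisymm (VdPow_le c x l) ?_
  have hW1 : (1 : Submodule κ F) ≤ Submodule.span κ (insert 1 (Set.range x)) := by
    rw [Submodule.one_le]
    exact Submodule.subset_span (Set.mem_insert _ _)
  intro g hg
  rw [Pool.Agent.Lib.MP_16285c_agN.DegrNNM.mem_Vd] at hg
  obtain ⟨p, hp, rfl⟩ := hg
  refine Pool.Agent.Lib.MP_16285c_agN.DegrNNM.aeval_mem x
    (fun a => Submodule.span κ (insert 1 (Set.range x)) ^ a) ?_ ?_ ?_ ?_ p l hp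
  · rw [pow_zero, ← Submodule.one_le]
  · intro a b hab
    exact pow_le_pow_right' hW1 hab
  · intro a b g h hg hh
    change g * h ∈ Submodule.span κ (insert 1 (Set.range x)) ^ (a + b)
    rw [pow_add]
    exact Submodule.mul_mem_mul hg hh
  · intro i
    change x i ∈ Submodule.span κ (insert 1 (Set.range x)) ^ 1
    rw [pow_one]
    exact Submodule.subset_span (Set.mem_insert_of_mem _ ⟨i, rfl⟩)

end Pool.Agent.Lib.MP_8bcb2e_ag.AC
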