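import Pool.Agent.Lib.MP_8bcb2e_ag.AC.Spec

/-! # Project AC: `v` is a positive integer -/

set_option autoImplicit false

namespace Pool.Agent.Lib.MP_8bcb2e_ag.AC

open Pool.Agent.Lib.MP_16285c_agN (Vd cnt)
open Filter Topology Module

theorem tVol (hInt : S_Int) (hTd : S_Td) (hBig : S_Big) (hPol : S_Pol) : S_Vol := by
  intro k K _ _ _ _ n s₁ s₂ V χ hn hS
  obtain ⟨hV1, hV2, ha1, ha2⟩ := hBig k K n s₁ s₂ V χ hn hS
  haveI : FiniteDimensional k (V s₁) := hS.fin _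
  haveI : FiniteDimensional k (V s₂) := hS.fin _
  haveI : Infinite k := inferInstance
  have hpow : V s₁ ^ s₂ = V s₂ ^ s₁ := by
    rw [← hS.gen₁ s₂ hS.one₂, ← hS.gen₂ s₁ hS.one₁, mul_comm]
  obtain ⟨D, hD, hlim⟩ := hInt k K (V s₁) (V s₂) hV1 hV2 s₁ s₂ hS.one₁ hS.one₂ hS.cop hpow n
    (hTd.2 k K n hS.trd _ ha1)
  obtain ⟨m₀, hm₀⟩ := hS.chi
  have hlim2 : Tendsto (fun l : ℕ => ((χ.eval ((s₁ * l : ℕ) : ℚ) : ℚ) : ℝ) / (l : ℝ) ^ n) atTop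
      (𝓝 ((D : ℝ) * (s₁ : ℝ) ^ n / n.factorial)) := by
    refine hlim.congr' ?_
    filter_upwards [eventually_ge_atTop (max 1 m₀)] with l hl
    have hl1 : 1 ≤ l := (le_max_left _ _).trans hl
    have hl2 : m₀ ≤ l := (le_max_right _ _).trans hl
    have hl3 : m₀ ≤ s₁ * l := hl2.trans (Nat.le_mul_of_pos_left l hS.one₁)
    rw [hm₀ _ hl3, ← hS.gen₁ l hl1, mul_comm l s₁, Rat.cast_natCast]
  obtain ⟨hdeg, hc⟩ := hPol.1 χ n s₁ _ hS.one₁ hlim2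
  refine ⟨hdeg, D, hD, ?_⟩
  have hs : ((s₁ : ℝ)) ^ n ≠ 0 := by
    have : (0 : ℝ) < s₁ := by exact_mod_cast hS.one₁
    positivity
  have hf : ((n.factorial : ℕ) : ℝ) ≠ 0 := by exact_mod_cast n.factorial_ne_zero
  have h1 : ((n.factorial : ℕ) : ℝ) * (χ.coeff n : ℝ) = D := by
    have h2 : (D : ℝ) * (s₁ : ℝ) ^ n = (χ.coeff n : ℝ) * (s₁ : ℝ) ^ n * n.factorial := by
      rw [← hc]
      field_simp
    have h3 : (((n.factorial : ℕ) : ℝ) * (χ.coeff n : ℝ)) * (s₁ : ℝ) ^ n = (D : ℝ) * (s₁ : ℝ) ^ n := by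
      rw [h2]
      ring
    exact mul_right_cancel₀ hs h3
  exact_mod_cast h1

end Pool.Agent.Lib.MP_8bcb2e_ag.AC
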